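import Pool.Agent.SKS.Defs

/-!
# MP_504954_lc (project SKS): basic lemmas (helper22)
-/

set_option autoImplicit false

namespace SKS

open CofSN CpB Cardinal

variable {W : Type}

/-! ## Cells -/

theorem Eqv.refl (s : W →₀ ℕ) (x : Pt W) : Eqv s x x := fun _ _ _ => rfl

theorem Eqv.symm {s : W →₀ ℕ} {x y : Pt W} (h : Eqv s x y) : Eqv s y x :=
  fun j m hm => (h j m hm).symm

theorem Eqv.trans {s : W →₀ ℕ} {x y z : Pt W} (h : Eqv s x y) (h' : Eqv s y z) : Eqv s x z :=
  fun j m hm => (h j m hm).trans (h' j m hm)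

theorem Eqv.mono {s t : W →₀ ℕ} (hst : s ≤ t) {x y : Pt W} (h : Eqv t x y) : Eqv s x y :=
  fun j m hm => h j m (hm.trans_le (hst j))

theorem eqv_zero (x y : Pt W) : Eqv 0 x y := fun _ _ hm => absurd hm (Nat.not_lt_zero _)

theorem isClopen_bit (j : W) (m : ℕ) (b : Bool) : IsClopen {y : Pt W | y j m = b} := by
  have h : Continuous (fun y : Pt W => y j m) := by fun_prop
  exact (isClopen_discrete {b}).preimage h

theorem isClopen_cell (s : W →₀ ℕ) (x : Pt W) : IsClopen {y | Eqv s y x} := by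
  classical
  have h : {y | Eqv s y x} = ⋂ j ∈ s.support, ⋂ m ∈ Finset.range (s j), {y | y j m = x j m} := by
    ext y
    simp only [Set.mem_setOf_eq, Set.mem_iInter, Finset.mem_range]
    constructor
    · intro h j _ m hm
      exact h j m hm
    · intro h j m hm
      refine h j ?_ m hm
      rw [Finsupp.mem_support_iff]
      omega
  rw [h]
  exact Set.Finite.isClopen_biInter s.support.finite_toSet fun j _ =>
    Set.Finite.isClopen_biInter (Finset.range (s j)).finite_toSet fun m _ => isClopen_bit j m _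

theorem exists_cell_subset {U : Set (Pt W)} (hU : IsOpen U) {x : Pt W} (hx : x ∈ U) :
    ∃ s : W →₀ ℕ, ∀ y, Eqv s y x → y ∈ U := by
  classical
  rw [isOpen_pi_iff] at hU
  obtain ⟨I, u, hu, hIU⟩ := hU x hx
  have h1 : ∀ j : W, ∃ n : ℕ, j ∈ I → ∀ v : ℕ → Bool, (∀ m < n, v m = x j m) → v ∈ u j := by
    intro j
    by_cases hj : j ∈ I
    · have h2 := (hu j hj).1
      rw [isOpen_pi_iff] at h2
      obtain ⟨J, w, hw, hJ⟩ := h2 (x j) (hu j hj).2
      refine ⟨J.sup id + 1, fun _ v hv => hJ fun m hm => ?_⟩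
      have h3 : m ≤ J.sup id := Finset.le_sup (f := id) hm
      have h4 : v m = x j m := hv m (by omega)
      rw [h4]
      exact (hw m hm).2
    · exact ⟨0, fun h => absurd h hj⟩
  choose n hn using h1
  refine ⟨Finsupp.onFinset I (fun j => if j ∈ I then n j else 0) (by
    intro j hj
    by_contra h
    simp [h] at hj), fun y hy => hIU fun j hj => ?_⟩
  refine hn j hj (y j) fun m hm => hy j m ?_
  have hj' : j ∈ I := hj
  simp [hj', hm]

/-- Continuity in terms of cells. -/
theorem continuous_iff_cells {H : Pt W → Pt W} :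
    Continuous H ↔ ∀ x, ∀ t : W →₀ ℕ, ∃ u : W →₀ ℕ, ∀ y, Eqv u y x → Eqv t (H y) (H x) := by
  constructor
  · intro h x t
    have h1 : IsOpen (H ⁻¹' {y | Eqv t y (H x)}) := (isClopen_cell t (H x)).isOpen.preimage h
    exact exists_cell_subset h1 (Eqv.refl t (H x))
  · intro h
    rw [continuous_iff_continuousAt]
    intro x
    rw [ContinuousAt, tendsto_nhds]
    intro U hU hx
    obtain ⟨t, ht⟩ := exists_cell_subset hU hx
    obtain ⟨u, hu⟩ := h x t
    exact Filter.mem_of_superset ((isClopen_cell u x).isOpen.mem_nhds (Eqv.refl u x))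
      fun y hy => ht _ (hu y hy)

/-- Uniform continuity. -/
theorem unif {H : Pt W → Pt W} (hH : Continuous H) (t : W →₀ ℕ) :
    ∃ u : W →₀ ℕ, ∀ x y, Eqv u x y → Eqv t (H x) (H y) := by
  classical
  choose u hu using fun x => continuous_iff_cells.1 hH x t
  obtain ⟨F, hF⟩ := isCompact_univ.elim_finite_subcover (fun x : Pt W => {y | Eqv (u x) y x})
    (fun x => (isClopen_cell (u x) x).isOpen) (fun x _ => Set.mem_iUnion.2 ⟨x, Eqv.refl _ _⟩)
  refine ⟨F.sup u, fun x y hxy => ?_⟩
  obtain ⟨z, hz, hxz⟩ := Set.mem_iUnion₂.1 (hF (Set.mem_univ x))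
  have h1 : Eqv (u z) x y := hxy.mono (Finset.le_sup (f := u) hz)
  exact (hu z x hxz).trans (hu z y (h1.symm.trans hxz)).symm

theorem ext_of_eqv {x y : Pt W} (h : ∀ s : W →₀ ℕ, Eqv s x y) : x = y := by
  classical
  funext j m
  exact h (Finsupp.single j (m + 1)) j m (by simp)

/-! ## Projection keeping maps -/

section PK

variable [LinearOrder W]

namespace PK

variable {H K : Pt W → Pt W}

theorem dep (h : PK H) {x y : Pt W} {j : W} (hxy : ∀ i ≤ j, x i = y i) : H x j = H y j :=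
  (h.keeps (Set.Iic j) (isLowerSet_Iic j) x y).1 hxy j le_rfl

theorem dep_lt (h : PK H) {x y : Pt W} {j : W} (hxy : ∀ i < j, x i = y i) :
    ∀ i < j, H x i = H y i :=
  (h.keeps (Set.Iio j) (isLowerSet_Iio j) x y).1 hxy

theorem dep_le (h : PK H) {x y : Pt W} {j : W} (hxy : ∀ i ≤ j, x i = y i) :
    ∀ i ≤ j, H x i = H y i :=
  (h.keeps (Set.Iic j) (isLowerSet_Iic j) x y).1 hxy

theorem inj_lt (h : PK H) {x y : Pt W} {j : W} (hxy : ∀ i < j, H x i = H y i) :
    ∀ i < j, x i = y i :=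
  (h.keeps (Set.Iio j) (isLowerSet_Iio j) x y).2 hxy

theorem inj_le (h : PK H) {x y : Pt W} {j : W} (hxy : ∀ i ≤ j, H x i = H y i) :
    ∀ i ≤ j, x i = y i :=
  (h.keeps (Set.Iic j) (isLowerSet_Iic j) x y).2 hxy

theorem injective (h : PK H) : Function.Injective H := by
  intro x y hxy
  funext j
  exact h.inj_le (j := j) (fun i _ => congrFun hxy i) j le_rfl

theorem isClosedEmbedding (h : PK H) : Topology.IsClosedEmbedding H :=
  h.cont.isClosedEmbedding h.injective

end PK

theorem SuppIn.mono {C C' : Set W} {H : Pt W → Pt W} (h : SuppIn C H) (hC : C ⊆ C') :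
    SuppIn C' H := by
  refine ⟨fun x j hj => h.1 x j fun hj' => hj (hC hj'), fun x y hxy j hj => ?_⟩
  by_cases hjC : j ∈ C
  · exact h.2 x y (fun i hi => hxy i (hC hi)) j hjC
  · rw [h.1 x j hjC, h.1 y j hjC]
    exact hxy j hj

theorem SuppIn.comp {C : Set W} {H K : Pt W → Pt W} (h : SuppIn C H) (k : SuppIn C K) :
    SuppIn C (H ∘ K) := by
  refine ⟨fun x j hj => ?_, fun x y hxy j hj => ?_⟩
  · show H (K x) j = x j
    rw [h.1 _ j hj, k.1 _ j hj]
  · exact h.2 _ _ (k.2 x y hxy) j hj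

theorem PK.id : PK (fun x : Pt W => x) :=
  ⟨continuous_id, fun _ _ _ _ => Iff.rfl, ∅, Set.countable_empty, fun _ _ _ => rfl,
    fun _ _ _ j hj => absurd hj (Set.notMem_empty j)⟩

theorem PK.comp {H K : Pt W → Pt W} (h : PK H) (k : PK K) : PK (H ∘ K) := by
  obtain ⟨C, hC, hC'⟩ := h.supp
  obtain ⟨D, hD, hD'⟩ := k.supp
  exact ⟨h.cont.comp k.cont, fun S hS x y => (k.keeps S hS x y).trans (h.keeps S hS _ _),
    C ∪ D, hC.union hD, (hC'.mono Set.subset_union_left).comp (hD'.mono Set.subset_union_right)⟩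

/-- Constructor: triangular maps. -/
theorem PK.mk' [WellFoundedLT W] {H : Pt W → Pt W} (hc : Continuous H)
    (h1 : ∀ x y j, (∀ i ≤ j, x i = y i) → H x j = H y j)
    (h2 : ∀ x y j, (∀ i < j, x i = y i) → H x j = H y j → x j = y j)
    (h3 : ∃ C : Set W, C.Countable ∧ SuppIn C H) : PK H := by
  refine ⟨hc, fun S hS x y => ⟨fun h j hj => h1 x y j fun i hi => h i (hS hi hj), fun h => ?_⟩, h3⟩
  intro j
  induction j using WellFoundedLT.induction with
  | ind j ih =>
    intro hj
    exact h2 x y j (fun i hi => ih i hi (hS hi.le hj)) (h j hj)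

/-- A left factor that is projection keeping can be cancelled. -/
theorem PK.of_comp {H R : Pt W → Pt W} (h : PK H) (hR : PK (H ∘ R)) : PK R := by
  obtain ⟨C, hC, hC'⟩ := h.supp
  obtain ⟨D, hD, hD'⟩ := hR.supp
  have hS : SuppIn (C ∪ D) H := hC'.mono Set.subset_union_left
  have hS' : SuppIn (C ∪ D) (H ∘ R) := hD'.mono Set.subset_union_right
  refine ⟨h.isClosedEmbedding.isEmbedding.continuous_iff.2 hR.cont,
    fun S hl x y => (hR.keeps S hl x y).trans (h.keeps S hl _ _).symm,
    C ∪ D, hC.union hD, fun x j hj => ?_, fun x y hxy j hj => ?_⟩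
  · rw [← hS.1 (R x) j hj]
    exact hS'.1 x j hj
  · classical
    -- change `R y` outside of the support
    let z : Pt W := fun i => if i ∈ C ∪ D then R x i else R y i
    have h1 : H z = H (R y) := by
      funext i
      by_cases hi : i ∈ C ∪ D
      · rw [hS.2 z (R x) (fun i hi => by simp only [z, if_pos hi]) i hi]
        exact hS'.2 x y hxy i hi
      · rw [hS.1 z i hi, hS.1 (R y) i hi]
        simp only [z, if_neg hi]
    have h2 : z = R y := h.injective h1
    have h3 := congrFun h2 j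
    simpa only [z, if_pos hj] using h3

/-- Factorisation. -/
theorem PK.factor {H H' : Pt W → Pt W} (h : PK H) (h' : PK H')
    (hr : Set.range H' ⊆ Set.range H) : ∃ R, PK R ∧ H' = H ∘ R := by
  choose R hR using fun x => hr (Set.mem_range_self x)
  have h1 : H' = H ∘ R := by funext x; exact (hR x).symm
  exact ⟨R, h.of_comp (h1 ▸ h'), h1⟩

namespace HS

variable {s t : W →₀ ℕ} {H K : Pt W → Pt W}

theorem id (s : W →₀ ℕ) : HS s (fun x : Pt W => x) := ⟨PK.id, fun x => Eqv.refl s x⟩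

theorem comp (h : HS s H) (k : HS s K) : HS s (H ∘ K) :=
  ⟨h.1.comp k.1, fun x => (h.2 (K x)).trans (k.2 x)⟩

theorem mono (hst : s ≤ t) (h : HS t H) : HS s H := ⟨h.1, fun x => (h.2 x).mono hst⟩

theorem zero (h : PK H) : HS 0 H := ⟨h, fun _ => eqv_zero _ _⟩

theorem eqv (h : HS s H) {x y : Pt W} (hxy : Eqv s x y) : Eqv s (H x) (H y) :=
  (h.2 x).trans (hxy.trans (h.2 y).symm)

end HS

namespace Dec

variable {D : (Pt W → Pt W) → Prop}

theorem comp (h : Dec D) {H K : Pt W → Pt W} (hH : PK H) (hK : PK K) (hD : D H) : D (H ∘ K) :=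
  h.down H (H ∘ K) hH (hH.comp hK) (Set.range_comp_subset_range K H) hD

end Dec

end PK

end SKS
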