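import Pool.Agent.SKS.Defs

/-!
# MP_504954_lc (project SKS): an injective function is finite-to-one, Boolean valued (helper22)
-/

set_option autoImplicit false

namespace SKS

open CofSN CpB Cardinal

theorem inj_le_finToOne {P : Type} [Preorder P] (e : Fun (RO P) ℕ ℕ) : inj e ≤ finToOne e := by
  intro p hp
  unfold finToOne
  rw [RO.mem_iInf]
  intro n
  rw [RO.mem_iSup]
  intro q hq
  by_cases h : ∃ r ≤ q, ∃ m₀, r ∈ e.v m₀ n
  · obtain ⟨r, hr, m₀, hm⟩ := h
    refine ⟨r, hr, m₀ + 1, ?_⟩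
    rw [RO.mem_iInf]
    intro m
    rw [RO.mem_iInf]
    intro hm'
    rw [RO.mem_compl]
    intro s hs hsm
    unfold inj at hp
    rw [RO.mem_iInf] at hp
    have h1 := hp m₀
    rw [RO.mem_iInf] at h1
    have h2 := h1 m
    rw [RO.mem_iInf] at h2
    have h3 := h2 (by omega)
    rw [RO.mem_iInf] at h3
    have h4 := h3 n
    rw [RO.mem_compl] at h4
    exact h4 s (hs.trans (hr.trans hq)) ⟨RO.mem_down hm hs, hsm⟩
  · refine ⟨q, le_rfl, 0, ?_⟩
    rw [RO.mem_iInf]
    intro m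
    rw [RO.mem_iInf]
    intro _
    rw [RO.mem_compl]
    intro s hs hsm
    exact h ⟨s, hs, m, hsm⟩

end SKS
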