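import Pool.Agent.SKS.Targets

/-!
# MP_504954_lc (project SKS): SKS-AMA, amalgamation (helper9)
-/

set_option autoImplicit false

namespace SKS

namespace AMA_

variable {W : Type} [LinearOrder W]

/-- The amalgamated map. -/
noncomputable def Mf (E L : Pt W → Pt W) : Pt W → Pt W :=
  open Classical in fun y j =>
    if h : ∃ x, ∀ i ≤ j, E x i = y i then E (L (Classical.choose h)) j else y j

theorem Mf_pos {E L : Pt W → Pt W} (hE : PK E) (hL : PK L) {x y : Pt W} {j : W}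
    (hx : ∀ i ≤ j, E x i = y i) : Mf E L y j = E (L x) j := by
  have h : ∃ x, ∀ i ≤ j, E x i = y i := ⟨x, hx⟩
  have h1 : Mf E L y j = E (L (Classical.choose h)) j := by
    simp only [Mf, dif_pos h]
  rw [h1]
  have h2 : ∀ i ≤ j, E (Classical.choose h) i = E x i := fun i hi =>
    (Classical.choose_spec h i hi).trans (hx i hi).symm
  exact hE.dep (hL.dep_le (hE.inj_le h2))

theorem Mf_neg {E L : Pt W → Pt W} {y : Pt W} {j : W}
    (h : ¬ ∃ x, ∀ i ≤ j, E x i = y i) : Mf E L y j = y j := by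
  simp only [Mf, dif_neg h]

/-- The decoding map. -/
def D (s t : W →₀ ℕ) (x w : Pt W) : Pt W :=
  fun j m => if m < s j then x j m else w j (t j + (m - s j))

theorem continuous_D (s t : W →₀ ℕ) (x : Pt W) : Continuous (D s t x) := by
  refine continuous_pi fun j => continuous_pi fun m => ?_
  by_cases hm : m < s j
  · simp only [D, if_pos hm]
    exact continuous_const
  · simp only [D, if_neg hm]
    fun_prop

/-- `y'` up to `j`, `E x` above. -/
def Z (E : Pt W → Pt W) (x y' : Pt W) (j : W) : Pt W :=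
  open Classical in fun i => if i ≤ j then y' i else E x i

theorem E_D (hR : T_RNG) {s t : W →₀ ℕ} {E : Pt W → Pt W} (hE : Sel s t E) {x y' : Pt W} {j : W}
    (hx : ∀ i ≤ j, ∀ m < t i, E x i m = y' i m) :
    ∀ i ≤ j, E (D s t x (Z E x y' j)) i = y' i := by
  intro i hi
  have h1 : Eqv t (Z E x y' j) (E x) := by
    intro k m hm
    by_cases hk : k ≤ j
    · simp only [Z, if_pos hk]
      exact (hx k hk m hm).symm
    · simp only [Z, if_neg hk]
  have h2 := (hR W s t E hE x (Z E x y' j) h1).2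
  have h3 : E (D s t x (Z E x y' j)) = Z E x y' j := h2
  rw [h3]
  simp only [Z, if_pos hi]

theorem sel_iff (hR : T_RNG) {s t : W →₀ ℕ} {E : Pt W → Pt W} (hE : Sel s t E) {y y' : Pt W}
    {j : W} (h : ∀ i ≤ j, ∀ m < t i, y i m = y' i m) (hy : ∃ x, ∀ i ≤ j, E x i = y i) :
    ∃ x, ∀ i ≤ j, E x i = y' i := by
  obtain ⟨x, hx⟩ := hy
  exact ⟨_, E_D hR hE (x := x) (y' := y') fun i hi m hm => by rw [hx i hi]; exact h i hi m hm⟩

theorem Mf_eqv {s t : W →₀ ℕ} {E L : Pt W → Pt W} (hE : Sel s t E) (hL : HS s L) (y : Pt W) :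
    Eqv t (Mf E L y) y := by
  intro j m hm
  by_cases h : ∃ x, ∀ i ≤ j, E x i = y i
  · obtain ⟨x, hx⟩ := h
    rw [Mf_pos hE.pk hL.1 hx, ← hx j le_rfl]
    exact hE.code _ _ (hL.2 x) j m hm
  · rw [Mf_neg h]

theorem D_Z_agree {s t : W →₀ ℕ} {E : Pt W → Pt W} {x y' : Pt W} {j : W} :
    ∀ i ≤ j, D s t x (Z E x y' j) i = D s t x y' i := by
  intro i hi
  funext m
  simp only [D, Z, if_pos hi]

theorem Mf_cont (hR : T_RNG) {s t : W →₀ ℕ} {E L : Pt W → Pt W} (hE : Sel s t E) (hL : HS s L) :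
    Continuous (Mf E L) := by
  classical
  rw [continuous_iff_cells]
  intro y r
  have key : ∀ j : W, ∃ u : W →₀ ℕ, ∀ y', Eqv u y' y → ∀ m < r j,
      Mf E L y' j m = Mf E L y j m := by
    intro j
    by_cases h : ∃ x, ∀ i ≤ j, E x i = y i
    · obtain ⟨x, hx⟩ := h
      have hF : Continuous (fun w => E (L (D s t x w))) :=
        hE.pk.cont.comp (hL.1.cont.comp (continuous_D s t x))
      obtain ⟨u, hu⟩ := continuous_iff_cells.1 hF y r
      have h1 : ∀ y', Eqv t y' y → Mf E L y' j = E (L (D s t x y')) j := by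
        intro y' hy'
        have h2 : ∀ i ≤ j, ∀ m < t i, E x i m = y' i m := fun i hi m hm => by
          rw [hx i hi]; exact (hy' i m hm).symm
        rw [Mf_pos hE.pk hL.1 (E_D hR hE h2)]
        exact (hE.pk.comp hL.1).dep D_Z_agree
      refine ⟨t + u, fun y' hy' m hm => ?_⟩
      have h3 : Eqv t y' y := hy'.mono (le_self_add)
      have h4 : Eqv u y' y := hy'.mono (le_add_self)
      rw [h1 y' h3, h1 y (Eqv.refl t y)]
      exact hu y' h4 j m hm
    · refine ⟨t + r, fun y' hy' m hm => ?_⟩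
      have h' : ¬ ∃ x, ∀ i ≤ j, E x i = y' i := fun hy2 =>
        h (sel_iff hR hE (fun i _ m hm => (hy'.mono (le_self_add)) i m hm) hy2)
      rw [Mf_neg h, Mf_neg h']
      exact (hy'.mono (le_add_self)) j m hm
  choose u hu using key
  refine ⟨r.support.sup u, fun y' hy' j m hm => ?_⟩
  have hj : j ∈ r.support := by
    rw [Finsupp.mem_support_iff]
    omega
  exact hu j y' (hy'.mono (Finset.le_sup (f := u) hj)) m hm

theorem Mf_dep {E L : Pt W → Pt W} (hE : PK E) (hL : PK L) (y y' : Pt W) (j : W)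
    (h : ∀ i ≤ j, y i = y' i) : Mf E L y j = Mf E L y' j := by
  by_cases hy : ∃ x, ∀ i ≤ j, E x i = y i
  · obtain ⟨x, hx⟩ := hy
    rw [Mf_pos hE hL hx, Mf_pos hE hL (fun i hi => (hx i hi).trans (h i hi))]
  · have hy' : ¬ ∃ x, ∀ i ≤ j, E x i = y' i := fun ⟨x, hx⟩ =>
      hy ⟨x, fun i hi => (hx i hi).trans (h i hi).symm⟩
    rw [Mf_neg hy, Mf_neg hy', h j le_rfl]

theorem Mf_inj (hR : T_RNG) {s t : W →₀ ℕ} {E L : Pt W → Pt W} (hE : Sel s t E) (hL : HS s L)
    (y y' : Pt W) (j : W) (h : ∀ i < j, y i = y' i) (hM : Mf E L y j = Mf E L y' j) :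
    y j = y' j := by
  have h0 : ∀ i ≤ j, ∀ m < t i, y i m = y' i m := by
    intro i hi m hm
    rcases hi.lt_or_eq with hi | rfl
    · rw [h i hi]
    · rw [← Mf_eqv hE hL y i m hm, ← Mf_eqv hE hL y' i m hm, hM]
  by_cases hy : ∃ x, ∀ i ≤ j, E x i = y i
  · obtain ⟨x', hx'⟩ := sel_iff hR hE h0 hy
    obtain ⟨x, hx⟩ := hy
    rw [Mf_pos hE.pk hL.1 hx, Mf_pos hE.pk hL.1 hx'] at hM
    have h1 : ∀ i < j, E x i = E x' i := fun i hi => by
      rw [hx i hi.le, hx' i hi.le, h i hi]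
    have h2 : ∀ i < j, x i = x' i := hE.pk.inj_lt h1
    have hEL : PK (E ∘ L) := hE.pk.comp hL.1
    have h3 : ∀ i < j, (E ∘ L) x i = (E ∘ L) x' i := hEL.dep_lt h2
    have h4 : ∀ i ≤ j, (E ∘ L) x i = (E ∘ L) x' i := by
      intro i hi
      rcases hi.lt_or_eq with hi | rfl
      · exact h3 i hi
      · exact hM
    have h5 : ∀ i ≤ j, x i = x' i := hEL.inj_le h4
    rw [← hx j le_rfl, ← hx' j le_rfl]
    exact hE.pk.dep h5
  · have hy' : ¬ ∃ x, ∀ i ≤ j, E x i = y' i := fun h' =>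
      hy (sel_iff hR hE (fun i hi m hm => (h0 i hi m hm).symm) h')
    rwa [Mf_neg hy, Mf_neg hy'] at hM

theorem Mf_supp (hR : T_RNG) {s t : W →₀ ℕ} {E L : Pt W → Pt W} (hE : Sel s t E) (hL : HS s L) :
    ∃ C : Set W, C.Countable ∧ SuppIn C (Mf E L) := by
  classical
  obtain ⟨C₁, hC₁, hE1⟩ := hE.pk.supp
  obtain ⟨C₂, hC₂, hL1⟩ := hL.1.supp
  have hE' : SuppIn (C₁ ∪ C₂ ∪ (t.support : Set W)) E :=
    hE1.mono (fun i hi => Or.inl (Or.inl hi))
  have hL' : SuppIn (C₁ ∪ C₂ ∪ (t.support : Set W)) L :=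
    hL1.mono (fun i hi => Or.inl (Or.inr hi))
  refine ⟨C₁ ∪ C₂ ∪ (t.support : Set W),
    (hC₁.union hC₂).union t.support.countable_toSet, fun y j hj => ?_, fun y y' hyy j hj => ?_⟩
  · by_cases h : ∃ x, ∀ i ≤ j, E x i = y i
    · obtain ⟨x, hx⟩ := h
      rw [Mf_pos hE.pk hL.1 hx, hE'.1 _ j hj, hL'.1 _ j hj, ← hx j le_rfl, hE'.1 _ j hj]
    · rw [Mf_neg h]
  · have h0 : ∀ i ≤ j, ∀ m < t i, y i m = y' i m := by
      intro i _ m hm
      have hi : i ∈ C₁ ∪ C₂ ∪ (t.support : Set W) := by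
        refine Or.inr ?_
        simp only [Finset.mem_coe, Finsupp.mem_support_iff]
        omega
      rw [hyy i hi]
    by_cases hy : ∃ x, ∀ i ≤ j, E x i = y i
    · obtain ⟨x, hx⟩ := hy
      have hx' : ∀ i ≤ j, E (D s t x (Z E x y' j)) i = y' i :=
        E_D hR hE fun i hi m hm => by rw [hx i hi]; exact h0 i hi m hm
      rw [Mf_pos hE.pk hL.1 hx, Mf_pos hE.pk hL.1 hx']
      refine (hE'.comp hL').2 _ _ (fun i hi => ?_) j hj
      funext m
      by_cases hm : m < s i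
      · simp only [D, if_pos hm]
      · have h1 : Z E x y' j i = E x i := by
          by_cases hij : i ≤ j
          · simp only [Z, if_pos hij]
            rw [hx i hij, hyy i hi]
          · simp only [Z, if_neg hij]
        simp only [D, if_neg hm, h1]
        rw [hE.tail x i (m - s i)]
        congr 1
        omega
    · have hy' : ¬ ∃ x, ∀ i ≤ j, E x i = y' i := fun h' =>
        hy (sel_iff hR hE (fun i hi m hm => (h0 i hi m hm).symm) h')
      rw [Mf_neg hy, Mf_neg hy', hyy j hj]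

end AMA_

open AMA_ in
theorem p_AMA (hR : T_RNG) : T_AMA := by
  intro W _ _ s t E L hE hL
  refine ⟨Mf E L, ⟨PK.mk' (Mf_cont hR hE hL) (Mf_dep hE.pk hL.1) (Mf_inj hR hE hL)
    (Mf_supp hR hE hL), Mf_eqv hE hL⟩, ?_⟩
  funext x j
  exact Mf_pos hE.pk hL.1 (fun i _ => rfl)

end SKS
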