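import Pool.Agent.SKS.Targets

/-!
# MP_504954_lc (project SKS): the embedding of the whole space into a cell
-/

set_option autoImplicit false

namespace SKS

open CofSN CpB Cardinal

theorem p_CEL (h_SLM : T_SLM) : T_CEL := by
  intro W _ _ t x
  have h := h_SLM W 0 t (fun _ => x) (fun _ _ _ => Eqv.refl t x) (fun _ _ _ _ _ _ => rfl)
    (fun y z j _ _ h3 => by
      funext m
      have h4 := h3 m
      simpa using h4)
  have h5 : (fun (y : Pt W) (j : W) (m : ℕ) => if m < t j then x j m else y j (m - t j)) =
      (fun (y : Pt W) (j : W) (m : ℕ) =>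
        if m < t j then (fun _ : Pt W => x) y j m else y j ((0 : W →₀ ℕ) j + (m - t j))) := by
    funext y j m
    simp
  rw [h5]
  exact h

end SKS
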