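import Pool.Agent.SKS.Targets

/-!
# MP_504954_lc (project SKS): closing off, abstract form
-/

set_option autoImplicit false

open Cardinal Ordinal

namespace SKS

namespace CLO_

/-- initial segments of the countable ordinals are countable -/
lemma countable_Iio {ξ : Ordinal.{0}} (h : ξ < ω₁) : (Set.Iio ξ).Countable := by
  rw [← Cardinal.le_aleph0_iff_set_countable, Cardinal.mk_Iio_ordinal]
  have h1 : ξ.card < ℵ₁ := Cardinal.lt_omega_iff_card_lt.1 h
  rw [← Cardinal.succ_aleph0, Order.lt_succ_iff] at h1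
  rw [← Cardinal.lift_aleph0.{1, 0}, Cardinal.lift_le]
  exact h1

lemma mk_image_omega {W : Type} (a : Ordinal.{0} → W) : #(a '' Set.Iio ω₁) ≤ ℵ₁ := by
  have h := Cardinal.mk_image_le_lift (f := a) (s := Set.Iio ω₁)
  rw [Cardinal.mk_Iio_ordinal, Ordinal.card_omega, Cardinal.lift_lift] at h
  exact Cardinal.lift_le.1 h

open Classical in
/-- a strict upper bound if there is one -/
noncomputable def bd {W : Type} [LinearOrder W] [Nonempty W] (A : Set W) : W :=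
  if h : ∃ b, ∀ a ∈ A, a < b then h.choose else Classical.arbitrary W

lemma bd_spec {W : Type} [LinearOrder W] [Nonempty W] {A : Set W} (h : ∃ b, ∀ a ∈ A, a < b) :
    ∀ a ∈ A, a < bd A := by
  unfold bd
  rw [dif_pos h]
  exact h.choose_spec

/-- the closing off sequence -/
noncomputable def seq {W : Type} [LinearOrder W] [Nonempty W] (g : W → W) (ξ : Ordinal.{0}) : W :=
  bd (Set.range (fun η : Set.Iio ξ => seq g η.1) ∪ Set.range (fun η : Set.Iio ξ => g (seq g η.1)))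
termination_by ξ
decreasing_by all_goals exact η.2

lemma seq_spec {W : Type} [LinearOrder W] [Nonempty W]
    (hW : ∀ A : Set W, #A ≤ ℵ₁ → ∃ b, ∀ a ∈ A, a < b) (g : W → W) {ξ η : Ordinal.{0}}
    (hξ : ξ < ω₁) (hη : η < ξ) : seq g η < seq g ξ ∧ g (seq g η) < seq g ξ := by
  have hc : (Set.range (fun η : Set.Iio ξ => seq g η.1) ∪
      Set.range (fun η : Set.Iio ξ => g (seq g η.1))).Countable := by
    have := (countable_Iio hξ).to_subtype
    exact (Set.countable_range _).union (Set.countable_range _)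
  have hb := hW _ ((Cardinal.le_aleph0_iff_set_countable.2 hc).trans (Cardinal.aleph0_le_aleph 1))
  have hs := bd_spec hb
  have he : seq g ξ = bd (Set.range (fun η : Set.Iio ξ => seq g η.1) ∪
      Set.range (fun η : Set.Iio ξ => g (seq g η.1))) := by rw [seq]
  rw [he]
  exact ⟨hs _ (Or.inl ⟨⟨η, hη⟩, rfl⟩), hs _ (Or.inr ⟨⟨η, hη⟩, rfl⟩)⟩

end CLO_

theorem p_CLO : T_CLO := by
  intro W _ _ _ hW g
  set a := CLO_.seq g with ha
  have hsp := fun {ξ η : Ordinal.{0}} (h1 : ξ < ω₁) (h2 : η < ξ) => CLO_.seq_spec hW g h1 h2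
  obtain ⟨b, hb⟩ := hW _ (CLO_.mk_image_omega a)
  have hne : {α : W | ∀ ξ : Ordinal.{0}, ξ < ω₁ → a ξ < α}.Nonempty :=
    ⟨b, fun ξ hξ => hb _ ⟨ξ, hξ, rfl⟩⟩
  obtain ⟨α, hα, hmin⟩ := WellFounded.has_min (wellFounded_lt (α := W)) _ hne
  refine ⟨α, fun C hC hCα => ?_⟩
  have h1 : ∀ c : C, ∃ ξ : Ordinal.{0}, ξ < ω₁ ∧ c.1 ≤ a ξ := by
    intro c
    by_contra hcon
    push Not at hcon
    exact hmin c.1 hcon (hCα c.2)
  choose f hf hf2 using h1
  have := hC.to_subtype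
  have hsup : ⨆ c, f c < ω₁ := Ordinal.iSup_lt_omega_one hf
  have hlim : ∀ o : Ordinal.{0}, o < ω₁ → Order.succ o < ω₁ := fun o ho =>
    (Cardinal.isSuccLimit_omega 1).succ_lt ho
  set ξ := Order.succ (⨆ c, f c) with hξ
  have hξ1 : ξ < ω₁ := hlim _ hsup
  refine ⟨a ξ, hα ξ hξ1, ?_, ?_⟩
  · exact (hsp (hlim _ hξ1) (Order.lt_succ ξ)).2.trans (hα _ (hlim _ hξ1))
  · intro c hc
    have h2 : f ⟨c, hc⟩ ≤ ⨆ c, f c := Ordinal.le_iSup f ⟨c, hc⟩
    have h3 : f ⟨c, hc⟩ < ξ := h2.trans_lt (Order.lt_succ _)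
    exact (hf2 ⟨c, hc⟩).trans_lt (hsp hξ1 h3).1

end SKS
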