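import Pool.Agent.SKS.Targets

/-! # SKS, target CMP: compatibility with a cell -/

set_option autoImplicit false

namespace SKS

/-- Target CMP. -/
theorem p_CMP (h_CEL : T_CEL) (h_RNG : T_RNG) (h_REF : T_REF) : T_CMP := by
  intro W _ _ G G' t hG hG' hr
  obtain ⟨R, hR, rfl⟩ := hG.factor hG' hr
  obtain ⟨A', hA', hA''⟩ := h_REF W R (fun _ _ => false) t hR
  have hE := h_CEL W t (R (fun _ _ => false))
  set E : Pt W → Pt W := fun y j m => if m < t j then R (fun _ _ => false) j m else y j (m - t j)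
    with hEdef
  have hEx : ∀ y, Eqv t (E y) (R (fun _ _ => false)) := by
    intro y j m hm
    simp only [hEdef, if_pos hm]
  have h1 : ∀ y, ∃ z, E z = R (A' y) := fun y =>
    ⟨fun j m => if m < (0 : W →₀ ℕ) j then y j m else R (A' y) j (t j + (m - (0 : W →₀ ℕ) j)),
      (h_RNG W 0 t E hE y (R (A' y)) ((hA'' y).trans (hEx y).symm)).2⟩
  choose A hA using h1
  have h2 : E ∘ A = R ∘ A' := funext hA
  have h3 : PK (E ∘ A) := by rw [h2]; exact hR.comp hA'
  refine ⟨E, A, A', hE, hE.pk.of_comp h3, hA', ?_⟩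
  rw [Function.comp_assoc, ← h2]

end SKS
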