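import Pool.Agent.SKS.Targets

/-!
# MP_504954_lc (project SKS): counting projection keeping maps (SKS-CNT)
-/

set_option autoImplicit false

namespace SKS

open CofSN CpB Cardinal

/-- the model space -/
abbrev CNT_X : Type := ℕ → ℕ → Bool

theorem CNT_card_X : #CNT_X = 𝔠 := by
  show #(ℕ → ℕ → Bool) = 𝔠
  rw [← Cardinal.power_def, ← Cardinal.power_def, Cardinal.mk_nat, Cardinal.mk_bool,
    Cardinal.two_power_aleph0, Cardinal.continuum_power_aleph0]

/-- at most continuum many continuous self maps of the model space -/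
theorem CNT_cont : #{f : CNT_X → CNT_X // Continuous f} ≤ 𝔠 := by
  obtain ⟨Q, hQc, hQd⟩ := TopologicalSpace.exists_countable_dense CNT_X
  have hinj : Function.Injective
      (fun (f : {f : CNT_X → CNT_X // Continuous f}) (q : Q) => f.1 q.1) := by
    intro f g hfg
    apply Subtype.ext
    refine Continuous.ext_on hQd f.2 g.2 ?_
    intro q hq
    exact congrFun hfg ⟨q, hq⟩
  refine (Cardinal.mk_le_of_injective hinj).trans ?_
  rw [← Cardinal.power_def, CNT_card_X]
  have hQ : #Q ≤ ℵ₀ := Cardinal.mk_le_aleph0_iff.2 hQc.to_subtype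
  calc (𝔠 : Cardinal) ^ #Q ≤ 𝔠 ^ (ℵ₀ : Cardinal) :=
        Cardinal.power_le_power_left Cardinal.continuum_ne_zero hQ
    _ = 𝔠 := Cardinal.continuum_power_aleph0

/-- the point with the coordinates `v` along `e` -/
noncomputable def CNT_pt {W : Type} (e : ℕ → W) (v : CNT_X) : Pt W :=
  open Classical in fun j => if h : ∃ n, e n = j then v (Nat.find h) else fun _ => false

theorem CNT_pt_cont {W : Type} (e : ℕ → W) : Continuous (CNT_pt e) := by
  classical
  refine continuous_pi fun j => ?_
  by_cases h : ∃ n, e n = j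
  · have h1 : (fun v : CNT_X => CNT_pt e v j) = fun v => v (Nat.find h) := by
      funext v
      simp only [CNT_pt, dif_pos h]
    rw [h1]
    exact continuous_apply _
  · have h1 : (fun v : CNT_X => CNT_pt e v j) = fun _ => fun _ => false := by
      funext v
      simp only [CNT_pt, dif_neg h]
    rw [h1]
    exact continuous_const

theorem CNT_pt_eq {W : Type} (e : ℕ → W) (x : Pt W) (j : W) (hj : j ∈ Set.range e) :
    CNT_pt e (fun n => x (e n)) j = x j := by
  classical
  have h : ∃ n, e n = j := hj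
  simp only [CNT_pt, dif_pos h]
  rw [Nat.find_spec h]

/-- the induced map on the model space -/
noncomputable def CNT_ind {W : Type} (e : ℕ → W) (H : Pt W → Pt W) : CNT_X → CNT_X :=
  fun v n => H (CNT_pt e v) (e n)

theorem CNT_ind_cont {W : Type} (e : ℕ → W) {H : Pt W → Pt W} (hH : Continuous H) :
    Continuous (CNT_ind e H) := by
  refine continuous_pi fun n => ?_
  exact (continuous_apply (e n)).comp (hH.comp (CNT_pt_cont e))

theorem CNT_det {W : Type} (e : ℕ → W) {H K : Pt W → Pt W} (hH : SuppIn (Set.range e) H)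
    (hK : SuppIn (Set.range e) K) (h : CNT_ind e H = CNT_ind e K) : H = K := by
  funext x j
  by_cases hj : j ∈ Set.range e
  · obtain ⟨n, hn⟩ := hj
    have hx : ∀ i ∈ Set.range e, x i = CNT_pt e (fun n => x (e n)) i :=
      fun i hi => (CNT_pt_eq e x i hi).symm
    have h1 := hH.2 _ _ hx j ⟨n, hn⟩
    have h2 := hK.2 _ _ hx j ⟨n, hn⟩
    have h3 := congrFun (congrFun h (fun n => x (e n))) n
    simp only [CNT_ind] at h3
    rw [hn] at h3
    rw [h1, h2, h3]
  · rw [hH.1 x j hj, hK.1 x j hj]

theorem CNT_supp {W : Type} [LinearOrder W] {α : W} {H : Pt W → Pt W} (hH : PK H)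
    (hB : Bel α H) {C : Set W} (hC : SuppIn C H) : SuppIn (C ∩ Set.Iio α) H := by
  classical
  refine ⟨fun x j hj => ?_, fun x y hxy j hj => ?_⟩
  · by_cases hjC : j ∈ C
    · refine hB x j ?_
      by_contra hlt
      exact hj ⟨hjC, not_le.1 hlt⟩
    · exact hC.1 x j hjC
  · have hjα : j < α := hj.2
    have h1 : H (glue α x y) j = H x j := by
      refine hH.dep fun i hi => ?_
      simp only [glue, if_pos (lt_of_le_of_lt hi hjα)]
    have h2 : H (glue α x y) j = H y j := by
      refine hC.2 _ _ (fun i hi => ?_) j hj.1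
      by_cases hiα : i < α
      · simp only [glue, if_pos hiα]
        exact hxy i ⟨hi, hiα⟩
      · simp only [glue, if_neg hiα]
    rw [← h1, h2]

theorem CNT_enum {W : Type} [LinearOrder W] {α : W} {H : Pt W → Pt W} (hH : PK H)
    (hB : Bel α H) : ∃ e : ℕ → Set.Iic α, SuppIn (Set.range fun n => (e n : W)) H := by
  obtain ⟨C, hCc, hC⟩ := hH.supp
  have h1 : (insert α (C ∩ Set.Iio α)).Countable :=
    (hCc.mono Set.inter_subset_left).insert α
  obtain ⟨e, he⟩ := h1.exists_eq_range ⟨α, Set.mem_insert _ _⟩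
  have he' : ∀ n, e n ∈ Set.Iic α := by
    intro n
    have : e n ∈ insert α (C ∩ Set.Iio α) := he ▸ Set.mem_range_self n
    rcases this with h | h
    · exact h.le
    · exact h.2.le
  refine ⟨fun n => ⟨e n, he' n⟩, ?_⟩
  show SuppIn (Set.range fun n => e n) H
  have h2 : (Set.range fun n => e n) = insert α (C ∩ Set.Iio α) := he.symm
  rw [h2]
  exact (CNT_supp hH hB hC).mono (Set.subset_insert _ _)

theorem p_CNT : T_CNT := by
  intro W _ _ α hα
  choose e he using fun H : {H : Pt W → Pt W // PK H ∧ Bel α H} => CNT_enum H.2.1 H.2.2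
  have hinj : Function.Injective
      (fun H : {H : Pt W → Pt W // PK H ∧ Bel α H} =>
        ((e H, ⟨CNT_ind (fun n => (e H n : W)) H.1, CNT_ind_cont _ H.2.1.cont⟩) :
          (ℕ → Set.Iic α) × {f : CNT_X → CNT_X // Continuous f})) := by
    intro H K hHK
    have h1 : e H = e K := congrArg Prod.fst hHK
    have h2 : CNT_ind (fun n => (e H n : W)) H.1 = CNT_ind (fun n => (e K n : W)) K.1 :=
      congrArg Subtype.val (congrArg Prod.snd hHK)
    apply Subtype.ext
    have hK := he K
    rw [← h1] at hK h2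
    exact CNT_det _ (he H) hK h2
  refine (Cardinal.mk_le_of_injective hinj).trans ?_
  rw [Cardinal.mk_prod, Cardinal.lift_id, Cardinal.lift_id]
  have h3 : #(Set.Iic α) ≤ 𝔠 := by
    rw [← Set.Iio_insert]
    refine (Cardinal.mk_insert_le).trans ?_
    refine (add_le_add hα le_rfl).trans ?_
    exact (Cardinal.add_one_eq Cardinal.aleph0_le_continuum).le
  have h4 : #(ℕ → Set.Iic α) ≤ 𝔠 := by
    rw [← Cardinal.power_def, Cardinal.mk_nat]
    calc #(Set.Iic α) ^ (ℵ₀ : Cardinal) ≤ 𝔠 ^ (ℵ₀ : Cardinal) :=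
          Cardinal.power_le_power_right h3
      _ = 𝔠 := Cardinal.continuum_power_aleph0
  calc #(ℕ → Set.Iic α) * #{f : CNT_X → CNT_X // Continuous f} ≤ 𝔠 * 𝔠 :=
        mul_le_mul' h4 CNT_cont
    _ = 𝔠 := Cardinal.continuum_mul_self

end SKS
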