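import Pool.Agent.SKS.Targets

/-!
# MP_504954_lc (project SKS): decisions below `α`
-/

set_option autoImplicit false

namespace SKS

open CofSN CpB Cardinal

theorem DEC_.bel_mono {W : Type} [LinearOrder W] {α β : W} {H : Pt W → Pt W} (h : Bel β H)
    (hab : β ≤ α) : Bel α H := fun x j hj => h x j (hab.trans hj)

theorem p_DEC (hCNT : T_CNT) (hCLO : T_CLO) : T_DEC := by
  intro hCH W Θ _ _ _ hbd hseg hΘ D hD
  have h1 : ∀ β : W, #{H : Pt W → Pt W // PK H ∧ Bel β H} ≤ ℵ₁ := by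
    intro β
    rw [← hCH]
    exact hCNT W β (by rw [hCH]; exact hseg β)
  have h2 : ∀ (β : W) (c : Θ) (H : {H : Pt W → Pt W // PK H ∧ Bel β H}),
      ∃ (b : W) (R : Pt W → Pt W), PK R ∧ Bel b R ∧ D c (H.1 ∘ R) := by
    intro β c H
    obtain ⟨R, hR, hD'⟩ := (hD c).dense H.1 H.2.1
    obtain ⟨C, hC, hs⟩ := hR.supp
    obtain ⟨b, hb⟩ := hbd C ((Cardinal.mk_le_aleph0_iff.2 hC).trans (aleph0_le_aleph 1))
    refine ⟨b, R, hR, fun x j hj => hs.1 x j fun hjC => ?_, hD'⟩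
    exact absurd (hb j hjC) (not_lt.2 hj)
  choose bb RR hRR using h2
  have h3 : ∀ β : W, ∃ b, ∀ (c : Θ) (H : {H : Pt W → Pt W // PK H ∧ Bel β H}),
      bb β c H < b := by
    intro β
    obtain ⟨b, hb⟩ := hbd (Set.range fun p : Θ × {H : Pt W → Pt W // PK H ∧ Bel β H} =>
      bb β p.1 p.2) (by
        refine mk_range_le.trans ?_
        rw [mk_prod, lift_id, lift_id]
        calc #Θ * #{H : Pt W → Pt W // PK H ∧ Bel β H} ≤ ℵ₁ * ℵ₁ := mul_le_mul' hΘ (h1 β)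
          _ = ℵ₁ := mul_eq_self (aleph0_le_aleph 1))
    exact ⟨b, fun c H => hb _ ⟨(c, H), rfl⟩⟩
  choose g hg using h3
  obtain ⟨α, hα⟩ := hCLO W hbd g
  refine ⟨α, fun c H hH hBel => ?_⟩
  obtain ⟨C, hC, hs⟩ := hH.supp
  obtain ⟨β, hβ, hgβ, hsub⟩ := hα (C ∩ Set.Iio α) (hC.mono Set.inter_subset_left)
    Set.inter_subset_right
  have hBβ : Bel β H := by
    intro x j hj
    by_cases hjC : j ∈ C
    · by_cases hja : j < α
      · exact absurd (hsub ⟨hjC, hja⟩ : j < β) (not_lt.2 hj)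
      · exact hBel x j (not_lt.1 hja)
    · exact hs.1 x j hjC
  obtain ⟨k1, k2, k3⟩ := hRR β c ⟨H, hH, hBβ⟩
  exact ⟨RR β c ⟨H, hH, hBβ⟩, k1, DEC_.bel_mono k2 ((hg β c ⟨H, hH, hBβ⟩).trans hgβ).le, k3⟩

end SKS
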