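import Pool.Agent.SKS.Targets

/-!
# SKS-DFU: deciding a value of a function is an abstract decision predicate
-/

set_option autoImplicit false

namespace SKS

open CofSN CpB Cardinal

theorem p_DFU : T_DFU := by
  intro W A β _ f a
  refine ⟨?_, ?_⟩
  · rintro H H' hH hH' hr ⟨hH2, b, hb⟩
    exact ⟨hH', b, RO.mem_down hb (show (⟨H', hH'⟩ : Cond W) ≤ ⟨H, hH2⟩ from hr)⟩
  · intro H hH
    obtain ⟨q, hq, b, hb⟩ := Fun.decide f a (⟨H, hH⟩ : Cond W)
    obtain ⟨R, hR, hqR⟩ := PK.factor hH q.pk hq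
    refine ⟨R, hR, hH.comp hR, b, ?_⟩
    have h1 : (⟨H ∘ R, hH.comp hR⟩ : Cond W) = q := by
      cases q with
      | mk qf qpk =>
        simp only at hqR
        subst hqR
        rfl
    rw [h1]
    exact hb

end SKS
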