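import Pool.Agent.SKS.Targets

/-!
# SKS-ENU: the enumeration under CH (helper95)
-/

set_option autoImplicit false

namespace SKS

open CofSN CpB Cardinal

open Classical in
theorem p_ENU : T_ENU := by
  intro hCH Ω _ hΩ hseg
  have h1 : #(ℕ → Ω) = ℵ₁ := by
    rw [← Cardinal.power_def, hΩ, ← hCH, Cardinal.mk_nat, Cardinal.continuum_power_aleph0]
  have h2 : #((ℕ → Ω) × Ω) = ℵ₁ := by
    rw [Cardinal.mk_prod, Cardinal.lift_id, Cardinal.lift_id, h1, hΩ]
    exact Cardinal.mul_eq_self (Cardinal.aleph0_le_aleph 1)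
  obtain ⟨g⟩ : Nonempty (Ω ≃ (ℕ → Ω) × Ω) := Cardinal.eq.1 (hΩ.trans h2.symm)
  refine ⟨fun b a => if h : (Set.range (g b).1).Infinite then
    Function.invFun (fun k : ℕ => ((h.natEmbedding _ k : Set.range (g b).1) : Ω)) a else 0, ?_⟩
  intro I hI hI'
  obtain ⟨c, hc⟩ := hI.exists_eq_range hI'.nonempty
  -- an element above `I` with first coordinate `c`
  have hA : (⋃ a ∈ I, Set.Iic a).Countable := by
    refine hI.biUnion fun a _ => ?_
    have : Set.Iic a = Set.Iio a ∪ {a} := by
      ext x
      simp [le_iff_lt_or_eq]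
    rw [this]
    exact (hseg a).union (Set.countable_singleton a)
  have hB : ∃ b : Ω, (g b).1 = c ∧ b ∉ ⋃ a ∈ I, Set.Iic a := by
    by_contra hcon
    have h3 : ∀ x : Ω, g.symm (c, x) ∈ ⋃ a ∈ I, Set.Iic a := by
      intro x
      by_contra hx
      exact hcon ⟨g.symm (c, x), by simp, hx⟩
    have h4 : Function.Injective fun x : Ω =>
        (⟨g.symm (c, x), h3 x⟩ : (⋃ a ∈ I, Set.Iic a : Set Ω)) := by
      intro x y hxy
      have h5 : g.symm (c, x) = g.symm (c, y) := congrArg Subtype.val hxy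
      have h6 := g.symm.injective h5
      exact congrArg Prod.snd h6
    have : Countable (⋃ a ∈ I, Set.Iic a : Set Ω) := hA.to_subtype
    have h7 : Countable Ω := h4.countable
    have h8 : #Ω ≤ ℵ₀ := Cardinal.mk_le_aleph0_iff.2 h7
    rw [hΩ] at h8
    exact absurd h8 (not_le.2 Cardinal.aleph0_lt_aleph_one)
  obtain ⟨b, hb, hbA⟩ := hB
  refine ⟨b, fun a ha => ?_, fun k => ?_⟩
  · by_contra hcon
    exact hbA (Set.mem_biUnion ha (not_lt.1 hcon))
  · have hinf : (Set.range (g b).1).Infinite := by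
      rw [hb, ← hc]
      exact hI'
    have hinj : Function.Injective
        (fun k : ℕ => ((hinf.natEmbedding _ k : Set.range (g b).1) : Ω)) :=
      fun x y hxy => (hinf.natEmbedding _).injective (Subtype.ext hxy)
    refine ⟨((hinf.natEmbedding _ k : Set.range (g b).1) : Ω), ?_, ?_⟩
    · have h9 := (hinf.natEmbedding _ k : Set.range (g b).1).2
      rw [hc, ← hb]
      exact h9
    · show (if h : (Set.range (g b).1).Infinite then
        Function.invFun (fun k : ℕ => ((h.natEmbedding _ k : Set.range (g b).1) : Ω)) _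
          else 0) = k
      rw [dif_pos hinf]
      exact Function.leftInverse_invFun hinj k

end SKS
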