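import Pool.Agent.SKS.Targets

/-!
# MP_504954_lc (project SKS): extension of goodness (job SKS-EXT, helper12)
-/

set_option autoImplicit false

namespace SKS

open CofSN CpB Cardinal

theorem p_EXT (hFUS : T_FUS) (hALL : T_ALL) (hPER : T_PER) (hSPL : T_SPL) (hFIN : T_FIN) :
    T_EXT := by
  classical
  intro W Ω _ _ D hD s i H hH hG
  by_contra hcon
  push Not at hcon
  set s' : W →₀ ℕ := s + Finsupp.single i 1 with hs'
  set Γ : (Pt W → Pt W) → Prop := fun A => {δ | ∃ L, HS s' L ∧ D δ (A ∘ L)}.Countable with hΓ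
  have Γc : ∀ A K, Γ A → HS s' K → Γ (A ∘ K) := by
    intro A K hA hK
    refine Set.Countable.mono ?_ hA
    rintro δ ⟨L, hL, hDL⟩
    exact ⟨K ∘ L, hK.comp hL, hDL⟩
  have hN : ∀ K, HS s K → ∃ K', HS s' K' ∧ Γ (H ∘ K ∘ K') := by
    intro K hK
    have h1 := hcon K hK
    unfold Good at h1
    push Not at h1
    obtain ⟨K', hK', h2⟩ := h1
    exact ⟨K', hK', h2⟩
  obtain ⟨N, hN0, τ, hτ0, hτm, hτi, hτ⟩ := hFUS W
    (fun k G t => s ≤ t ∧ HS s G ∧ (1 ≤ k → ∀ E, Sel s' t E → HS s E → Γ (H ∘ G ∘ E)))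
    (fun x => x) s i PK.id ⟨le_rfl, HS.id s, fun h => absurd h (by omega)⟩
    (by
      rintro k G t K - ⟨h1, h2, h3⟩ hK
      refine ⟨h1, h2.comp (hK.mono h1), fun hk E hE hE' => ?_⟩
      obtain ⟨K', hK', e⟩ := hPER W s' t E K hE hK
      have h4 : H ∘ (G ∘ K) ∘ E = (H ∘ G ∘ E) ∘ K' := by
        calc H ∘ (G ∘ K) ∘ E = H ∘ G ∘ (K ∘ E) := rfl
          _ = (H ∘ G ∘ E) ∘ K' := by rw [e]; rfl
      rw [h4]
      exact Γc _ _ (h3 hk E hE hE') hK')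
    (by
      rintro k G t j - ⟨h1, h2, h3⟩
      have ht : t ≤ t + Finsupp.single j 1 := le_self_add
      obtain ⟨K, hK, hK2⟩ := hALL W s s' (t + Finsupp.single j 1) (H ∘ G) Γ Γc
        (fun K E hK _ hE' => by
          have h4 : HS s (G ∘ K ∘ E) := h2.comp ((hK.mono (h1.trans ht)).comp hE')
          obtain ⟨K', hK', h5⟩ := hN _ h4
          exact ⟨K', hK', h5⟩)
      exact ⟨K, hK.mono ht, h1.trans ht, h2.comp (hK.mono (h1.trans ht)),
        fun _ E hE hE' => hK2 E hE hE'⟩)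
  -- the countable set of the bad predicates
  set B : Set Ω := ⋃ k : ℕ, ⋃ E ∈ {E | Sel s' (τ k) E ∧ HS s E ∧ 1 ≤ k},
    {δ | ∃ L, HS s' L ∧ D δ ((H ∘ N ∘ E) ∘ L)} with hB
  have hBc : B.Countable := by
    refine Set.countable_iUnion fun k => ?_
    refine Set.Countable.biUnion ?_ ?_
    · exact ((hFIN W s' (τ k)).subset (fun E hE => hE.1)).countable
    · intro E hE
      exact (hτ k).2.2 hE.2.2 E hE.1 hE.2.1
  have h1 : ∃ δ, (∃ L, HS s L ∧ D δ (H ∘ N ∘ L)) ∧ δ ∉ B := by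
    by_contra hc
    push Not at hc
    exact hG N hN0 (hBc.mono fun δ hδ => hc δ hδ)
  obtain ⟨δ, ⟨L, hL, hDL⟩, hδ⟩ := h1
  obtain ⟨N0, hN1⟩ := hSPL W s i L hL
  obtain ⟨k, hk⟩ := hτi (max N0 (s i + 1))
  have hsk : s ≤ τ k := by
    rw [← hτ0]
    exact hτm (Nat.zero_le k)
  have hk1 : 1 ≤ k := by
    rcases Nat.eq_zero_or_pos k with h0 | h0
    · exfalso
      rw [h0, hτ0] at hk
      have := le_max_right N0 (s i + 1)
      omega
    · exact h0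
  have hs'k : s' ≤ τ k := by
    intro j
    rw [hs', Finsupp.add_apply]
    by_cases hj : j = i
    · subst hj
      rw [Finsupp.single_eq_same]
      exact (le_max_right _ _).trans hk
    · rw [Finsupp.single_eq_of_ne hj, add_zero]
      exact hsk j
  obtain ⟨E, L', hE, hE', hL', hr⟩ := hN1 (τ k) hs'k ((le_max_left _ _).trans hk)
  refine hδ ?_
  rw [hB]
  refine Set.mem_iUnion.2 ⟨k, Set.mem_iUnion₂.2 ⟨E, ⟨hE, hE', hk1⟩, L', hL', ?_⟩⟩
  refine (hD δ).down (H ∘ N ∘ L) ((H ∘ N ∘ E) ∘ L') (hH.comp (hN0.1.comp hL.1))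
    ((hH.comp (hN0.1.comp hE'.1)).comp hL'.1) ?_ hDL
  have e1 : (H ∘ N ∘ E) ∘ L' = (H ∘ N) ∘ (E ∘ L') := rfl
  have e2 : H ∘ N ∘ L = (H ∘ N) ∘ L := rfl
  rw [e1, e2, Set.range_comp (H ∘ N) (E ∘ L'), Set.range_comp (H ∘ N) L]
  exact Set.image_mono hr

end SKS
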