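import Pool.Agent.SKS.Targets

set_option autoImplicit false

namespace SKS

open CofSN CpB Cardinal

namespace FIN_

variable {W : Type}

open Classical in
noncomputable def ext (s : W →₀ ℕ) (z : (i : s.support) → Fin (s i) → Bool) : Pt W :=
  fun i m => if h : i ∈ s.support ∧ m < s i then z ⟨i, h.1⟩ ⟨m, h.2⟩ else false

theorem eqv_ext (s : W →₀ ℕ) (x : Pt W) : Eqv s x (ext s (fun i m => x i m)) := by
  intro j m hm
  have hj : j ∈ s.support := by
    rw [Finsupp.mem_support_iff]
    omega
  simp only [ext]
  rw [dif_pos ⟨hj, hm⟩]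

end FIN_

theorem p_FIN : T_FIN := by
  classical
  intro W _ s t
  let f : {E : Pt W → Pt W // Sel s t E} →
      (((i : s.support) → Fin (s i) → Bool) → ((j : t.support) → Fin (t j) → Bool)) :=
    fun E z j m => E.1 (FIN_.ext s z) j m
  have hf : Function.Injective f := by
    rintro ⟨E, hE⟩ ⟨E', hE'⟩ h
    apply Subtype.ext
    funext x j m
    show E x j m = E' x j m
    by_cases hm : m < t j
    · have hj : j ∈ t.support := by
        rw [Finsupp.mem_support_iff]
        omega
      have h1 := hE.code _ _ (FIN_.eqv_ext s x) j m hm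
      have h2 := hE'.code _ _ (FIN_.eqv_ext s x) j m hm
      have h3 := congrFun (congrFun (congrFun h (fun i m => x i m)) ⟨j, hj⟩) ⟨m, hm⟩
      rw [h1, h2]
      exact h3
    · obtain ⟨k, rfl⟩ := Nat.exists_eq_add_of_le (not_lt.1 hm)
      rw [hE.tail, hE'.tail]
  have h1 : Finite {E : Pt W → Pt W // Sel s t E} := Finite.of_injective f hf
  have h2 : Finite ↥{E : Pt W → Pt W | Sel s t E} := h1
  exact Set.toFinite {E : Pt W → Pt W | Sel s t E}

end SKS
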