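import Pool.Agent.SKS.Targets

/-!
# MP_504954_lc (project SKS): FUS, the abstract fusion theorem
-/

set_option autoImplicit false

namespace SKS

open CofSN CpB Cardinal

namespace FUS_

/-- dependent choice -/
theorem dc {σ : Type} (P : ℕ → σ → Prop) (R : ℕ → σ → σ → Prop) (s0 : σ) (h0 : P 0 s0)
    (h : ∀ k s, P k s → ∃ s', P (k + 1) s' ∧ R k s s') :
    ∃ f : ℕ → σ, f 0 = s0 ∧ ∀ k, P k (f k) ∧ R k (f k) (f (k + 1)) := by
  choose g hg using h
  let F : (k : ℕ) → {s : σ // P k s} := fun k =>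
    Nat.rec ⟨s0, h0⟩ (fun k s => ⟨g k s.1 s.2, (hg k s.1 s.2).1⟩) k
  exact ⟨fun k => (F k).1, rfl, fun k => ⟨(F k).2, (hg k (F k).1 (F k).2).2⟩⟩

/-- the precision -/
noncomputable def prec {W : Type} (k : ℕ) (e : ℕ → ℕ → W) : W →₀ ℕ :=
  ∑ a ∈ Finset.range (k + 1), ∑ b ∈ Finset.range (k + 1), Finsupp.single (e a b) k

theorem le_prec {W : Type} {k : ℕ} {e : ℕ → ℕ → W} {a b : ℕ} (ha : a ≤ k) (hb : b ≤ k) :
    k ≤ prec k e (e a b) := by
  classical
  unfold prec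
  have h1 : (Finsupp.single (e a b) k : W →₀ ℕ) ≤
      ∑ b ∈ Finset.range (k + 1), Finsupp.single (e a b) k :=
    Finset.single_le_sum (f := fun b => (Finsupp.single (e a b) k : W →₀ ℕ))
      (fun _ _ => zero_le) (Finset.mem_range.2 (by omega))
  have h2 : (∑ b ∈ Finset.range (k + 1), Finsupp.single (e a b) k : W →₀ ℕ) ≤
      ∑ a ∈ Finset.range (k + 1), ∑ b ∈ Finset.range (k + 1), Finsupp.single (e a b) k :=
    Finset.single_le_sum
      (f := fun a => (∑ b ∈ Finset.range (k + 1), Finsupp.single (e a b) k : W →₀ ℕ))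
      (fun _ _ => zero_le) (Finset.mem_range.2 (by omega))
  have h3 := h1.trans h2 (e a b)
  rwa [Finsupp.single_eq_same] at h3

/-- enumeration of a support, each element infinitely often -/
theorem enum {W : Type} [LinearOrder W] {G : Pt W → Pt W} (hG : PK G) (i : W) :
    ∃ e : ℕ → W, (∃ b, e b = i) ∧ SuppIn (Set.range e) G ∧ ∀ b n, ∃ b', n ≤ b' ∧ e b' = e b := by
  obtain ⟨C, hC, hC'⟩ := hG.supp
  obtain ⟨f, hf⟩ := (hC.union (Set.countable_singleton i)).exists_eq_range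
    ⟨i, Or.inr rfl⟩
  have hr : Set.range (fun n => f (Nat.unpair n).1) = C ∪ {i} := by
    rw [hf]
    ext w
    constructor
    · rintro ⟨n, rfl⟩
      exact ⟨_, rfl⟩
    · rintro ⟨n, rfl⟩
      exact ⟨Nat.pair n 0, by simp⟩
  refine ⟨fun n => f (Nat.unpair n).1, ?_, ?_, fun b n => ?_⟩
  · have h1 : i ∈ Set.range (fun n => f (Nat.unpair n).1) := by
      rw [hr]
      exact Or.inr rfl
    exact h1
  · rw [hr]
    exact hC'.mono Set.subset_union_left
  · refine ⟨Nat.pair (Nat.unpair b).1 n, Nat.right_le_pair _ _, ?_⟩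
    simp

end FUS_

open FUS_ in
theorem p_FUS (h_LIM : T_LIM) (h_MOD : T_MOD) : T_FUS := by
  classical
  intro W _ _ S H t₀ i hH h0 h2 h3
  obtain ⟨e0, he0⟩ := enum hH i
  obtain ⟨f, hf0, hf⟩ := dc (σ := (Pt W → Pt W) × (W →₀ ℕ) × (ℕ → ℕ → W))
    (fun k s => PK s.1 ∧ S k s.1 s.2.1 ∧ (∃ b, s.2.2 k b = i) ∧
      SuppIn (Set.range (s.2.2 k)) s.1 ∧ ∀ b n, ∃ b', n ≤ b' ∧ s.2.2 k b' = s.2.2 k b)
    (fun k s s' => ∃ K, HS s.2.1 K ∧ s'.1 = s.1 ∘ K ∧
      s'.2.1 = s.2.1 + Finsupp.single (s.2.2 (Nat.unpair k).1 (Nat.unpair k).2) 1 ∧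
      (∀ a ≤ k, s'.2.2 a = s.2.2 a) ∧
      ∀ x y, Eqv s'.2.1 x y → Eqv (prec k s.2.2) (s'.1 x) (s'.1 y))
    (H, t₀, fun _ => e0) ⟨hH, h0, he0⟩ (by
      rintro k ⟨G, t, e⟩ ⟨hG, hS, -, -, -⟩
      simp only at hG hS
      obtain ⟨K', hK', hS'⟩ := h3 k G t (e (Nat.unpair k).1 (Nat.unpair k).2) hG hS
      obtain ⟨M, hM, hM'⟩ := h_MOD W
        (t + Finsupp.single (e (Nat.unpair k).1 (Nat.unpair k).2) 1) (prec k e) (G ∘ K')
        (hG.comp hK'.1).cont
      have hle : t ≤ t + Finsupp.single (e (Nat.unpair k).1 (Nat.unpair k).2) 1 := by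
        intro j
        rw [Finsupp.add_apply]
        exact Nat.le_add_right _ _
      have hK : HS t (K' ∘ M) := hK'.comp (hM.mono hle)
      have hG' : PK (G ∘ (K' ∘ M)) := hG.comp hK.1
      obtain ⟨e1, he1⟩ := enum hG' i
      refine ⟨(G ∘ (K' ∘ M), t + Finsupp.single (e (Nat.unpair k).1 (Nat.unpair k).2) 1,
        Function.update e (k + 1) e1), ⟨hG', ?_, ?_⟩, K' ∘ M, hK, rfl, rfl, ?_, ?_⟩
      · exact h2 (k + 1) (G ∘ K') _ M (hG.comp hK'.1) hS' hM
      · simp only [Function.update_self]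
        exact he1
      · intro a ha
        simp only
        rw [Function.update_of_ne (by omega)]
      · exact hM')
  -- the sequences
  have hP := fun k => (hf k).1
  have hR := fun k => (hf k).2
  choose K hK1 hK2 hK3 hK4 hK5 using hR
  have hstab : ∀ a k, a ≤ k → (f k).2.2 a = (f a).2.2 a := by
    intro a k hak
    induction k, hak using Nat.le_induction with
    | base => rfl
    | succ k hk ih => rw [hK4 k a hk, ih]
  set e : ℕ → ℕ → W := fun a => (f a).2.2 a with he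
  have ht1 : ∀ k, (f (k + 1)).2.1 =
      (f k).2.1 + Finsupp.single (e (Nat.unpair k).1 (Nat.unpair k).2) 1 := by
    intro k
    rw [hK3 k, hstab _ k (Nat.unpair_left_le k)]
  have hmono : Monotone fun k => (f k).2.1 := by
    refine monotone_nat_of_le_succ fun k => ?_
    rw [ht1 k]
    intro j
    rw [Finsupp.add_apply]
    exact Nat.le_add_right _ _
  set C : Set W := Set.range fun p : ℕ × ℕ => e p.1 p.2 with hC
  have hinf : ∀ j ∈ C, ∀ n, ∃ k, n ≤ (f k).2.1 j := by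
    rintro j ⟨⟨a, b⟩, rfl⟩ n
    induction n with
    | zero => exact ⟨0, Nat.zero_le _⟩
    | succ n ih =>
      obtain ⟨k, hk⟩ := ih
      obtain ⟨b', hb', hb''⟩ := (hP a).2.2.2.2 b k
      refine ⟨Nat.pair a b' + 1, ?_⟩
      rw [ht1, Finsupp.add_apply, Nat.unpair_pair]
      have h4 : e a b' = e a b := hb''
      simp only [h4, Finsupp.single_eq_same]
      have h5 : k ≤ Nat.pair a b' := hb'.trans (Nat.right_le_pair a b')
      exact Nat.succ_le_succ (hk.trans (hmono h5 _))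
  have hMOD : ∀ j ∈ C, ∀ m, ∃ k₀, ∀ k ≥ k₀, ∀ x y, Eqv (f k).2.1 x y →
      (f k).1 x j m = (f k).1 y j m := by
    rintro j ⟨⟨a, b⟩, rfl⟩ m
    refine ⟨max a b + m + 2, fun k hk x y hxy => ?_⟩
    obtain ⟨k', rfl⟩ : ∃ k', k = k' + 1 := ⟨k - 1, by omega⟩
    have ha : a ≤ k' := by
      have := le_max_left a b
      omega
    have hb : b ≤ k' := by
      have := le_max_right a b
      omega
    have h4 := hK5 k' x y hxy
    have h5 : (f k').2.2 a b = e a b := by rw [hstab a k' ha]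
    have h6 := le_prec (e := (f k').2.2) ha hb
    rw [h5] at h6
    exact h4 (e a b) m (by omega)
  obtain ⟨N, hN1, hN2⟩ := h_LIM W (fun k => (f k).1) K (fun k => (f k).2.1) C
    (Set.countable_range _) (hP 0).1 hK1 hK2 hmono
    (fun k => (hP k).2.2.2.1.mono (by
      rintro w ⟨b, rfl⟩
      exact ⟨(k, b), rfl⟩)) hinf hMOD
  have hG0 : (f 0).1 = H := by rw [hf0]
  have ht0 : (f 0).2.1 = t₀ := by rw [hf0]
  refine ⟨N 0, ht0 ▸ hN1 0, fun k => (f k).2.1, ht0, hmono, ?_, fun k => ?_⟩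
  · obtain ⟨b, hb⟩ := (hP 0).2.2.1
    exact hinf i ⟨(0, b), hb⟩
  · have h4 := h2 k (f k).1 (f k).2.1 (N k) (hP k).1 (hP k).2.1 (hN1 k)
    have h5 : (f k).1 ∘ N k = (f 0).1 ∘ N 0 := hN2 k
    rw [h5, hG0] at h4
    exact h4

end SKS
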