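import Pool.Agent.SKS.Targets

/-!
# MP_504954_lc (project SKS): SKS-GEN, the name of the generic real (helper48)
-/

set_option autoImplicit false

namespace SKS

open CofSN CpB Cardinal

theorem p_GEN (h_REF : T_REF) : T_GEN := by
  classical
  intro W A _ _ α ι
  refine ⟨Fun.mk' (fun a m => {p : Cond W | ∀ y, (p.f y α (ι a)).toNat = m}) ?_ ?_ ?_, ?_⟩
  · intro a b p q hq hp y
    obtain ⟨z, hz⟩ := hq (Set.mem_range_self y)
    rw [← hz]
    exact hp z
  · intro a b b' p hp hp'
    rw [← hp (fun _ _ => false), ← hp' (fun _ _ => false)]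
  · intro a p
    let x : Pt W := fun _ _ => false
    obtain ⟨E, hE, hx⟩ := h_REF W p.f x (Finsupp.single α (ι a + 1)) p.pk
    refine ⟨⟨p.f ∘ E, p.pk.comp hE⟩, Set.range_comp_subset_range E p.f,
      (p.f x α (ι a)).toNat, fun y => ?_⟩
    have h := hx y α (ι a) (by simp)
    show (p.f (E y) α (ι a)).toNat = (p.f x α (ι a)).toNat
    rw [h]
  · intro a c p hp
    refine RO.mem_gen.2 fun q hq => ⟨q, le_rfl, p, fun y => ?_, hq⟩
    rw [hp y]

end SKS
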