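import Pool.Agent.SKS.Targets

/-!
# MP_504954_lc (project SKS): two halves of a coordinate (T_HLF)
-/

set_option autoImplicit false

namespace SKS

open CofSN CpB Cardinal

namespace HLF_

theorem aux (hC : T_CEL) (W : Type) [LinearOrder W] [WellFoundedLT W] (H : Pt W → Pt W) (α : W)
    (hH : PK H) (k : ℕ) (a b : Pt W) (hab : ∀ i < α, a i = b i) (ha : H a α k = false)
    (hb : H b α k = true) : ∃ E₀ E₁, PK E₀ ∧ PK E₁ ∧ (∀ y, ∀ i < α, E₀ y i = E₁ y i) ∧
      (∀ y, H (E₀ y) α k = false) ∧ ∀ y, H (E₁ y) α k = true := by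
  classical
  obtain ⟨u₀, h₀⟩ := continuous_iff_cells.1 hH.cont a (Finsupp.single α (k + 1))
  obtain ⟨u₁, h₁⟩ := continuous_iff_cells.1 hH.cont b (Finsupp.single α (k + 1))
  have l₀ : u₀ ≤ u₀ + u₁ := fun j => by simp
  have l₁ : u₁ ≤ u₀ + u₁ := fun j => by simp
  have hk : k < (Finsupp.single α (k + 1) : W →₀ ℕ) α := by simp
  have e : ∀ (c y : Pt W),
      Eqv (u₀ + u₁) (fun j m => if m < (u₀ + u₁) j then c j m else y j (m - (u₀ + u₁) j)) c := by
    intro c y j m hm
    simp only [if_pos hm]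
  refine ⟨_, _, (hC W (u₀ + u₁) a).pk, (hC W (u₀ + u₁) b).pk, ?_, ?_, ?_⟩
  · intro y i hi
    funext m
    simp only [hab i hi]
  · intro y
    rw [← ha]
    exact h₀ _ ((e a y).mono l₀) α k hk
  · intro y
    rw [← hb]
    exact h₁ _ ((e b y).mono l₁) α k hk

end HLF_

theorem p_HLF (hC : T_CEL) : T_HLF := by
  intro W _ _ H α hH
  classical
  let x₀ : Pt W := fun _ _ => false
  let x₁ : Pt W := fun j _ => decide (j = α)
  have hlt : ∀ i < α, x₀ i = x₁ i := by
    intro i hi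
    funext m
    simp [x₀, x₁, hi.ne]
  have hne : H x₀ α ≠ H x₁ α := by
    intro h
    have h1 : ∀ i ≤ α, H x₀ i = H x₁ i := by
      intro i hi
      rcases hi.lt_or_eq with hi | rfl
      · exact hH.dep_lt hlt i hi
      · exact h
    have h2 := congrFun (hH.inj_le h1 α le_rfl) 0
    simp [x₀, x₁] at h2
  obtain ⟨k, hk⟩ := Function.ne_iff.1 hne
  refine ⟨k, ?_⟩
  cases h0 : H x₀ α k with
  | false =>
    cases h1 : H x₁ α k with
    | false => exact absurd (h0.trans h1.symm) hk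
    | true => exact HLF_.aux hC W H α hH k x₀ x₁ hlt h0 h1
  | true =>
    cases h1 : H x₁ α k with
    | false => exact HLF_.aux hC W H α hH k x₁ x₀ (fun i hi => (hlt i hi).symm) h1 h0
    | true => exact absurd (h0.trans h1.symm) hk

end SKS
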