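import Pool.Agent.SKS.Targets

/-!
# MP_504954_lc (project SKS): target KEY, the real `x_α` is new
-/

set_option autoImplicit false

namespace SKS

open CofSN CpB Cardinal

theorem p_KEY (h_HLF : T_HLF) (h_RST : T_RST) : T_KEY := by
  intro W Θ β _ _ f α hf p
  obtain ⟨k, E₀, E₁, hE₀, hE₁, hE, h0, h1⟩ := h_HLF W p.f α p.pk
  have hG : rst α (p.f ∘ E₀) = rst α (p.f ∘ E₁) := by
    funext x j
    show glue α (p.f (E₀ x)) x j = glue α (p.f (E₁ x)) x j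
    unfold glue
    split_ifs with hj
    · exact p.pk.dep fun i hi => hE x i (hi.trans_lt hj)
    · rfl
  have r0 := h_RST W α (p.f ∘ E₀) (p.pk.comp hE₀)
  have r1 := h_RST W α (p.f ∘ E₁) (p.pk.comp hE₁)
  refine ⟨k, fun c => ?_⟩
  obtain ⟨R, hR, hRB, hGR, b, hb⟩ := hf c (rst α (p.f ∘ E₀)) r0.1 r0.2.1
  have s0 : Set.range (p.f ∘ E₀ ∘ R) ⊆ Set.range (rst α (p.f ∘ E₀) ∘ R) := r0.2.2.2 R hR hRB
  have s1 : Set.range (p.f ∘ E₁ ∘ R) ⊆ Set.range (rst α (p.f ∘ E₀) ∘ R) := by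
    rw [hG]
    exact r1.2.2.2 R hR hRB
  have l0 : (⟨p.f ∘ E₀ ∘ R, p.pk.comp (hE₀.comp hR)⟩ : Cond W) ≤
      ⟨rst α (p.f ∘ E₀) ∘ R, hGR⟩ := s0
  have l1 : (⟨p.f ∘ E₁ ∘ R, p.pk.comp (hE₁.comp hR)⟩ : Cond W) ≤
      ⟨rst α (p.f ∘ E₀) ∘ R, hGR⟩ := s1
  refine ⟨b, ⟨p.f ∘ E₀ ∘ R, p.pk.comp (hE₀.comp hR)⟩, ?_,
    ⟨p.f ∘ E₁ ∘ R, p.pk.comp (hE₁.comp hR)⟩, ?_, RO.mem_down hb l0, RO.mem_down hb l1,
    fun y => h0 (R y), fun y => h1 (R y)⟩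
  · exact Set.range_comp_subset_range (E₀ ∘ R) p.f
  · exact Set.range_comp_subset_range (E₁ ∘ R) p.f

end SKS
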