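import Pool.Agent.SKS.Targets

/-!
# MP_504954_lc (project SKS): no weakly universal function (helper77)
-/

set_option autoImplicit false

namespace SKS

open CofSN CpB Cardinal

namespace MAIN_

variable {P : Type} [Preorder P]

/-- finitely many values can be decided -/
theorem decide_fin {β : Type} (e : Fun (RO P) ℕ β) (p : P) (M : ℕ) :
    ∃ q ≤ p, ∃ ε : ℕ → β, ∀ m < M, q ∈ e.v m (ε m) := by
  induction M with
  | zero =>
    obtain ⟨q, hq, b, hb⟩ := e.decide 0 p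
    exact ⟨q, hq, fun _ => b, fun m hm => absurd hm (Nat.not_lt_zero m)⟩
  | succ M ih =>
    obtain ⟨q, hq, ε, hε⟩ := ih
    obtain ⟨r, hr, b, hb⟩ := e.decide M q
    refine ⟨r, hr.trans hq, fun m => if m = M then b else ε m, fun m hm => ?_⟩
    by_cases h : m = M
    · simp only [h, if_true]
      exact hb
    · simp only [h, if_false]
      exact RO.mem_down (hε m (by omega)) hr

theorem mem_finToOne {e : Fun (RO P) ℕ ℕ} {p : P} (hp : p ∈ finToOne e) (n : ℕ) :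
    ∃ q ≤ p, ∃ M, ∀ m, M ≤ m → q ∈ (e.v m n)ᶜ := by
  unfold finToOne at hp
  obtain ⟨q, hq, M, hM⟩ := RO.mem_iSup.1 (RO.mem_iInf.1 hp n) p le_rfl
  exact ⟨q, hq, M, fun m hm => RO.mem_iInf.1 (RO.mem_iInf.1 hM m) hm⟩

theorem factor_val {Ω : Type} {F U : Fun (RO P) (Sym2 Ω) ℕ} {h : Fun (RO P) Ω Ω}
    {e : Fun (RO P) ℕ ℕ} {p : P} (hp : p ∈ factors F U h e) {a b c d : Ω} (hab : a ≠ b)
    (hc : p ∈ h.v a c) (hd : p ∈ h.v b d) {u n : ℕ} (hu : p ∈ U.v s(c, d) u)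
    (hn : p ∈ F.v s(a, b) n) : ∃ r ≤ p, r ∈ e.v u n := by
  unfold factors at hp
  have h1 := RO.mem_iInf.1 (RO.mem_iInf.1 (RO.mem_iInf.1 hp a) b) hab
  obtain ⟨r1, hr1, c', h2⟩ := RO.mem_iSup.1 h1 p le_rfl
  obtain ⟨r2, hr2, d', h3⟩ := RO.mem_iSup.1 h2 r1 le_rfl
  obtain ⟨r3, hr3, u', h4⟩ := RO.mem_iSup.1 h3 r2 le_rfl
  obtain ⟨r4, hr4, n', h5⟩ := RO.mem_iSup.1 h4 r3 le_rfl
  obtain ⟨⟨⟨⟨h6, h7⟩, h8⟩, h9⟩, h10⟩ := h5
  have hr : r4 ≤ p := hr4.trans (hr3.trans (hr2.trans hr1))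
  have e1 : c' = c := Fun.uniq h6 (RO.mem_down hc hr)
  have e2 : d' = d := Fun.uniq h7 (RO.mem_down hd hr)
  subst e1 e2
  have e3 : u' = u := Fun.uniq h8 (RO.mem_down hu hr)
  have e4 : n' = n := Fun.uniq h10 (RO.mem_down hn hr)
  subst e3 e4
  exact ⟨r4, hr, h9⟩

end MAIN_

open MAIN_

theorem p_MAIN (hDFU : T_DFU) (hSTAR : T_STAR) (hENU : T_ENU) (hKEY : T_KEY) (hGEN : T_GEN) :
    T_MAIN := by
  intro hCH W Ω _ _ _ hΩ hseg hW U
  have hΩc : ¬ Countable Ω := by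
    intro hc
    have h1 := Cardinal.mk_le_aleph0_iff.2 hc
    rw [hΩ] at h1
    exact absurd h1 (not_le.2 Cardinal.aleph0_lt_aleph_one)
  have hΘ : #(Sym2 Ω) ≤ ℵ₁ := by
    have h1 : #(Sym2 Ω) ≤ #(Ω × Ω) :=
      Cardinal.mk_le_of_surjective (f := fun x : Ω × Ω => s(x.1, x.2)) (by
        intro z
        induction z using Sym2.ind with
        | _ a b => exact ⟨(a, b), rfl⟩)
    rw [Cardinal.mk_prod, Cardinal.lift_id, hΩ,
      Cardinal.mul_eq_self Cardinal.aleph0_lt_aleph_one.le] at h1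
    exact h1
  obtain ⟨α, hα⟩ := hW (Sym2 Ω) hΘ (fun c => DecF U c) (fun c => hDFU W (Sym2 Ω) ℕ U c)
  obtain ⟨n, hn⟩ := hENU hCH Ω hΩ hseg
  let ι : Sym2 Ω → ℕ :=
    Sym2.lift ⟨fun a b => n (max a b) (min a b), fun a b => by
      show n (max a b) (min a b) = n (max b a) (min b a)
      rw [max_comm, min_comm]⟩
  obtain ⟨F, hF⟩ := hGEN W (Sym2 Ω) α ι
  refine ⟨F, fun h e => le_antisymm (fun p hp => ?_) bot_le⟩
  exfalso
  obtain ⟨⟨-, hfin⟩, hfac⟩ := hp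
  -- step 1
  obtain ⟨K, hK, hinf⟩ := hSTAR W Ω (fun a => DecF h a) (fun a => hDFU W Ω Ω h a) hΩc p.f p.pk
  let q₁ : Cond W := ⟨p.f ∘ K, p.pk.comp hK⟩
  have hq₁ : q₁ ≤ p := Set.range_comp_subset_range K p.f
  let I : Set Ω := Set.range fun m : ℕ => (hinf.natEmbedding _ m : Ω)
  have hIc : I.Countable := Set.countable_range _
  have hIi : I.Infinite := Set.infinite_range_of_injective
    (Subtype.val_injective.comp (hinf.natEmbedding _).injective)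
  have hId : ∀ a ∈ I, ∃ c, q₁ ∈ h.v a c := by
    rintro a ⟨m, rfl⟩
    obtain ⟨hH, c, hc⟩ := (hinf.natEmbedding _ m).2
    exact ⟨c, hc⟩
  -- step 2
  obtain ⟨b, hb, hbk⟩ := hn I hIc hIi
  obtain ⟨q₂, hq₂, η, hη⟩ := h.decide b q₁
  -- step 3
  have hq₂p : q₂ ≤ p := hq₂.trans hq₁
  obtain ⟨r₃, hr₃, M₀, hM₀⟩ := mem_finToOne (RO.mem_down hfin hq₂p) 0
  obtain ⟨q₃, hq₃, M₁, hM₁⟩ := mem_finToOne (RO.mem_down hfin (hr₃.trans hq₂p)) 1
  obtain ⟨q₄, hq₄, ε, hε⟩ := decide_fin e q₃ (max M₀ M₁)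
  have hq₄₂ : q₄ ≤ q₂ := hq₄.trans (hq₃.trans hr₃)
  -- step 4
  obtain ⟨k, hk⟩ := hKEY W (Sym2 Ω) ℕ U α hα q₄
  obtain ⟨a, haI, hak⟩ := hbk k
  obtain ⟨c, hc⟩ := hId a haI
  obtain ⟨u, s₀, hs₀, s₁, hs₁, hu₀, hu₁, hb₀, hb₁⟩ := hk s(c, η)
  have hab : a < b := hb a haI
  have hι : ι s(a, b) = k := by
    show n (max a b) (min a b) = k
    rw [max_eq_right hab.le, min_eq_left hab.le, hak]
  have hF₀ : s₀ ∈ F.v s(a, b) 0 := by
    have h1 := hF s(a, b) false s₀ (fun y => by rw [hι]; exact hb₀ y)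
    exact h1
  have hF₁ : s₁ ∈ F.v s(a, b) 1 := by
    have h1 := hF s(a, b) true s₁ (fun y => by rw [hι]; exact hb₁ y)
    exact h1
  -- step 5
  have key : ∀ (s : Cond W) (i : ℕ), s ≤ q₄ → s ∈ U.v s(c, η) u → s ∈ F.v s(a, b) i →
      (∀ m, max M₀ M₁ ≤ m → q₃ ∈ (e.v m i)ᶜ) → i = ε u := by
    intro s i hs hsU hsF hM
    have hsp : s ≤ p := hs.trans (hq₄₂.trans hq₂p)
    obtain ⟨r, hr, hre⟩ := factor_val (RO.mem_down hfac hsp) hab.ne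
      (RO.mem_down hc (hs.trans (hq₄₂.trans hq₂))) (RO.mem_down hη (hs.trans hq₄₂)) hsU hsF
    have hu : u < max M₀ M₁ := by
      by_contra hu
      exact hM u (not_lt.1 hu) r (hr.trans (hs.trans hq₄)) hre
    exact Fun.uniq hre (RO.mem_down (hε u hu) (hr.trans hs))
  have h0 := key s₀ 0 hs₀ hu₀ hF₀ fun m hm =>
    RO.mem_down (hM₀ m ((le_max_left _ _).trans hm)) hq₃
  have h1 := key s₁ 1 hs₁ hu₁ hF₁ fun m hm => hM₁ m ((le_max_right _ _).trans hm)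
  omega

end SKS
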