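import Pool.Agent.SKS.Targets

/-!
# MP_504954_lc (project SKS): modulus by padding
-/

set_option autoImplicit false

namespace SKS

open CofSN CpB Cardinal

theorem p_MOD (hPAD : T_PAD) : T_MOD := by
  intro W _ _ t r G hG
  obtain ⟨u₀, hu₀⟩ := unif hG r
  have htu : t ≤ t + u₀ := le_self_add
  refine ⟨_, hPAD W t (t + u₀) htu, fun x y hxy => ?_⟩
  apply hu₀
  intro j m hm
  have hlt : m < (t + u₀) j := by
    rw [Finsupp.add_apply]
    omega
  simp only [if_pos hlt]
  by_cases h : m < t j
  · simp only [if_pos h]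
    exact hxy j m h
  · simp only [if_neg h]

end SKS
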