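import Pool.Agent.SKS.Targets

/-!
# MP_504954_lc (project SKS): SKS-NCH, the continuum is large (helper45)
-/

set_option autoImplicit false

namespace SKS

open CofSN CpB Cardinal

theorem p_NCH (h_DFU : T_DFU) (h_KEY : T_KEY) (h_GEN : T_GEN) : T_NCH := by
  intro W _ _ hW I hI
  rw [RO.eq_top_iff']
  intro p
  unfold ltContinuum
  rw [RO.mem_iInf]
  intro x
  have hc : #(I × ℕ) ≤ ℵ₁ := by
    have h1 : (ℵ₀ : Cardinal.{0}) ≤ ℵ₁ := Cardinal.aleph0_le_aleph 1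
    rw [Cardinal.mk_prod, Cardinal.lift_id, Cardinal.lift_id]
    refine (mul_le_mul' hI ?_).trans (Cardinal.mul_eq_self h1).le
    rw [Cardinal.mk_nat]
    exact h1
  obtain ⟨α, hα⟩ := hW (I × ℕ) hc (fun c => DecF (x c.1) c.2)
    (fun c => h_DFU W ℕ ℕ (x c.1) c.2)
  obtain ⟨y, hy⟩ := h_GEN W ℕ α id
  refine RO.mem_iSup.2 fun q _ => ⟨q, le_rfl, y, ?_⟩
  rw [RO.mem_iInf]
  intro i
  rw [RO.mem_compl]
  intro r _ hcon
  rw [CpB.mem_eqv] at hcon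
  obtain ⟨k, hk⟩ := h_KEY W ℕ ℕ (x i) α (fun c H hH hB => hα (i, c) H hH hB) r
  obtain ⟨b, q₀, hq₀, q₁, hq₁, h0, h1, e0, e1⟩ := hk k
  have a0 := hcon k q₀ hq₀ b _ h0 (hy k false q₀ e0)
  have a1 := hcon k q₁ hq₁ b _ h1 (hy k true q₁ e1)
  rw [a0] at a1
  exact absurd a1 (by decide)

end SKS
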