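import Pool.Agent.SKS.Targets

/-!
# MP_504954_lc (project SKS): `ω₁` is preserved (helper3)
-/

set_option autoImplicit false

namespace SKS

open CofSN CpB Cardinal

theorem p_NOS (hOM : T_OM) (hDFU : T_DFU) (hFIN : T_FIN) (hCMP : T_CMP) : T_NOS := by
  intro W Ω _ _ hΩ
  classical
  unfold noSurj
  rw [RO.eq_top_iff']
  intro p0
  rw [RO.mem_iInf]
  intro f
  rw [RO.mem_iSup]
  intro p _
  obtain ⟨N, hN, ht⟩ := hOM W (fun m => DecF f m) (fun m => hDFU W ℕ Ω f m) p.f p.pk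
  choose t ht using ht
  -- the countable set of all values that can be forced by one of the finitely many cells
  let A : Set Ω := ⋃ m, ⋃ E ∈ {E : Pt W → Pt W | Sel 0 (t m) E},
    {b | ∃ hH : PK (p.f ∘ N ∘ E), (⟨p.f ∘ N ∘ E, hH⟩ : Cond W) ∈ f.v m b}
  have hA : A.Countable := by
    refine Set.countable_iUnion fun m => ?_
    refine (hFIN W 0 (t m)).countable.biUnion fun E _ => ?_
    refine Set.Subsingleton.countable ?_
    rintro b ⟨hH, hb⟩ b' ⟨hH', hb'⟩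
    exact Fun.uniq hb hb'
  have hy : ∃ y, y ∉ A := by
    by_contra h
    push Not at h
    exact hΩ (Set.countable_univ_iff.1 (hA.mono fun y _ => h y))
  obtain ⟨y, hy⟩ := hy
  refine ⟨⟨p.f ∘ N, p.pk.comp hN⟩, Set.range_comp_subset_range N p.f, y, ?_⟩
  rw [RO.mem_iInf]
  intro x
  rw [RO.mem_compl]
  intro r hr hrx
  obtain ⟨E, A₀, A', hE, hA₀, hA', he⟩ :=
    hCMP W (p.f ∘ N) r.f (t x) (p.pk.comp hN) r.pk hr
  obtain ⟨hH, b, hb⟩ := ht x E hE
  have h1 : (⟨r.f ∘ A', r.pk.comp hA'⟩ : Cond W) ∈ f.v x y :=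
    RO.mem_down hrx (Set.range_comp_subset_range A' r.f)
  have h2 : (⟨r.f ∘ A', r.pk.comp hA'⟩ : Cond W) ∈ f.v x b := by
    refine RO.mem_down hb ?_
    show Set.range (r.f ∘ A') ⊆ Set.range (p.f ∘ N ∘ E)
    rw [he]
    exact Set.range_comp_subset_range A₀ ((p.f ∘ N) ∘ E)
  have h3 : y = b := Fun.uniq h1 h2
  apply hy
  simp only [A, Set.mem_iUnion]
  exact ⟨x, E, hE, hH, h3 ▸ hb⟩

end SKS
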