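import Pool.Agent.SKS.Targets

/-!
# SKS-OM: finitely many cells (helper32)
-/

set_option autoImplicit false

namespace SKS

open CofSN CpB Cardinal

namespace OM_

variable {W : Type} [LinearOrder W]

/-- the property of the fusion -/
def S (D : ℕ → (Pt W → Pt W) → Prop) (k : ℕ) (G : Pt W → Pt W) (t : W →₀ ℕ) : Prop :=
  ∀ m < k, ∃ t' ≤ t, ∀ E, Sel 0 t' E → D m (G ∘ E)

theorem S_comp (hPER : T_PER) {D : ℕ → (Pt W → Pt W) → Prop} (hD : ∀ m, Dec (D m)) (k : ℕ)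
    (G : Pt W → Pt W) (t : W →₀ ℕ) (K : Pt W → Pt W) (hG : PK G) (hS : S D k G t)
    (hK : HS t K) : S D k (G ∘ K) t := by
  intro m hm
  obtain ⟨t', ht', h1⟩ := hS m hm
  refine ⟨t', ht', fun E hE => ?_⟩
  obtain ⟨K', hK', h2⟩ := hPER W 0 t' E K hE (hK.mono ht')
  have h3 : G ∘ K ∘ E = (G ∘ E) ∘ K' := by
    rw [h2]
    rfl
  show D m (G ∘ K ∘ E)
  rw [h3]
  exact (hD m).comp (hG.comp hE.pk) hK'.1 (h1 E hE)

theorem S_step (hALL : T_ALL) (hPER : T_PER) [WellFoundedLT W]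
    {D : ℕ → (Pt W → Pt W) → Prop} (hD : ∀ m, Dec (D m)) (k : ℕ)
    (G : Pt W → Pt W) (t : W →₀ ℕ) (j : W) (hG : PK G) (hS : S D k G t) :
    ∃ K, HS t K ∧ S D (k + 1) (G ∘ K) (t + Finsupp.single j 1) := by
  obtain ⟨K, hK, h1⟩ := hALL W 0 0 t G (fun A => PK A ∧ D k A)
    (fun A K hA hK => ⟨hA.1.comp hK.1, (hD k).comp hA.1 hK.1 hA.2⟩)
    (fun K E hK hE _ => by
      have h2 : PK (G ∘ K ∘ E) := hG.comp (hK.1.comp hE.pk)
      obtain ⟨L, hL, h3⟩ := (hD k).dense _ h2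
      exact ⟨L, HS.zero hL, h2.comp hL, h3⟩)
  refine ⟨K, hK, fun m hm => ?_⟩
  rcases Nat.lt_succ_iff_lt_or_eq.1 hm with hm' | hm'
  · obtain ⟨t', ht', h2⟩ := S_comp hPER hD k G t K hG hS hK m hm'
    exact ⟨t', ht'.trans le_self_add, h2⟩
  · subst hm'
    exact ⟨t, le_self_add, fun E hE => (h1 E hE (HS.zero hE.pk)).2⟩

end OM_

theorem p_OM (hFUS : T_FUS) (hALL : T_ALL) (hPER : T_PER) : T_OM := by
  intro W _ _ D hD H hH
  rcases isEmpty_or_nonempty W with hW | ⟨⟨i⟩⟩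
  · refine ⟨fun x => x, PK.id, fun m => ⟨0, fun E _ => ?_⟩⟩
    obtain ⟨K, _, hK⟩ := (hD m).dense H hH
    have h1 : H ∘ (fun x => x) ∘ E = H ∘ K := by
      funext x j
      exact (hW.false j).elim
    rw [h1]
    exact hK
  · obtain ⟨N, hN, τ, _, _, _, h1⟩ := hFUS W (OM_.S D) H 0 i hH
      (fun m hm => absurd hm (Nat.not_lt_zero m))
      (fun k G t K hG hS hK => OM_.S_comp hPER hD k G t K hG hS hK)
      (fun k G t j hG hS => OM_.S_step hALL hPER hD k G t j hG hS)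
    refine ⟨N, hN.1, fun m => ?_⟩
    obtain ⟨t', _, h2⟩ := h1 (m + 1) m (Nat.lt_succ_self m)
    exact ⟨t', fun E hE => h2 E hE⟩

end SKS
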