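import Pool.Agent.SKS.Targets

/-!
# MP_504954_lc (project SKS): target ORD
-/

set_option autoImplicit false

namespace SKS

open CofSN CpB Cardinal

theorem ORD_aleph_two : (ℵ_ 2 : Cardinal.{0}) = Order.succ ℵ₁ := by
  rw [succ_aleph]
  congr 1
  norm_num [Order.succ_eq_add_one]

theorem ORD_cof : (Ordinal.omega.{0} 2).cof = ℵ_ 2 := by
  have h : (ℵ_ 2 : Cardinal.{0}).IsRegular := by
    rw [ORD_aleph_two]
    exact isRegular_succ (aleph0_le_aleph 1)
  exact h.cof_omega_eq

theorem p_ORD : T_ORD := by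
  refine ⟨fun A hA => ?_, fun α => ?_, ?_, ?_, fun b => ?_⟩
  · by_contra hcon
    push Not at hcon
    have h1 : IsCofinal A := fun b => hcon b
    have h2 : Order.cof (Ordinal.omega.{0} 2).ToType ≤ #A := Order.cof_le h1
    rw [Ordinal.cof_toType, ORD_cof, ORD_aleph_two] at h2
    exact absurd (h2.trans hA) (not_le.2 (Order.lt_succ _))
  · have h : #(Set.Iio α) < #(Ordinal.omega.{0} 2).ToType := by
      apply mk_Iio_lt
      rw [mk_toType, Ordinal.card_omega, ord_aleph, Ordinal.type_toType]
    rw [mk_toType, Ordinal.card_omega, ORD_aleph_two] at h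
    exact Order.lt_succ_iff.1 h
  · rw [mk_toType, Ordinal.card_omega]
  · intro h
    have h1 : #(Ordinal.omega.{0} 1).ToType ≤ ℵ₀ := mk_le_aleph0
    rw [mk_toType, Ordinal.card_omega] at h1
    exact absurd h1 (not_le.2 aleph0_lt_aleph_one)
  · have h : #(Set.Iio b) < #(Ordinal.omega.{0} 1).ToType := by
      apply mk_Iio_lt
      rw [mk_toType, Ordinal.card_omega, ord_aleph, Ordinal.type_toType]
    rw [mk_toType, Ordinal.card_omega] at h
    rw [← le_aleph0_iff_set_countable]
    rwa [← Order.lt_succ_iff, succ_aleph0]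

end SKS
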