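import Pool.Agent.SKS.Targets

/-!
# MP_504954_lc (project SKS): padding (helper14)
-/

set_option autoImplicit false

namespace SKS

theorem p_PAD (h : T_SLM) : T_PAD := by
  intro W _ _ t u htu
  have hle : ∀ j, t j ≤ u j := fun j => htu j
  have hS := h W t u (fun x j m => if m < t j then x j m else false)
    (fun x y hxy j m _ => by
      show (if m < t j then x j m else false) = (if m < t j then y j m else false)
      by_cases hm : m < t j
      · rw [if_pos hm, if_pos hm, hxy j m hm]
      · rw [if_neg hm, if_neg hm])
    (fun x y j hxy m _ => by
      show (if m < t j then x j m else false) = (if m < t j then y j m else false)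
      rw [hxy j le_rfl])
    (fun x y j _ h1 h2 => by
      funext m
      by_cases hm : m < t j
      · have h3 := h1 m (hm.trans_le (hle j))
        have h4 : (if m < t j then x j m else false) = (if m < t j then y j m else false) := h3
        rwa [if_pos hm, if_pos hm] at h4
      · have h3 := h2 (m - t j)
        rwa [Nat.add_sub_cancel' (not_lt.1 hm)] at h3)
  refine ⟨hS.pk, fun x j m hm => ?_⟩
  show (if m < u j then (if m < t j then x j m else false) else x j (t j + (m - u j))) = x j m
  rw [if_pos (hm.trans_le (hle j)), if_pos hm]

end SKS
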