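import Pool.Agent.SKS.P_RNG

/-!
# SKS-PER: persistence
-/

set_option autoImplicit false

namespace SKS

theorem p_PER : T_PER := by
  intro W _ s t E N hE hN
  choose N' hN' using fun x => (⟨_, p_RNG W s t E hE x (N (E x)) (hN.2 (E x))⟩ :
    ∃ z, Eqv s z x ∧ E z = N (E x))
  have h1 : N ∘ E = E ∘ N' := by
    funext x
    exact (hN' x).2.symm
  refine ⟨N', ⟨hE.pk.of_comp (h1 ▸ hN.1.comp hE.pk), fun x => (hN' x).1⟩, h1⟩

end SKS
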