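import Pool.Agent.SKS.Targets

/-!
# MP_504954_lc (project SKS): local refinement (job SKS-REF)
-/

set_option autoImplicit false

namespace SKS

open CofSN CpB Cardinal

theorem p_REF (h : T_CEL) : T_REF := by
  intro W _ _ R x t hR
  obtain ⟨u, hu⟩ := continuous_iff_cells.1 hR.cont x t
  refine ⟨_, (h W u x).pk, fun y => hu _ fun j m hm => ?_⟩
  show (if m < u j then x j m else y j (m - u j)) = x j m
  rw [if_pos hm]

end SKS
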