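import Pool.Agent.SKS.Targets

/-!
# SKS-RNG: the range of a selector
-/

set_option autoImplicit false

namespace SKS

theorem p_RNG : T_RNG := by
  intro W _ s t E hE x y hy
  have hz : Eqv s (fun j m => if m < s j then x j m else y j (t j + (m - s j))) x := by
    intro j m hm
    show (if m < s j then x j m else y j (t j + (m - s j))) = x j m
    rw [if_pos hm]
  refine ⟨hz, ?_⟩
  have hc := hE.code _ _ hz
  funext j m
  rcases Nat.lt_or_ge m (t j) with h | h
  · exact (hc j m h).trans (hy j m h).symm
  · obtain ⟨n, rfl⟩ := Nat.exists_eq_add_of_le h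
    rw [hE.tail]
    show (if s j + n < s j then x j (s j + n) else y j (t j + (s j + n - s j))) = y j (t j + n)
    rw [if_neg (by omega), Nat.add_sub_cancel_left]

end SKS
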