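import Pool.Agent.SKS.Targets

/-! # SKS, target RST: the restriction -/

set_option autoImplicit false

namespace SKS

namespace RST_

variable {W : Type} [LinearOrder W]

theorem glue_lt {α : W} {x y : Pt W} {j : W} (h : j < α) : glue α x y j = x j := by
  simp only [glue, if_pos h]

theorem glue_ge {α : W} {x y : Pt W} {j : W} (h : α ≤ j) : glue α x y j = y j := by
  simp only [glue, if_neg (not_lt.2 h)]

theorem rst_lt {α : W} {H : Pt W → Pt W} {x : Pt W} {j : W} (h : j < α) :
    rst α H x j = H x j := glue_lt h

theorem rst_ge {α : W} {H : Pt W → Pt W} {x : Pt W} {j : W} (h : α ≤ j) :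
    rst α H x j = x j := glue_ge h

theorem rst_cont {α : W} {H : Pt W → Pt W} (hH : Continuous H) : Continuous (rst α H) := by
  refine continuous_pi fun j => ?_
  rcases lt_or_ge j α with h | h
  · have h1 : (fun x => rst α H x j) = fun x => H x j := funext fun x => rst_lt h
    rw [h1]
    exact (continuous_apply j).comp hH
  · have h1 : (fun x => rst α H x j) = fun x => x j := funext fun x => rst_ge h
    rw [h1]
    exact continuous_apply j

theorem rst_pk [WellFoundedLT W] {α : W} {H : Pt W → Pt W} (hH : PK H) : PK (rst α H) := by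
  refine PK.mk' (rst_cont hH.cont) ?_ ?_ ?_
  · intro x y j hxy
    rcases lt_or_ge j α with h | h
    · rw [rst_lt h, rst_lt h]
      exact hH.dep hxy
    · rw [rst_ge h, rst_ge h]
      exact hxy j le_rfl
  · intro x y j hxy hj
    rcases lt_or_ge j α with h | h
    · rw [rst_lt h, rst_lt h] at hj
      refine hH.inj_le (j := j) (fun i hi => ?_) j le_rfl
      rcases hi.lt_or_eq with hi | rfl
      · exact hH.dep_lt hxy i hi
      · exact hj
    · rw [rst_ge h, rst_ge h] at hj
      exact hj
  · obtain ⟨C, hC, hC'⟩ := hH.supp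
    refine ⟨C, hC, fun x j hj => ?_, fun x y hxy j hj => ?_⟩
    · rcases lt_or_ge j α with h | h
      · rw [rst_lt h]
        exact hC'.1 x j hj
      · rw [rst_ge h]
    · rcases lt_or_ge j α with h | h
      · rw [rst_lt h, rst_lt h]
        exact hC'.2 x y hxy j hj
      · rw [rst_ge h, rst_ge h]
        exact hxy j hj

end RST_

open RST_

/-- Target RST. -/
theorem p_RST : T_RST := by
  intro W _ _ α H hH
  refine ⟨rst_pk hH, fun x j hj => rst_ge hj, ?_, ?_⟩
  · rintro _ ⟨x, rfl⟩
    refine ⟨glue α x (H x), ?_⟩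
    funext j
    rcases lt_or_ge j α with h | h
    · rw [rst_lt h]
      exact hH.dep fun i hi => glue_lt (hi.trans_lt h)
    · rw [rst_ge h, glue_ge h]
  · intro R hR hRB
    rintro _ ⟨x, rfl⟩
    refine ⟨glue α x (H (R x)), ?_⟩
    have h1 : ∀ i < α, R (glue α x (H (R x))) i = R x i := fun i hi =>
      hR.dep fun k hk => glue_lt (hk.trans_lt hi)
    funext j
    rcases lt_or_ge j α with h | h
    · show rst α H (R _) j = H (R x) j
      rw [rst_lt h]
      exact hH.dep fun i hi => h1 i (hi.trans_lt h)
    · show rst α H (R _) j = H (R x) j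
      rw [rst_ge h, hRB _ j h, glue_ge h]

end SKS
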