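import Pool.Agent.SKS.Targets

/-!
# MP_504954_lc (project SKS): making selectors (helper53, job SKS-SLM)
-/

set_option autoImplicit false

namespace SKS

open CofSN CpB Cardinal

theorem p_SLM : T_SLM := by
  intro W _ _ s t φ ha hb hc
  have hcell : ∀ x y : Pt W, Eqv s x y → ∀ j, ∀ m < t j, φ x j m = φ y j m :=
    fun x y h j m hm => ha x y h j m hm
  refine ⟨PK.mk' ?_ ?_ ?_ ?_, ?_, ?_⟩
  · rw [continuous_iff_cells]
    intro x r
    refine ⟨r + s + t, fun y hy j m hm => ?_⟩
    have hys : Eqv s y x := fun i k hk => hy i k (by
      simp only [Finsupp.coe_add, Pi.add_apply]; omega)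
    show (if m < t j then φ y j m else y j (s j + (m - t j))) =
      if m < t j then φ x j m else x j (s j + (m - t j))
    by_cases h : m < t j
    · rw [if_pos h, if_pos h]
      exact hcell y x hys j m h
    · rw [if_neg h, if_neg h]
      refine hy j _ ?_
      simp only [Finsupp.coe_add, Pi.add_apply]
      omega
  · intro x y j hxy
    funext m
    show (if m < t j then φ x j m else x j (s j + (m - t j))) =
      if m < t j then φ y j m else y j (s j + (m - t j))
    by_cases h : m < t j
    · rw [if_pos h, if_pos h]
      exact hb x y j hxy m h
    · rw [if_neg h, if_neg h, hxy j le_rfl]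
  · intro x y j hxy hE
    have hE' : ∀ m, (if m < t j then φ x j m else x j (s j + (m - t j))) =
      if m < t j then φ y j m else y j (s j + (m - t j)) := fun m => congrFun hE m
    refine hc x y j hxy (fun m hm => ?_) (fun m => ?_)
    · have h := hE' m
      rwa [if_pos hm, if_pos hm] at h
    · have h := hE' (t j + m)
      have h1 : ¬ t j + m < t j := by omega
      have h2 : t j + m - t j = m := by omega
      rwa [if_neg h1, if_neg h1, h2] at h
  · refine ⟨↑(s.support ∪ t.support : Finset W), Finset.countable_toSet _, ?_, ?_⟩
    · intro x j hj
      have hj' : s j = 0 ∧ t j = 0 := by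
        simpa [Finset.mem_union, not_or] using hj
      funext m
      show (if m < t j then φ x j m else x j (s j + (m - t j))) = x j m
      rw [hj'.1, hj'.2]
      simp
    · intro x y hxy j hj
      have hs : Eqv s x y := by
        intro i m hm
        have hi : i ∈ (↑(s.support ∪ t.support : Finset W) : Set W) := by
          simp only [Finset.coe_union, Set.mem_union, Finset.mem_coe, Finsupp.mem_support_iff]
          left
          omega
        rw [hxy i hi]
      funext m
      show (if m < t j then φ x j m else x j (s j + (m - t j))) =
        if m < t j then φ y j m else y j (s j + (m - t j))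
      by_cases h : m < t j
      · rw [if_pos h, if_pos h]
        exact hcell x y hs j m h
      · rw [if_neg h, if_neg h, hxy j hj]
  · intro x y hxy j m hm
    show (if m < t j then φ x j m else x j (s j + (m - t j))) =
      if m < t j then φ y j m else y j (s j + (m - t j))
    rw [if_pos hm, if_pos hm]
    exact hcell x y hxy j m hm
  · intro x j m
    show (if t j + m < t j then φ x j (t j + m) else x j (s j + (t j + m - t j))) = x j (s j + m)
    have h1 : ¬ t j + m < t j := by omega
    have h2 : t j + m - t j = m := by omega
    rw [if_neg h1, h2]

end SKS
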