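import Pool.Agent.SKS.Targets

/-!
# MP_504954_lc (project SKS): the splitting lemma
-/

set_option autoImplicit false

namespace SKS

open CofSN CpB Cardinal

namespace SPL_

variable {W : Type}

/-- truncation -/
def tr (s : W →₀ ℕ) (x : Pt W) : Pt W := fun j m => if m < s j then x j m else false

theorem tr_eq {s : W →₀ ℕ} {x y : Pt W} (h : Eqv s x y) : tr s x = tr s y := by
  funext j m
  unfold tr
  split_ifs with hm
  · exact h j m hm
  · rfl

theorem tr_eqv (s : W →₀ ℕ) (x : Pt W) : Eqv s (tr s x) x := by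
  intro j m hm
  unfold tr
  rw [if_pos hm]

theorem tr_finite (s : W →₀ ℕ) : ∃ F : Finset (Pt W), ∀ x, ∃ x₀ ∈ F, tr s x = tr s x₀ := by
  obtain ⟨F, hF⟩ := isCompact_univ.elim_finite_subcover (fun x : Pt W => {y | Eqv s y x})
    (fun x => (isClopen_cell s x).isOpen) (fun x _ => Set.mem_iUnion.2 ⟨x, Eqv.refl _ _⟩)
  refine ⟨F, fun x => ?_⟩
  obtain ⟨z, hz, hxz⟩ := Set.mem_iUnion₂.1 (hF (Set.mem_univ x))
  exact ⟨z, hz, tr_eq hxz⟩

theorem tr_bound [LinearOrder W] {L : Pt W → Pt W} (hL : PK L) (s : W →₀ ℕ) (i : W) :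
    ∃ N : ℕ, ∀ x y : Pt W, (∀ k < i, tr s x k = tr s y k) → tr s x i ≠ tr s y i →
      ∃ m < N, L (tr s x) i m ≠ L (tr s y) i m := by
  obtain ⟨F, hF⟩ := tr_finite s
  have h1 : ∀ a b : Pt W, ∃ n : ℕ, (∀ k < i, a k = b k) → a i ≠ b i →
      ∃ m < n, L a i m ≠ L b i m := by
    intro a b
    by_cases hab : (∀ k < i, a k = b k) ∧ a i ≠ b i
    · have h2 : L a i ≠ L b i := by
        intro he
        refine hab.2 (hL.inj_le (j := i) (fun k hk => ?_) i le_rfl)
        rcases hk.lt_or_eq with hk | rfl
        · exact hL.dep_lt hab.1 k hk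
        · exact he
      obtain ⟨m, hm⟩ := Function.ne_iff.1 h2
      exact ⟨m + 1, fun _ _ => ⟨m, Nat.lt_succ_self m, hm⟩⟩
    · exact ⟨0, fun h3 h4 => absurd ⟨h3, h4⟩ hab⟩
  choose n hn using h1
  refine ⟨(F ×ˢ F).sup (fun p => n (tr s p.1) (tr s p.2)), fun x y h3 h4 => ?_⟩
  obtain ⟨x₀, hx₀, hx⟩ := hF x
  obtain ⟨y₀, hy₀, hy⟩ := hF y
  obtain ⟨m, hm, hne⟩ := hn (tr s x) (tr s y) h3 h4
  refine ⟨m, hm.trans_le ?_, hne⟩
  rw [hx, hy]
  exact Finset.le_sup (f := fun p : Pt W × Pt W => n (tr s p.1) (tr s p.2))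
    (Finset.mk_mem_product hx₀ hy₀)

end SPL_

open SPL_ in
theorem p_SPL (h_SLM : T_SLM) (h_PAD : T_PAD) (h_RNG : T_RNG) : T_SPL := by
  intro W _ _ s i L hL
  set s' : W →₀ ℕ := s + Finsupp.single i 1 with hs'
  have hss' : s ≤ s' := le_self_add
  have hsi : ∀ j, j ≠ i → s' j = s j := by
    intro j hj
    rw [hs', Finsupp.add_apply, Finsupp.single_eq_of_ne hj, add_zero]
  obtain ⟨N, hN⟩ := tr_bound hL.1 s' i
  refine ⟨N, fun t hst hNt => ?_⟩
  -- the selector
  have hSel : Sel s' t (fun x j m => if m < t j then L (tr s' x) j m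
      else x j (s' j + (m - t j))) := by
    refine h_SLM W s' t (fun x => L (tr s' x)) ?_ ?_ ?_
    · intro x y hxy
      show Eqv t (L (tr s' x)) (L (tr s' y))
      rw [tr_eq hxy]
      exact Eqv.refl _ _
    · intro x y j hxy m _
      have h1 : L (tr s' x) j = L (tr s' y) j := by
        refine hL.1.dep fun k hk => ?_
        funext m
        unfold tr
        rw [hxy k hk]
      exact congrFun h1 m
    · intro x y j hlt hφ htail
      by_cases hji : j = i
      · subst hji
        by_contra hne
        have h1 : ∀ k < j, tr s' x k = tr s' y k := by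
          intro k hk
          funext m
          unfold tr
          rw [hlt k hk]
        have h2 : tr s' x j ≠ tr s' y j := by
          intro he
          apply hne
          funext m
          by_cases hm : m < s' j
          · have h3 := congrFun he m
            unfold tr at h3
            rw [if_pos hm, if_pos hm] at h3
            exact h3
          · have h3 := htail (m - s' j)
            rw [Nat.add_sub_cancel' (not_lt.1 hm)] at h3
            exact h3
        obtain ⟨m, hm, hne'⟩ := hN x y h1 h2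
        exact hne' (hφ m (hm.trans_le hNt))
      · funext m
        by_cases hm : m < s' j
        · have hm' : m < s j := by rwa [hsi j hji] at hm
          have h3 : ∀ z : Pt W, L (tr s' z) j m = z j m := fun z =>
            (hL.2 (tr s' z) j m hm').trans (tr_eqv s' z j m hm)
          rw [← h3 x, ← h3 y]
          exact hφ m (hm.trans_le (hst j))
        · have h3 := htail (m - s' j)
          rw [Nat.add_sub_cancel' (not_lt.1 hm)] at h3
          exact h3
  set E : Pt W → Pt W := fun x j m => if m < t j then L (tr s' x) j m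
      else x j (s' j + (m - t j)) with hE
  have hEt : ∀ x, Eqv t (E x) (L (tr s' x)) := by
    intro x j m hm
    show (if m < t j then L (tr s' x) j m else x j (s' j + (m - t j))) = L (tr s' x) j m
    rw [if_pos hm]
  have hEs : HS s E := by
    refine ⟨hSel.pk, fun x j m hm => ?_⟩
    have h1 : m < t j := hm.trans_le ((hss' j).trans (hst j))
    have h2 : m < s' j := hm.trans_le (hss' j)
    exact (hEt x j m h1).trans ((hL.2 (tr s' x) j m hm).trans (tr_eqv s' x j m h2))
  -- modulus of continuity
  obtain ⟨u₀, hu₀⟩ := unif hL.1.cont t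
  set u : W →₀ ℕ := s' ⊔ u₀ with hu
  have hM := h_PAD W s' u le_sup_left
  set M : Pt W → Pt W := fun x j m => if m < u j then (if m < s' j then x j m else false)
    else x j (s' j + (m - u j)) with hMdef
  have hMz : ∀ x, Eqv u (M x) (tr s' x) := by
    intro x j m hm
    show (if m < u j then (if m < s' j then x j m else false)
      else x j (s' j + (m - u j))) = tr s' x j m
    rw [if_pos hm]
    rfl
  have hLM : ∀ x, Eqv t (L (M x)) (E x) := fun x =>
    (hu₀ _ _ ((hMz x).mono le_sup_right)).trans (hEt x).symm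
  set L' : Pt W → Pt W := fun x j m => if m < s' j then x j m
    else (L (M x)) j (t j + (m - s' j)) with hL'
  have hR : ∀ x, Eqv s' (L' x) x ∧ E (L' x) = L (M x) := fun x =>
    h_RNG W s' t E hSel x (L (M x)) (hLM x)
  have hcomp : E ∘ L' = L ∘ M := by
    funext x
    exact (hR x).2
  have hpk : PK (E ∘ L') := by
    rw [hcomp]
    exact hL.1.comp hM.1
  refine ⟨E, L', hSel, hEs, ⟨hSel.pk.of_comp hpk, fun x => (hR x).1⟩, ?_⟩
  rw [hcomp]
  exact Set.range_comp_subset_range M L

end SKS
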