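import Pool.Agent.SKS.Targets

/-!
# SKS: STAR (the decision theorem)
-/

set_option autoImplicit false

namespace SKS

namespace STAR_

variable {W Ω : Type} [LinearOrder W] {D : Ω → (Pt W → Pt W) → Prop}

theorem good_comp {s : W →₀ ℕ} {G K : Pt W → Pt W} (hG : Good D s G) (hK : HS s K) :
    Good D s (G ∘ K) := fun K' hK' => hG (K ∘ K') (hK.comp hK')

theorem good_zero (hD : ∀ δ, Dec (D δ)) (hΩ : ¬ Countable Ω) {H : Pt W → Pt W} (hH : PK H) :
    Good D 0 H := by
  intro K hK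
  have h : {δ | ∃ L, HS 0 L ∧ D δ (H ∘ K ∘ L)} = Set.univ := by
    refine Set.eq_univ_of_forall fun δ => ?_
    obtain ⟨L, hL, hL'⟩ := (hD δ).dense (H ∘ K) (hH.comp hK.1)
    exact ⟨L, HS.zero hL, hL'⟩
  rw [h, Set.countable_univ_iff]
  exact hΩ

end STAR_

open STAR_ in
theorem p_STAR (h_FUS : T_FUS) (h_EXT : T_EXT) : T_STAR := by
  classical
  intro W Ω _ _ D hD hΩ H hH
  rcases isEmpty_or_nonempty W with hW | ⟨⟨i⟩⟩
  · refine ⟨fun x => x, PK.id, ?_⟩
    have hs : Subsingleton (Pt W) := ⟨fun x y => funext fun j => (hW.false j).elim⟩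
    have h : {δ | D δ (H ∘ fun x => x)} = Set.univ := by
      refine Set.eq_univ_of_forall fun δ => ?_
      obtain ⟨K, hK, hK'⟩ := (hD δ).dense H hH
      have e : (H ∘ fun x => x) = H ∘ K := by
        funext x
        exact Subsingleton.elim _ _
      show D δ (H ∘ fun x => x)
      rw [e]
      exact hK'
    rw [h]
    intro hfin
    exact hΩ (Set.countable_univ_iff.1 hfin.countable)
  · obtain ⟨N, hN, τ, -, -, -, hS⟩ := h_FUS W
      (fun k G t => Good D t G ∧ ∃ F : Finset Ω, F.card = k ∧ ∀ δ ∈ F, D δ G) H 0 i hH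
      ⟨good_zero hD hΩ hH, ∅, rfl, fun δ hδ => absurd hδ (Finset.notMem_empty δ)⟩
      (fun k G t K hG hS hK => ⟨good_comp hS.1 hK, by
        obtain ⟨F, hF, hF'⟩ := hS.2
        exact ⟨F, hF, fun δ hδ => (hD δ).comp hG hK.1 (hF' δ hδ)⟩⟩)
      (fun k G t j hG hS => by
        obtain ⟨hg, F, hF, hF'⟩ := hS
        have h1 := hg (fun x => x) (HS.id t)
        have h2 : ¬ {δ | ∃ L, HS t L ∧ D δ (G ∘ (fun x => x) ∘ L)} ⊆ (F : Set Ω) :=
          fun hc => h1 (F.countable_toSet.mono hc)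
        obtain ⟨δ, ⟨L, hL, hL'⟩, hδ⟩ := Set.not_subset.1 h2
        have hGL : PK (G ∘ L) := hG.comp hL.1
        obtain ⟨K, hK, hK'⟩ := h_EXT W Ω D hD t j (G ∘ L) hGL (good_comp hg hL)
        refine ⟨L ∘ K, hL.comp hK, hK', insert δ F, ?_, ?_⟩
        · rw [Finset.card_insert_of_notMem (by simpa using hδ), hF]
        · intro δ' hδ'
          have h4 : D δ' (G ∘ L) := by
            rcases Finset.mem_insert.1 hδ' with rfl | h3
            · exact hL'
            · exact (hD δ').comp hG hL.1 (hF' δ' h3)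
          exact (hD δ').comp (H := G ∘ L) hGL hK.1 h4)
    refine ⟨N, hN.1, ?_⟩
    intro hfin
    obtain ⟨-, F, hF, hF'⟩ := hS (hfin.toFinset.card + 1)
    have h1 : F ⊆ hfin.toFinset := by
      intro δ hδ
      rw [Set.Finite.mem_toFinset]
      exact hF' δ hδ
    have h2 := Finset.card_le_card h1
    omega

end SKS
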