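import Pool.Agent.SKS.P_ALL
import Pool.Agent.SKS.P_AMA
import Pool.Agent.SKS.P_CEL
import Pool.Agent.SKS.P_CLO
import Pool.Agent.SKS.P_CMP
import Pool.Agent.SKS.P_CNT
import Pool.Agent.SKS.P_DEC
import Pool.Agent.SKS.P_DFU
import Pool.Agent.SKS.P_ENU
import Pool.Agent.SKS.P_EXT
import Pool.Agent.SKS.P_FIN
import Pool.Agent.SKS.P_FUS
import Pool.Agent.SKS.P_GEN
import Pool.Agent.SKS.P_HLF
import Pool.Agent.SKS.P_KEY
import Pool.Agent.SKS.P_LIM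
import Pool.Agent.SKS.P_MAIN
import Pool.Agent.SKS.P_MOD
import Pool.Agent.SKS.P_NCH
import Pool.Agent.SKS.P_NOS
import Pool.Agent.SKS.P_OM
import Pool.Agent.SKS.P_ORD
import Pool.Agent.SKS.P_PAD
import Pool.Agent.SKS.P_PER
import Pool.Agent.SKS.P_REF
import Pool.Agent.SKS.P_RNG
import Pool.Agent.SKS.P_RST
import Pool.Agent.SKS.P_SLM
import Pool.Agent.SKS.P_SPL
import Pool.Agent.SKS.P_STAR
import Pool.Agent.SKS.InjFin

/-!
# MP_504954_lc (project SKS): composition of the first list (helper22)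
-/

set_option autoImplicit false

namespace SKS

open CofSN CpB Cardinal

theorem t_SLM : T_SLM := p_SLM
theorem t_CEL : T_CEL := p_CEL t_SLM
theorem t_PAD : T_PAD := p_PAD t_SLM
theorem t_RNG : T_RNG := p_RNG
theorem t_PER : T_PER := p_PER
theorem t_AMA : T_AMA := p_AMA t_RNG
theorem t_FIN : T_FIN := p_FIN
theorem t_ALL : T_ALL := p_ALL t_FIN t_AMA t_PER
theorem t_SPL : T_SPL := p_SPL t_SLM t_PAD t_RNG
theorem t_MOD : T_MOD := p_MOD t_PAD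
theorem t_LIM : T_LIM := p_LIM
theorem t_FUS : T_FUS := p_FUS t_LIM t_MOD
theorem t_EXT : T_EXT := p_EXT t_FUS t_ALL t_PER t_SPL t_FIN
theorem t_STAR : T_STAR := p_STAR t_FUS t_EXT
theorem t_OM : T_OM := p_OM t_FUS t_ALL t_PER
theorem t_REF : T_REF := p_REF t_CEL
theorem t_CMP : T_CMP := p_CMP t_CEL t_RNG t_REF
theorem t_HLF : T_HLF := p_HLF t_CEL
theorem t_RST : T_RST := p_RST
theorem t_DEC : T_DEC := p_DEC p_CNT p_CLO
theorem t_ENU : T_ENU := p_ENU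
theorem t_DFU : T_DFU := p_DFU
theorem t_NOS : T_NOS := p_NOS t_OM t_DFU t_FIN t_CMP
theorem t_KEY : T_KEY := p_KEY t_HLF t_RST
theorem t_GEN : T_GEN := p_GEN t_REF
theorem t_NCH : T_NCH := p_NCH t_DFU t_KEY t_GEN
theorem t_MAIN : T_MAIN := p_MAIN t_DFU t_STAR t_ENU t_KEY t_GEN
theorem t_ORD : T_ORD := p_ORD

/-- the type of all ordinals below `ω₂` -/
abbrev W2 : Type := (Ordinal.omega.{0} 2).ToType

/-- the type of all countable ordinals -/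
abbrev O1 : Type := (Ordinal.omega.{0} 1).ToType

/-- `T_DEC` for `ω₂` -/
theorem dec_W2 (hCH : (𝔠 : Cardinal.{0}) = ℵ₁) (Θ : Type) (hΘ : #Θ ≤ ℵ₁)
    (D : Θ → (Pt W2 → Pt W2) → Prop) (hD : ∀ c, Dec (D c)) :
    ∃ α : W2, ∀ c H, PK H → Bel α H → ∃ R, PK R ∧ Bel α R ∧ D c (H ∘ R) := by
  obtain ⟨h1, h2, -⟩ := t_ORD
  haveI : Nonempty W2 := by
    obtain ⟨b, -⟩ := h1 ∅ (by simp)
    exact ⟨b⟩
  exact t_DEC hCH W2 Θ h1 h2 hΘ D hD

/-- `ω₁` is preserved -/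
theorem noSurj_O1 : noSurj (BA W2) ℕ O1 = ⊤ := t_NOS W2 O1 t_ORD.2.2.2.1

/-- the continuum is larger than `ω₁` -/
theorem ltContinuum_O1 (hCH : (𝔠 : Cardinal.{0}) = ℵ₁) : ltContinuum (BA W2) O1 = ⊤ :=
  t_NCH W2 (fun Θ hΘ D hD => dec_W2 hCH Θ hΘ D hD) O1 t_ORD.2.2.1.le

/-- no weakly universal function -/
theorem no_wu (hCH : (𝔠 : Cardinal.{0}) = ℵ₁) (U : Fun (BA W2) (Sym2 O1) ℕ) :
    ∃ F : Fun (BA W2) (Sym2 O1) ℕ, ∀ (h : Fun (BA W2) O1 O1) (e : Fun (BA W2) ℕ ℕ),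
      inj h ⊓ finToOne e ⊓ factors F U h e = ⊥ :=
  t_MAIN hCH W2 O1 t_ORD.2.2.1 t_ORD.2.2.2.2 (fun Θ hΘ D hD => dec_W2 hCH Θ hΘ D hD) U

theorem weaklyUniversal_eq_bot (hCH : (𝔠 : Cardinal.{0}) = ℵ₁) (U : Fun (BA W2) (Sym2 O1) ℕ) :
    weaklyUniversal finToOne U = ⊥ := by
  obtain ⟨F, hF⟩ := no_wu hCH U
  rw [eq_bot_iff]
  refine (iInf_le _ F).trans (iSup_le fun h => iSup_le fun e => ?_)
  rw [hF h e]

theorem weaklyUniversal_inj_eq_bot (hCH : (𝔠 : Cardinal.{0}) = ℵ₁)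
    (U : Fun (BA W2) (Sym2 O1) ℕ) : weaklyUniversal inj U = ⊥ := by
  rw [eq_bot_iff, ← weaklyUniversal_eq_bot hCH U]
  refine iInf_mono fun F => iSup_mono fun h => iSup_mono fun e => ?_
  exact inf_le_inf_right _ (inf_le_inf_left _ (inj_le_finToOne e))

end SKS
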