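import Pool.Agent.CpB.Names

/-!
# MP_504954_lc (project SKS): the Sacks model, definitions (helper22)

`Pt W = W → ℕ → Bool` is the space of sequences of reals indexed by the well-order `W` (later of
type `ω₂`). The countable support iteration of Sacks forcing along `W` is taken in its standard
geometric form: conditions are the ranges of the projection keeping maps `H : Pt W → Pt W` with
countable support, ordered by inclusion.
-/

set_option autoImplicit false

namespace SKS

open CofSN CpB Cardinal

/-- Sequences of reals (elements of `2^ℕ`) indexed by `W`, with the product topology. -/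
abbrev Pt (W : Type) : Type := W → ℕ → Bool

section defs

variable {W : Type}

/-- The map `H` lives on the set `C` of coordinates: it is the identity on the other coordinates,
and the part of `H x` on `C` depends only on the part of `x` on `C`. -/
def SuppIn (C : Set W) (H : Pt W → Pt W) : Prop :=
  (∀ x, ∀ j ∉ C, H x j = x j) ∧ ∀ x y, (∀ j ∈ C, x j = y j) → ∀ j ∈ C, H x j = H y j

/-- `H` is a projection keeping map with countable support: it is continuous, lives on a
countable set of coordinates, and for every initial segment `S` of `W` two sequences agree on `S`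
if and only if their images agree on `S`. -/
structure PK [LinearOrder W] (H : Pt W → Pt W) : Prop where
  cont : Continuous H
  keeps : ∀ S : Set W, IsLowerSet S → ∀ x y,
    (∀ j ∈ S, x j = y j) ↔ (∀ j ∈ S, H x j = H y j)
  supp : ∃ C : Set W, C.Countable ∧ SuppIn C H

/-- `x` and `y` are in the same `s`-cell: for every `j` the first `s j` bits of `x j` and `y j`
are the same. -/
def Eqv (s : W →₀ ℕ) (x y : Pt W) : Prop := ∀ j, ∀ m < s j, x j m = y j m

/-- `K` is a projection keeping map that maps every `s`-cell to itself. -/
def HS [LinearOrder W] (s : W →₀ ℕ) (K : Pt W → Pt W) : Prop := PK K ∧ ∀ x, Eqv s (K x) x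

/-- `E` is an `(s, t)`-selector: it chooses a `t`-cell for every `s`-cell and moves the points
into that cell, without changing the remaining bits: the first `s j` bits of `x j` are replaced
by `t j` bits (which depend only on the `s`-cell of `x`). -/
structure Sel [LinearOrder W] (s t : W →₀ ℕ) (E : Pt W → Pt W) : Prop where
  pk : PK E
  code : ∀ x y, Eqv s x y → Eqv t (E x) (E y)
  tail : ∀ x j m, E x j (t j + m) = x j (s j + m)

/-- `H` is supported below `α`. -/
def Bel [LinearOrder W] (α : W) (H : Pt W → Pt W) : Prop := ∀ x, ∀ j, α ≤ j → H x j = x j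

/-- `x` below `α`, `y` from `α` on. -/
def glue [LinearOrder W] (α : W) (x y : Pt W) : Pt W :=
  open Classical in fun j => if j < α then x j else y j

/-- The part of the condition `H` below `α`: the map `H` below `α`, the identity from `α` on. -/
def rst [LinearOrder W] (α : W) (H : Pt W → Pt W) : Pt W → Pt W := fun x => glue α (H x) x

/-- An abstract decision predicate on projection keeping maps: it is inherited by smaller ranges
and dense. -/
structure Dec [LinearOrder W] (D : (Pt W → Pt W) → Prop) : Prop where
  down : ∀ H H', PK H → PK H' → Set.range H' ⊆ Set.range H → D H → D H'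
  dense : ∀ H, PK H → ∃ K, PK K ∧ D (H ∘ K)

end defs

/-! ## The forcing notion -/

section forcing

/-- The conditions of the iteration of Sacks forcing along `W`: projection keeping maps with
countable support. The map `H` stands for its range, the set of sequences it allows. -/
structure Cond (W : Type) [LinearOrder W] where
  f : Pt W → Pt W
  pk : PK f

variable {W : Type} [LinearOrder W]

/-- A condition is stronger if its range is smaller. -/
instance : Preorder (Cond W) where
  le q p := Set.range q.f ⊆ Set.range p.f
  le_refl _ := subset_rfl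
  le_trans _ _ _ h1 h2 := h1.trans h2

/-- The complete Boolean algebra of the iteration of Sacks forcing along `W`. -/
abbrev BA (W : Type) [LinearOrder W] : Type := RO (Cond W)

/-- The Boolean value of: the function `h` is injective. -/
def inj {B : Type} [CompleteBooleanAlgebra B] {α β : Type} (h : Fun B α β) : B :=
  ⨅ a, ⨅ b, ⨅ (_ : a ≠ b), ⨅ c, (h.v a c ⊓ h.v b c)ᶜ

/-- The Boolean value of: every value is taken by the function `e` on `ℕ` only finitely often. -/
def finToOne {B : Type} [CompleteBooleanAlgebra B] (e : Fun B ℕ ℕ) : B :=
  ⨅ n, ⨆ M, ⨅ m, ⨅ (_ : M ≤ m), (e.v m n)ᶜ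

/-- The Boolean value of: `F {a, b} = e (U {h a, h b})` for all `a ≠ b`. -/
def factors {B : Type} [CompleteBooleanAlgebra B] {Ω : Type} (F U : Fun B (Sym2 Ω) ℕ)
    (h : Fun B Ω Ω) (e : Fun B ℕ ℕ) : B :=
  ⨅ a, ⨅ b, ⨅ (_ : a ≠ b), ⨆ c, ⨆ d, ⨆ u, ⨆ n,
    h.v a c ⊓ h.v b d ⊓ U.v s(c, d) u ⊓ e.v u n ⊓ F.v s(a, b) n

/-- The Boolean value of: for every function `F` on pairs of elements of `Ω` there are an injective
`h` and a function `e` on `ℕ` with the property `small` such that `F {a, b} = e (U {h a, h b})` for
all `a ≠ b`. For `small = finToOne` it is the Boolean value of: `U` is `(1, ω)`-weakly universal,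
and for `small = inj` of: `U` is `(1, 2)`-weakly universal (`Ω` is the set of all countable
ordinals). -/
def weaklyUniversal {B : Type} [CompleteBooleanAlgebra B] {Ω : Type} (small : Fun B ℕ ℕ → B)
    (U : Fun B (Sym2 Ω) ℕ) : B :=
  ⨅ F : Fun B (Sym2 Ω) ℕ, ⨆ h : Fun B Ω Ω, ⨆ e : Fun B ℕ ℕ, inj h ⊓ small e ⊓ factors F U h e

end forcing

end SKS
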