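import Pool.Agent.SKS.Base

/-!
# MP_504954_lc (project SKS): the iteration structure of the conditions, definitions (helper22)

For an initial segment `S` of `W` let `Q_S` be the set of the conditions supported in `S`. The
statement `IsSacksIteration` says that `Q_S` (`S` an initial segment of `W`) is a countable support
iteration of Sacks forcing: `Q_∅` is trivial, `Q_(≤β)` is `Q_(<β)` followed by the Sacks forcing of
the extension, at limits of countable cofinality `Q_S` is the full inverse limit, at limits of
uncountable cofinality the union. (Each of these is meant up to dense embeddings.)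
-/

set_option autoImplicit false

namespace SKS

open CofSN CpB Cardinal

section defs

variable {W : Type}

/-- `H` is the identity outside of the set `S` of coordinates. -/
def In (S : Set W) (H : Pt W → Pt W) : Prop := ∀ x, ∀ j ∉ S, H x j = x j

/-- The restriction of `H` to `S`: the map `H` on `S`, the identity outside. -/
noncomputable def rstS (S : Set W) (H : Pt W → Pt W) : Pt W → Pt W := fun x =>
  open Classical in fun j => if j ∈ S then H x j else x j

theorem rstS_in {S : Set W} {H : Pt W → Pt W} {x : Pt W} {j : W} (h : j ∈ S) :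
    rstS S H x j = H x j := by simp [rstS, h]

theorem rstS_out {S : Set W} {H : Pt W → Pt W} {x : Pt W} {j : W} (h : j ∉ S) :
    rstS S H x j = x j := by simp [rstS, h]

theorem rstS_In (S : Set W) (H : Pt W → Pt W) : In S (rstS S H) := fun _ _ h => rstS_out h

theorem rstS_of_In {S : Set W} {H : Pt W → Pt W} (h : In S H) : rstS S H = H := by
  funext x j
  by_cases hj : j ∈ S
  · exact rstS_in hj
  · rw [rstS_out hj, h x j hj]

theorem rstS_comp_of_In {S : Set W} {H K : Pt W → Pt W} (h : In S H) (k : In S K) :
    In S (H ∘ K) := fun x j hj => (h (K x) j hj).trans (k x j hj)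

variable [LinearOrder W]

/-- Restrictions commute with compositions. -/
theorem rstS_comp {S : Set W} (hS : IsLowerSet S) {H : Pt W → Pt W} (hH : PK H)
    (K : Pt W → Pt W) : rstS S (H ∘ K) = rstS S H ∘ rstS S K := by
  funext x j
  by_cases hj : j ∈ S
  · rw [rstS_in hj, Function.comp, Function.comp, rstS_in hj]
    exact hH.dep fun i hi => (rstS_in (hS hi hj)).symm
  · rw [rstS_out hj, Function.comp, rstS_out hj, rstS_out hj]

/-- The restriction of a projection keeping map to an initial segment is projection keeping. -/
theorem rstS_pk [WellFoundedLT W] {S : Set W} (hS : IsLowerSet S) {H : Pt W → Pt W} (h : PK H) :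
    PK (rstS S H) := by
  refine PK.mk' ?_ ?_ ?_ ?_
  · refine continuous_pi fun j => ?_
    by_cases hj : j ∈ S
    · have : (fun x => rstS S H x j) = fun x => H x j := by funext x; exact rstS_in hj
      rw [this]
      exact (continuous_apply j).comp h.cont
    · have : (fun x => rstS S H x j) = fun x => x j := by funext x; exact rstS_out hj
      rw [this]
      exact continuous_apply j
  · intro x y j hxy
    by_cases hj : j ∈ S
    · rw [rstS_in hj, rstS_in hj]
      exact h.dep hxy
    · rw [rstS_out hj, rstS_out hj]
      exact hxy j le_rfl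
  · intro x y j hxy hj
    by_cases hjS : j ∈ S
    · rw [rstS_in hjS, rstS_in hjS] at hj
      refine h.inj_le (j := j) (fun i hi => ?_) j le_rfl
      rcases hi.lt_or_eq with hi | hi
      · exact h.dep_lt hxy i hi
      · rw [hi]; exact hj
    · rwa [rstS_out hjS, rstS_out hjS] at hj
  · obtain ⟨C, hC, hC'⟩ := h.supp
    refine ⟨C, hC, fun x j hj => ?_, fun x y hxy j hj => ?_⟩
    · by_cases hjS : j ∈ S
      · rw [rstS_in hjS]; exact hC'.1 x j hj
      · exact rstS_out hjS
    · by_cases hjS : j ∈ S
      · rw [rstS_in hjS, rstS_in hjS]; exact hC'.2 x y hxy j hj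
      · rw [rstS_out hjS, rstS_out hjS]; exact hxy j hj

/-- `range H` is contained in the range of the restriction. -/
theorem rstS_range {S : Set W} (hS : IsLowerSet S) {H : Pt W → Pt W} (h : PK H) :
    Set.range H ⊆ Set.range (rstS S H) := by
  rintro _ ⟨x, rfl⟩
  refine ⟨open Classical in fun j => if j ∈ S then x j else H x j, ?_⟩
  funext j
  by_cases hj : j ∈ S
  · rw [rstS_in hj]
    exact h.dep fun i hi => by simp [hS hi hj]
  · rw [rstS_out hj]
    simp [hj]

/-- Restriction is monotone. -/
theorem rstS_mono {S : Set W} (hS : IsLowerSet S) {H H' : Pt W → Pt W} (h : PK H) (h' : PK H')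
    (hr : Set.range H' ⊆ Set.range H) : Set.range (rstS S H') ⊆ Set.range (rstS S H) := by
  obtain ⟨R, _, rfl⟩ := h.factor h' hr
  rw [rstS_comp hS h]
  exact Set.range_comp_subset_range _ _

/-- The conditions supported in `S`. -/
abbrev CondI (S : Set W) : Type := {p : Cond W // In S p.f}

/-- The restriction of a condition to the initial segment `S`. -/
noncomputable def rs [WellFoundedLT W] (S : Set W) (hS : IsLowerSet S) (p : Cond W) : CondI S :=
  ⟨⟨rstS S p.f, rstS_pk hS p.pk⟩, rstS_In S p.f⟩

end defs

/-! ## Names of perfect trees -/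

section trees

/-- The Boolean value of: the set `T` of finite binary sequences is a perfect tree: it contains
the empty sequence, is closed under initial segments, and every element has two incompatible
extensions in `T`, that is, an extension both of whose successors are in `T`. -/
def perfect {B : Type} [CompleteBooleanAlgebra B] (T : List Bool → B) : B :=
  T [] ⊓ (⨅ σ, ⨅ b, (T (σ ++ [b]) ⇨ T σ)) ⊓
    ⨅ σ, (T σ ⇨ ⨆ τ, T (σ ++ τ ++ [false]) ⊓ T (σ ++ τ ++ [true]))

/-- The Boolean value of: the set `T` is contained in the set `T'`. -/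
def subTree {B : Type} [CompleteBooleanAlgebra B] (T T' : List Bool → B) : B :=
  ⨅ σ, (T σ ⇨ T' σ)

/-- The real `v` extends the finite sequence `σ`. -/
def Ini (σ : List Bool) (v : ℕ → Bool) : Prop := ∀ m (h : m < σ.length), v m = σ[m]

/-- The name of the `β`-th tree of the condition `H`, a `Q_(<β)`-name of a set of finite binary
sequences: it contains `σ` if the generic sequence below `β` is the part below `β` of a sequence in
the range of `H` whose coordinate `β` extends `σ`. -/
def sec {W : Type} [LinearOrder W] (β : W) (H : Pt W → Pt W) (σ : List Bool) :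
    RO (CondI (Set.Iio β)) :=
  RO.gen {G | ∀ y, ∃ x, (∀ i < β, G.1.f y i = H x i) ∧ Ini σ (H x β)}

end trees

/-! ## The iteration -/

/-- The conditions, with the sets `Q_S` of the conditions supported in `S`, `S` an initial segment
of `W`, form a countable support iteration of Sacks forcing (the set of perfect trees, ordered by
inclusion) along `W`. -/
structure IsSacksIteration (W : Type) [LinearOrder W] [WellFoundedLT W] : Prop where
  /-- A condition is below its restriction, and restriction is monotone. -/
  le_rs : ∀ (S : Set W) (hS : IsLowerSet S) (p : Cond W), p ≤ (rs S hS p).1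
  rs_mono : ∀ (S : Set W) (hS : IsLowerSet S) (p q : Cond W), q ≤ p → rs S hS q ≤ rs S hS p
  /-- `Q_S` is a complete suborder: an extension `q ∈ Q_S` of the restriction of `p` to `S` can be
  amalgamated with `p`: there is `r ≤ p` whose restriction to `S` is `q`. -/
  amalg : ∀ (S : Set W) (hS : IsLowerSet S) (p : Cond W) (q : CondI S), q ≤ rs S hS p →
    ∃ r ≤ p, rs S hS r = q
  /-- `Q_∅` is trivial. -/
  zero : ∀ p q : CondI (∅ : Set W), p ≤ q
  /-- Successor step, 1: the restriction of `p` to `< β` forces that the `β`-th tree of `p` is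
  perfect. -/
  succ_perfect : ∀ (β : W) (p : CondI (Set.Iic β)),
    rs (Set.Iio β) (isLowerSet_Iio β) p.1 ∈ perfect (sec β p.1.f)
  /-- Successor step, 2: the order of `Q_(≤β)` is that of the two step iteration. -/
  succ_le : ∀ (β : W) (p q : CondI (Set.Iic β)), q ≤ p ↔
    rs (Set.Iio β) (isLowerSet_Iio β) q.1 ≤ rs (Set.Iio β) (isLowerSet_Iio β) p.1 ∧
    rs (Set.Iio β) (isLowerSet_Iio β) q.1 ∈ subTree (sec β q.1.f) (sec β p.1.f)
  /-- Successor step, 3: `Q_(≤β)` is dense in the two step iteration: if `p ∈ Q_(<β)` forces that
  `T` is a perfect tree then there is `q ∈ Q_(≤β)` whose restriction to `< β` is below `p` and forces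
  that the `β`-th tree of `q` is contained in `T`. -/
  succ_dense : ∀ (β : W) (p : CondI (Set.Iio β)) (T : List Bool → RO (CondI (Set.Iio β))),
    p ∈ perfect T → ∃ q : CondI (Set.Iic β), rs (Set.Iio β) (isLowerSet_Iio β) q.1 ≤ p ∧
      rs (Set.Iio β) (isLowerSet_Iio β) q.1 ∈ subTree (sec β q.1.f) T
  /-- Limit step, countable cofinality: let `S` be the union of the initial segments `S n` and let
  `b n` be an element of the Boolean algebra of `Q_(S n)` such that `b n` is below the projection of
  `b (n + 1)`: every condition in `b n` has an extension in `b (n + 1)`. Then below every element of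
  `b 0` there is a condition in `Q_S` all of whose restrictions to `S n` are in `b n`. -/
  lim_countable : ∀ (S : ℕ → Set W) (hS : ∀ n, IsLowerSet (S n)), Monotone S →
    ∀ b : (n : ℕ) → RO (CondI (S n)),
    (∀ n, ∀ p ∈ b n, ∃ q ∈ b (n + 1), q.1 ≤ p.1) → ∀ p ∈ b 0,
    ∃ q : CondI (⋃ n, S n), q.1 ≤ p.1 ∧ ∀ n, rs (S n) (hS n) q.1 ∈ b n
  /-- Limit step, countable cofinality, the order: if `S` is the union of the initial segments `S n`
  then the order of `Q_S` is that of the inverse limit: `q` is below `p` if every restriction of `q` to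
  `S n` is below that of `p` (the converse is `rs_mono`). -/
  lim_le : ∀ (S : ℕ → Set W) (hS : ∀ n, IsLowerSet (S n)), Monotone S →
    ∀ p q : CondI (⋃ n, S n), (∀ n, rs (S n) (hS n) q.1 ≤ rs (S n) (hS n) p.1) → q ≤ p
  /-- Limit step, uncountable cofinality: if every countable subset of the initial segment `S` is
  strictly bounded in `S` then `Q_S` is the union of the `Q_(<β)`, `β ∈ S`. -/
  lim_uncountable : ∀ S : Set W, IsLowerSet S →
    (∀ C : Set W, C.Countable → C ⊆ S → ∃ β ∈ S, ∀ c ∈ C, c < β) →
    ∀ p : Cond W, In S p.f → ∃ β ∈ S, In (Set.Iio β) p.f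

end SKS
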