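import Pool.Agent.SKS.Targets2

/-!
# MP_504954_lc (project SKS): all cells at once, inside an initial segment (SKS-AL2)
-/

set_option autoImplicit false

namespace SKS

namespace AL2_

variable {W : Type} [LinearOrder W]

/-- a selector for `0, t` is the identity outside of an initial segment that contains the support
of `t` -/
theorem sel_In {S : Set W} {t : W →₀ ℕ} (ht : (↑t.support : Set W) ⊆ S) {E : Pt W → Pt W}
    (hE : Sel 0 t E) : In S E := by
  intro x j hj
  have h0 : t j = 0 := by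
    by_contra h
    exact hj (ht (by simpa using h))
  funext m
  have h1 := hE.tail x j m
  rw [h0] at h1
  simpa using h1

/-- restriction preserves `HS t` -/
theorem rst_HS [WellFoundedLT W] {S : Set W} (hS : IsLowerSet S) {t : W →₀ ℕ}
    {K : Pt W → Pt W} (hK : HS t K) : HS t (rstS S K) := by
  refine ⟨rstS_pk hS hK.1, fun x j m hm => ?_⟩
  by_cases hj : j ∈ S
  · rw [rstS_in hj]
    exact hK.2 x j m hm
  · rw [rstS_out hj]

end AL2_

open AL2_ in
theorem p_AL2 (h : T_ALL) : T_AL2 := by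
  intro W _ _ S hS t ht G Γ h1 h2
  obtain ⟨K, hK, hK'⟩ := h W 0 0 t (fun x => x) (fun Y => PK Y ∧ Γ (G ∘ rstS S Y))
    (by
      intro A K hA hK
      refine ⟨hA.1.comp hK.1, ?_⟩
      rw [rstS_comp hS hA.1 K]
      exact h1 (G ∘ rstS S A) (rstS S K) hA.2 (rstS_pk hS hK.1) (rstS_In S K))
    (by
      intro K E hK hE _
      obtain ⟨L, hL, hLS, hΓ⟩ := h2 (rstS S K) E (rst_HS hS hK) (rstS_In S K) hE
      refine ⟨L, HS.zero hL, hK.1.comp (hE.pk.comp hL), ?_⟩
      have e1 : rstS S (K ∘ (E ∘ L)) = rstS S K ∘ (E ∘ L) := by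
        rw [rstS_comp hS hK.1 (E ∘ L), rstS_of_In (rstS_comp_of_In (sel_In ht hE) hLS)]
      have e2 : ((fun x : Pt W => x) ∘ K ∘ E ∘ L) = K ∘ (E ∘ L) := rfl
      rw [e2, e1]
      exact hΓ)
  refine ⟨rstS S K, rst_HS hS hK, rstS_In S K, fun E hE => ?_⟩
  have h3 := (hK' E hE (HS.zero hE.pk)).2
  have e1 : rstS S (K ∘ E) = rstS S K ∘ E := by
    rw [rstS_comp hS hK.1 E, rstS_of_In (sel_In ht hE)]
  have e2 : ((fun x : Pt W => x) ∘ K ∘ E) = K ∘ E := rfl
  rw [e2, e1] at h3
  exact h3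

end SKS
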