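import Pool.Agent.SKS.Targets2

/-!
# MP_504954_lc (project SKS): FU2, fusion along initial segments
-/

set_option autoImplicit false

namespace SKS

open CofSN CpB Cardinal

namespace FU2_

/-- dependent choice -/
theorem dc {σ : Type} (P : ℕ → σ → Prop) (R : ℕ → σ → σ → Prop) (s0 : σ) (h0 : P 0 s0)
    (h : ∀ k s, P k s → ∃ s', P (k + 1) s' ∧ R k s s') :
    ∃ f : ℕ → σ, f 0 = s0 ∧ ∀ k, P k (f k) ∧ R k (f k) (f (k + 1)) := by
  choose g hg using h
  let F : (k : ℕ) → {s : σ // P k s} := fun k =>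
    Nat.rec ⟨s0, h0⟩ (fun k s => ⟨g k s.1 s.2, (hg k s.1 s.2).1⟩) k
  exact ⟨fun k => (F k).1, rfl, fun k => ⟨(F k).2, (hg k (F k).1 (F k).2).2⟩⟩

/-- the value `n` at the optional element `o` -/
noncomputable def sgo {W : Type} (n : ℕ) : Option W → (W →₀ ℕ)
  | none => 0
  | some w => Finsupp.single w n

/-- the precision -/
noncomputable def ps {W : Type} (k n : ℕ) (e : ℕ → ℕ → Option W) : W →₀ ℕ :=
  ∑ a ∈ Finset.range (k + 1), ∑ b ∈ Finset.range (k + 1), sgo n (e a b)

theorem le_ps {W : Type} {k n : ℕ} {e : ℕ → ℕ → Option W} {a b : ℕ} {w : W} (ha : a ≤ k)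
    (hb : b ≤ k) (hw : e a b = some w) : n ≤ ps k n e w := by
  classical
  unfold ps
  have h1 : sgo n (e a b) ≤ ∑ b ∈ Finset.range (k + 1), sgo n (e a b) :=
    Finset.single_le_sum (f := fun b => sgo n (e a b))
      (fun _ _ => zero_le) (Finset.mem_range.2 (by omega))
  have h2 : (∑ b ∈ Finset.range (k + 1), sgo n (e a b)) ≤
      ∑ a ∈ Finset.range (k + 1), ∑ b ∈ Finset.range (k + 1), sgo n (e a b) :=
    Finset.single_le_sum
      (f := fun a => (∑ b ∈ Finset.range (k + 1), sgo n (e a b)))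
      (fun _ _ => zero_le) (Finset.mem_range.2 (by omega))
  have h3 := h1.trans h2 w
  rw [hw] at h3
  simpa [sgo] using h3

theorem ps_out {W : Type} {k n : ℕ} {e : ℕ → ℕ → Option W} {T : Set W}
    (h : ∀ a ≤ k, ∀ b w, e a b = some w → w ∈ T) {w : W} (hw : w ∉ T) : ps k n e w = 0 := by
  classical
  unfold ps
  rw [Finsupp.finsetSum_apply]
  refine Finset.sum_eq_zero fun a ha => ?_
  rw [Finsupp.finsetSum_apply]
  refine Finset.sum_eq_zero fun b _ => ?_
  have ha' : a ≤ k := by
    have := Finset.mem_range.1 ha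
    omega
  cases hab : e a b with
  | none => rfl
  | some v =>
    have hv := h a ha' b v hab
    have hne : v ≠ w := fun hvw => hw (hvw ▸ hv)
    show (Finsupp.single v n : W →₀ ℕ) w = 0
    exact Finsupp.single_eq_of_ne hne.symm

theorem ps_supp {W : Type} {k n : ℕ} {e : ℕ → ℕ → Option W} {T : Set W}
    (h : ∀ a ≤ k, ∀ b w, e a b = some w → w ∈ T) : (↑(ps k n e).support : Set W) ⊆ T := by
  intro w hw
  by_contra hT
  exact (Finsupp.mem_support_iff.1 (Finset.mem_coe.1 hw)) (ps_out h hT)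

/-- enumeration of a support inside an initial segment -/
theorem enum {W : Type} [LinearOrder W] {T : Set W} (hT : IsLowerSet T) {G : Pt W → Pt W}
    (hG : PK G) (hI : In T G) :
    ∃ e : ℕ → Option W, (∀ b w, e b = some w → w ∈ T) ∧ SuppIn {w | ∃ b, e b = some w} G := by
  classical
  obtain ⟨C, hC, hC'⟩ := hG.supp
  have hS : SuppIn (C ∩ T) G := by
    refine ⟨fun x j hj => ?_, fun x y hxy j hj => ?_⟩
    · by_cases hjT : j ∈ T
      · exact hC'.1 x j fun hjC => hj ⟨hjC, hjT⟩
      · exact hI x j hjT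
    · let z : Pt W := fun i => if i ∈ T then x i else y i
      have h1 : G z j = G x j := hG.dep fun i hi => by
        simp only [z, if_pos (hT hi hj.2)]
      have h2 : G z j = G y j := by
        refine hC'.2 _ _ (fun i hi => ?_) j hj.1
        by_cases hiT : i ∈ T
        · simp only [z, if_pos hiT]
          exact hxy i ⟨hi, hiT⟩
        · simp only [z, if_neg hiT]
      rw [← h1, h2]
  have hc : (insert none (some '' (C ∩ T)) : Set (Option W)).Countable :=
    ((hC.mono Set.inter_subset_left).image some).insert none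
  obtain ⟨e, he⟩ := hc.exists_eq_range ⟨none, Set.mem_insert _ _⟩
  have h1 : ∀ w, (∃ b, e b = some w) ↔ w ∈ C ∩ T := by
    intro w
    constructor
    · rintro ⟨b, hb⟩
      have h2 : some w ∈ (insert none (some '' (C ∩ T)) : Set (Option W)) := by
        rw [he]
        exact ⟨b, hb⟩
      rcases h2 with h2 | ⟨v, hv, hvw⟩
      · exact absurd h2 (Option.some_ne_none w)
      · rw [← Option.some_injective W hvw]
        exact hv
    · intro hw
      have h2 : some w ∈ Set.range e := by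
        rw [← he]
        exact Or.inr ⟨w, hw, rfl⟩
      exact h2
  refine ⟨e, fun b w hb => ((h1 w).1 ⟨b, hb⟩).2, ?_⟩
  have h3 : {w | ∃ b, e b = some w} = C ∩ T := by
    ext w
    exact h1 w
  rw [h3]
  exact hS

theorem In_mono {W : Type} {T T' : Set W} (h : T ⊆ T') {G : Pt W → Pt W} (hG : In T G) :
    In T' G := fun x j hj => hG x j fun hj' => hj (h hj')

end FU2_

open FU2_ in
theorem p_FU2 (h_LIM : T_LIM) (h_MOD : T_MOD) : T_FU2 := by
  classical
  intro W _ _ S hSl hSm P H hH hHI h0 h2 h3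
  obtain ⟨e0, he0, he0'⟩ := enum (hSl 0) hH hHI
  obtain ⟨f, hf0, hf⟩ := dc (σ := (Pt W → Pt W) × (W →₀ ℕ) × (ℕ → ℕ → Option W))
    (fun k s => PK s.1 ∧ In (S k) s.1 ∧ P k s.1 ∧ (↑s.2.1.support : Set W) ⊆ S k ∧
      (∀ a ≤ k, ∀ b w, s.2.2 a b = some w → w ∈ S k) ∧
      SuppIn {w | ∃ b, s.2.2 k b = some w} s.1)
    (fun k s s' => ∃ K, HS s.2.1 K ∧ s'.1 = s.1 ∘ K ∧
      s'.2.1 = s.2.1 + ps k 1 s.2.2 ∧
      (∀ a ≤ k, s'.2.2 a = s.2.2 a) ∧
      ∀ x y, Eqv s'.2.1 x y → Eqv (ps k k s.2.2) (s'.1 x) (s'.1 y))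
    (H, 0, fun _ => e0) ⟨hH, hHI, h0, by simp, fun a _ b w h => he0 b w h, he0'⟩ (by
      rintro k ⟨G, t, e⟩ ⟨hG, hGI, hP, ht, he, -⟩
      simp only at hG hGI hP ht he
      obtain ⟨K', hK', hKI, hP'⟩ := h3 k G t hG hGI hP ht
      have hkk : S k ⊆ S (k + 1) := hSm (Nat.le_succ k)
      have hGK : PK (G ∘ K') := hG.comp hK'.1
      have hGKI : In (S (k + 1)) (G ∘ K') := rstS_comp_of_In (In_mono hkk hGI) hKI
      obtain ⟨M', hM', hMM⟩ := h_MOD W (t + ps k 1 e) (ps k k e) (G ∘ K') hGK.cont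
      have hle : t ≤ t + ps k 1 e := by
        intro j
        rw [Finsupp.add_apply]
        exact Nat.le_add_right _ _
      have hM : HS (t + ps k 1 e) (rstS (S (k + 1)) M') := by
        refine ⟨rstS_pk (hSl _) hM'.1, fun x j m hm => ?_⟩
        by_cases hj : j ∈ S (k + 1)
        · rw [rstS_in hj]
          exact hM'.2 x j m hm
        · rw [rstS_out hj]
      have hMI : In (S (k + 1)) (rstS (S (k + 1)) M') := rstS_In _ _
      have hK : HS t (K' ∘ rstS (S (k + 1)) M') := hK'.comp (hM.mono hle)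
      have hG' : PK (G ∘ (K' ∘ rstS (S (k + 1)) M')) := hG.comp hK.1
      have hGI' : In (S (k + 1)) (G ∘ (K' ∘ rstS (S (k + 1)) M')) :=
        rstS_comp_of_In (In_mono hkk hGI) (rstS_comp_of_In hKI hMI)
      obtain ⟨e1, he1, he1'⟩ := enum (hSl (k + 1)) hG' hGI'
      refine ⟨(G ∘ (K' ∘ rstS (S (k + 1)) M'), t + ps k 1 e, Function.update e (k + 1) e1),
        ⟨hG', hGI', ?_, ?_, ?_, ?_⟩, K' ∘ rstS (S (k + 1)) M', hK, rfl, rfl, ?_, ?_⟩
      · exact h2 (k + 1) (G ∘ K') _ hGK hGKI hP' hM.1 hMI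
      · intro w hw
        rcases Finset.mem_union.1 (Finsupp.support_add (Finset.mem_coe.1 hw)) with h | h
        · exact hkk (ht h)
        · exact hkk (ps_supp he h)
      · intro a ha b w hw
        simp only at hw
        rcases Nat.lt_or_ge a (k + 1) with hlt | hge
        · rw [Function.update_of_ne (by omega)] at hw
          exact hkk (he a (by omega) b w hw)
        · have hak : a = k + 1 := by omega
          subst hak
          rw [Function.update_self] at hw
          exact he1 b w hw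
      · simp only [Function.update_self]
        exact he1'
      · intro a ha
        simp only
        rw [Function.update_of_ne (by omega)]
      · intro x y hxy j m hm
        have hjS : j ∈ S k := by
          by_contra hj
          rw [ps_out he hj] at hm
          exact Nat.not_lt_zero _ hm
        have h5 : ∀ z, (G ∘ (K' ∘ rstS (S (k + 1)) M')) z j = (G ∘ K') (M' z) j := by
          intro z
          show (G ∘ K') (rstS (S (k + 1)) M' z) j = (G ∘ K') (M' z) j
          exact hGK.dep fun i hi => rstS_in (hkk (hSl k hi hjS))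
        have h6 := hMM x y hxy j m hm
        rw [← h5 x, ← h5 y] at h6
        exact h6)
  -- the sequences
  have hP := fun k => (hf k).1
  have hR := fun k => (hf k).2
  choose K hK1 hK2 hK3 hK4 hK5 using hR
  have hstab : ∀ a k, a ≤ k → (f k).2.2 a = (f a).2.2 a := by
    intro a k hak
    induction k, hak using Nat.le_induction with
    | base => rfl
    | succ k hk ih => rw [hK4 k a hk, ih]
  set e : ℕ → ℕ → Option W := fun a => (f a).2.2 a with he
  have hmono : Monotone fun k => (f k).2.1 := by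
    refine monotone_nat_of_le_succ fun k => ?_
    rw [hK3 k]
    intro j
    rw [Finsupp.add_apply]
    exact Nat.le_add_right _ _
  set C : Set W := {w | ∃ a b, e a b = some w} with hC
  have hCc : C.Countable := by
    have h4 : C = some ⁻¹' (Set.range fun p : ℕ × ℕ => e p.1 p.2) := by
      ext w
      constructor
      · rintro ⟨a, b, hab⟩
        exact ⟨(a, b), hab⟩
      · rintro ⟨⟨a, b⟩, hab⟩
        exact ⟨a, b, hab⟩
    rw [h4]
    exact (Set.countable_range _).preimage (Option.some_injective W)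
  have hstep : ∀ a b w, e a b = some w → ∀ k, a ≤ k → b ≤ k →
      (f k).2.1 w + 1 ≤ (f (k + 1)).2.1 w := by
    intro a b w hab k hak hbk
    rw [hK3 k, Finsupp.add_apply]
    refine Nat.add_le_add_left ?_ _
    refine le_ps hak hbk ?_
    rw [hstab a k hak]
    exact hab
  have hinf : ∀ j ∈ C, ∀ n, ∃ k, n ≤ (f k).2.1 j := by
    rintro w ⟨a, b, hab⟩ n
    have h4 : ∀ n, n ≤ (f (a + b + n)).2.1 w := by
      intro n
      induction n with
      | zero => exact Nat.zero_le _
      | succ n ih =>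
        have h5 := hstep a b w hab (a + b + n) (by omega) (by omega)
        have h6 : a + b + (n + 1) = a + b + n + 1 := by omega
        rw [h6]
        omega
    exact ⟨_, h4 n⟩
  have hMOD : ∀ j ∈ C, ∀ m, ∃ k₀, ∀ k ≥ k₀, ∀ x y, Eqv (f k).2.1 x y →
      (f k).1 x j m = (f k).1 y j m := by
    rintro w ⟨a, b, hab⟩ m
    refine ⟨a + b + m + 2, fun k hk x y hxy => ?_⟩
    obtain ⟨k', rfl⟩ : ∃ k', k = k' + 1 := ⟨k - 1, by omega⟩
    have h4 := hK5 k' x y hxy
    have h5 : (f k').2.2 a b = some w := by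
      rw [hstab a k' (by omega)]
      exact hab
    have h6 := le_ps (n := k') (k := k') (by omega) (by omega) h5
    exact h4 w m (by omega)
  obtain ⟨N, hN1, hN2⟩ := h_LIM W (fun k => (f k).1) K (fun k => (f k).2.1) C
    hCc (hP 0).1 hK1 hK2 hmono
    (fun k => (hP k).2.2.2.2.2.mono (by
      rintro w ⟨b, hb⟩
      exact ⟨k, b, hb⟩)) hinf hMOD
  have hG0 : (f 0).1 = H := by rw [hf0]
  have hU : IsLowerSet (⋃ k, S k) := isLowerSet_iUnion hSl
  refine ⟨rstS (⋃ k, S k) (N 0), rstS_pk hU (hN1 0).1, rstS_In _ _, fun k => ?_⟩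
  have h4 : rstS (S k) (H ∘ rstS (⋃ k, S k) (N 0)) = rstS (S k) (H ∘ N 0) := by
    funext x j
    by_cases hj : j ∈ S k
    · rw [rstS_in hj, rstS_in hj]
      exact hH.dep fun i hi => rstS_in (Set.mem_iUnion.2 ⟨k, hSl k hi hj⟩)
    · rw [rstS_out hj, rstS_out hj]
  have h5 : H ∘ N 0 = (f k).1 ∘ N k := by
    have h6 : (f k).1 ∘ N k = (f 0).1 ∘ N 0 := hN2 k
    rw [h6, hG0]
  rw [h4, h5, rstS_comp (hSl k) (hP k).1, rstS_of_In (hP k).2.1]
  exact h2 k (f k).1 _ (hP k).1 (hP k).2.1 (hP k).2.2.1 (rstS_pk (hSl k) (hN1 k).1)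
    (rstS_In _ _)

end SKS
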