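import Pool.Agent.SKS.Targets2

/-!
# MP_504954_lc (project SKS): SKS-GLU, gluing over the cells (helper48)
-/

set_option autoImplicit false

namespace SKS

open CofSN CpB Cardinal

namespace GLU_

variable {W : Type}

/-- the remaining bits of `x` -/
def hat (t : W →₀ ℕ) (x : Pt W) : Pt W := fun j m => x j (t j + m)

theorem cel_hat (t : W →₀ ℕ) (x : Pt W) : cel t x (hat t x) = x := by
  funext j m
  show (if m < t j then x j m else x j (t j + (m - t j))) = x j m
  split_ifs with h
  · rfl
  · congr 1
    omega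

theorem cel_congr {t : W →₀ ℕ} {x y : Pt W} (h : Eqv t x y) : cel t x = cel t y := by
  funext z j m
  show (if m < t j then x j m else z j (m - t j)) = if m < t j then y j m else z j (m - t j)
  split_ifs with hm
  · exact h j m hm
  · rfl

theorem cel_in {t : W →₀ ℕ} {x z : Pt W} {j : W} (h : z j = hat t x j) : cel t x z j = x j := by
  funext m
  show (if m < t j then x j m else z j (m - t j)) = x j m
  split_ifs with hm
  · rfl
  · rw [h]
    show x j (t j + (m - t j)) = x j m
    congr 1
    omega

theorem cel_out {t : W →₀ ℕ} {x z : Pt W} {j : W} (h : t j = 0) : cel t x z j = z j := by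
  funext m
  show (if m < t j then x j m else z j (m - t j)) = z j m
  rw [h]
  simp

theorem hat_out {t : W →₀ ℕ} {x : Pt W} {j : W} (h : t j = 0) : hat t x j = x j := by
  funext m
  show x j (t j + m) = x j m
  rw [h, zero_add]

/-- the glued map -/
def LL (t : W →₀ ℕ) (𝓛 : (Pt W → Pt W) → Pt W → Pt W) (x : Pt W) : Pt W :=
  cel t x (𝓛 (cel t x) (hat t x))

theorem LL_eqv (t : W →₀ ℕ) (𝓛 : (Pt W → Pt W) → Pt W → Pt W) (x : Pt W) :
    Eqv t (LL t 𝓛 x) x := by
  intro j m hm
  show (if m < t j then x j m else _) = x j m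
  rw [if_pos hm]

theorem sel_cel [LinearOrder W] {t : W →₀ ℕ} {E : Pt W → Pt W} (hE : Sel 0 t E) (y : Pt W) :
    cel t (E y) = E ∧ hat t (E y) = y := by
  constructor
  · funext z j m
    show (if m < t j then E y j m else z j (m - t j)) = E z j m
    split_ifs with hm
    · exact hE.code y z (eqv_zero y z) j m hm
    · have h := hE.tail z j (m - t j)
      have h1 : t j + (m - t j) = m := by omega
      rw [h1] at h
      rw [h]
      simp
  · funext j m
    show E y j (t j + m) = y j m
    rw [hE.tail y j m]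
    simp

end GLU_

open GLU_ in
theorem p_GLU (h_CEL : T_CEL) (h_FIN : T_FIN) : T_GLU := by
  intro W _ _ S S' hS hS' hSS t ht 𝓛 h𝓛
  have hcel : ∀ x, Sel 0 t (cel t x) := fun x => h_CEL W t x
  have hLpk : ∀ x, PK (𝓛 (cel t x)) := fun x => (h𝓛 _ (hcel x)).1
  have ht0 : ∀ j, j ∉ S → t j = 0 := fun j hj => by
    by_contra h
    exact hj (ht (Finset.mem_coe.2 (Finsupp.mem_support_iff.2 h)))
  have hin : ∀ x, ∀ j ∈ S, LL t 𝓛 x j = x j := fun x j hj =>
    cel_in ((h𝓛 _ (hcel x)).2.2 (hat t x) j hj)
  have hout : ∀ x, ∀ j, j ∉ S → LL t 𝓛 x j = 𝓛 (cel t x) (hat t x) j := fun x j hj =>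
    cel_out (ht0 j hj)
  have heqv : ∀ (x y : Pt W) (j : W), j ∉ S → (∀ i < j, x i = y i) → cel t x = cel t y := by
    intro x y j hj hxy
    refine cel_congr fun i m hm => ?_
    have hi : i ∈ S := by
      by_contra h
      rw [ht0 i h] at hm
      exact Nat.not_lt_zero _ hm
    have hij : i < j := by
      by_contra h
      exact hj (hS (not_lt.1 h) hi)
    rw [hxy i hij]
  choose C hC hC' using fun E : Pt W → Pt W => show ∃ C : Set W, C.Countable ∧
      (Sel 0 t E → SuppIn C (𝓛 E)) from by
    by_cases hE : Sel 0 t E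
    · obtain ⟨C, h1, h2⟩ := (h𝓛 E hE).1.supp
      exact ⟨C, h1, fun _ => h2⟩
    · exact ⟨∅, Set.countable_empty, fun h => absurd h hE⟩
  have hpk : PK (LL t 𝓛) := by
    refine PK.mk' ?_ ?_ ?_ ?_
    · rw [continuous_iff_cells]
      intro x r
      obtain ⟨u, hu⟩ := continuous_iff_cells.1 (hLpk x).cont (hat t x) r
      refine ⟨t + u + r, fun y hy j m hm => ?_⟩
      have h1 : Eqv t y x := fun i k hk => hy i k (by
        simp only [Finsupp.coe_add, Pi.add_apply]; omega)
      have h2 : Eqv u (hat t y) (hat t x) := fun i k hk => hy i (t i + k) (by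
        simp only [Finsupp.coe_add, Pi.add_apply]; omega)
      have h3 := hu (hat t y) h2
      show (if m < t j then y j m else 𝓛 (cel t y) (hat t y) j (m - t j)) =
        if m < t j then x j m else 𝓛 (cel t x) (hat t x) j (m - t j)
      rw [cel_congr h1]
      split_ifs with h4
      · exact h1 j m h4
      · exact h3 j (m - t j) (by omega)
    · intro x y j hxy
      by_cases hj : j ∈ S
      · rw [hin x j hj, hin y j hj]
        exact hxy j le_rfl
      · rw [hout x j hj, hout y j hj, heqv x y j hj fun i hi => hxy i hi.le]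
        refine (hLpk y).dep fun i hi => ?_
        funext m
        show x i (t i + m) = y i (t i + m)
        rw [hxy i hi]
    · intro x y j hxy hL
      by_cases hj : j ∈ S
      · rwa [hin x j hj, hin y j hj] at hL
      · rw [hout x j hj, hout y j hj, heqv x y j hj hxy] at hL
        have h1 : ∀ i < j, hat t x i = hat t y i := fun i hi => by
          funext m
          show x i (t i + m) = y i (t i + m)
          rw [hxy i hi]
        have h2 := (hLpk y).inj_le (x := hat t x) (y := hat t y) (j := j) (fun i hi => by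
          rcases hi.lt_or_eq with hi | hi
          · exact (hLpk y).dep_lt h1 i hi
          · rw [hi]; exact hL) j le_rfl
        rwa [hat_out (ht0 j hj), hat_out (ht0 j hj)] at h2
    · have hCs : ∀ x, C (cel t x) ⊆ (↑t.support : Set W) ∪ ⋃ E ∈ {E | Sel 0 t E}, C E :=
        fun x => Set.subset_union_of_subset_right
          (Set.subset_biUnion_of_mem (u := C) (hcel x)) _
      have hsupp : ∀ x, SuppIn ((↑t.support : Set W) ∪ ⋃ E ∈ {E | Sel 0 t E}, C E)
          (𝓛 (cel t x)) := fun x => (hC' _ (hcel x)).mono (hCs x)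
      refine ⟨(↑t.support : Set W) ∪ ⋃ E ∈ {E | Sel 0 t E}, C E,
        (Finset.countable_toSet _).union
          ((h_FIN W 0 t).countable.biUnion fun E _ => hC E), ?_, ?_⟩
      · intro x j hj
        have h0 : t j = 0 := by
          by_contra h
          exact hj (Or.inl (Finset.mem_coe.2 (Finsupp.mem_support_iff.2 h)))
        show cel t x (𝓛 (cel t x) (hat t x)) j = x j
        rw [cel_out h0, (hsupp x).1 (hat t x) j hj, hat_out h0]
      · intro x y hxy j hj
        have h1 : Eqv t x y := fun i m hm => by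
          rw [hxy i (Or.inl (Finset.mem_coe.2 (Finsupp.mem_support_iff.2 (by omega))))]
        have h2 : 𝓛 (cel t x) (hat t x) j = 𝓛 (cel t x) (hat t y) j := by
          refine (hsupp x).2 (hat t x) (hat t y) (fun i hi => ?_) j hj
          funext m
          show x i (t i + m) = y i (t i + m)
          rw [hxy i hi]
        funext m
        show (if m < t j then x j m else 𝓛 (cel t x) (hat t x) j (m - t j)) =
          if m < t j then y j m else 𝓛 (cel t y) (hat t y) j (m - t j)
        rw [← cel_congr h1, h2, hxy j hj]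
  refine ⟨LL t 𝓛, ⟨hpk, LL_eqv t 𝓛⟩, fun x j hj => ?_, hin, fun E hE => ?_⟩
  · have hjS : j ∉ S := fun h => hj (hSS h)
    rw [hout x j hjS, (h𝓛 _ (hcel x)).2.1 (hat t x) j hj, hat_out (ht0 j hjS)]
  · funext y
    obtain ⟨h1, h2⟩ := sel_cel hE y
    show cel t (E y) (𝓛 (cel t (E y)) (hat t (E y))) = E (𝓛 E y)
    rw [h1, h2]

end SKS
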