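import Pool.Agent.SKS.Targets2

/-!
# MP_504954_lc (project SKS): the easy clauses of the iteration structure
-/

set_option autoImplicit false

namespace SKS

open CofSN CpB Cardinal

namespace IEZ_

variable {W : Type} [LinearOrder W]

theorem cond_ext {p q : Cond W} (h : p.f = q.f) : p = q := by
  cases p; cases q
  cases h
  rfl

theorem amalg [WellFoundedLT W] (S : Set W) (hS : IsLowerSet S) (p : Cond W) (q : CondI S)
    (h : q ≤ rs S hS p) : ∃ r ≤ p, rs S hS r = q := by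
  have h' : Set.range q.1.f ⊆ Set.range (rstS S p.f) := h
  obtain ⟨R, hR, e⟩ := (rstS_pk hS p.pk).factor q.1.pk h'
  have hRS : In S R := by
    intro x j hj
    have h1 := q.2 x j hj
    rw [e] at h1
    rw [Function.comp, rstS_out hj] at h1
    exact h1
  refine ⟨⟨p.f ∘ R, p.pk.comp hR⟩, Set.range_comp_subset_range R p.f, ?_⟩
  refine Subtype.ext (cond_ext ?_)
  change rstS S (p.f ∘ R) = q.1.f
  rw [rstS_comp hS p.pk, rstS_of_In hRS, e]

theorem zero (p q : CondI (∅ : Set W)) : p ≤ q := by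
  change Set.range p.1.f ⊆ Set.range q.1.f
  intro y _
  exact ⟨y, funext fun j => q.2 y j (Set.notMem_empty j)⟩

theorem lim (S : Set W) (h : ∀ C : Set W, C.Countable → C ⊆ S → ∃ β ∈ S, ∀ c ∈ C, c < β)
    (p : Cond W) (hp : In S p.f) : ∃ β ∈ S, In (Set.Iio β) p.f := by
  obtain ⟨C, hC, hC'⟩ := p.pk.supp
  obtain ⟨β, hβ, hb⟩ := h (C ∩ S) (hC.mono Set.inter_subset_left) Set.inter_subset_right
  refine ⟨β, hβ, fun x j hj => ?_⟩
  by_cases hjS : j ∈ S
  · refine hC'.1 x j fun hjC => hj ?_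
    exact hb j ⟨hjC, hjS⟩
  · exact hp x j hjS

end IEZ_

theorem p_IEZ : T_IEZ := by
  intro W _ _
  exact ⟨fun S hS p => rstS_range hS p.pk, fun S hS p q h => rstS_mono hS p.pk q.pk h,
    IEZ_.amalg, IEZ_.zero, fun S _ h p hp => IEZ_.lim S h p hp⟩

end SKS
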