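import Pool.Agent.SKS.Targets2

/-!
# SKS: LC (the limit step of countable cofinality)
-/

set_option autoImplicit false

namespace SKS

open CofSN CpB Cardinal

namespace LC_

variable {W : Type} [LinearOrder W]

/-- the map `G` is (the map of) a condition in the element `u` of the algebra -/
def Bm (S : Set W) (u : RO (CondI S)) (G : Pt W → Pt W) : Prop :=
  ∃ (hG : PK G) (hi : In S G), (⟨⟨G, hG⟩, hi⟩ : CondI S) ∈ u

theorem Bm.mono {S : Set W} {u : RO (CondI S)} {G G' : Pt W → Pt W} (h : Bm S u G) (hG' : PK G')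
    (hi : In S G') (hr : Set.range G' ⊆ Set.range G) : Bm S u G' := by
  obtain ⟨h1, h2, h3⟩ := h
  exact ⟨hG', hi, RO.mem_down h3 hr⟩

omit [LinearOrder W] in
theorem In.mono {S S' : Set W} (hS : S ⊆ S') {G : Pt W → Pt W} (h : In S G) : In S' G :=
  fun x j hj => h x j fun hj' => hj (hS hj')

theorem sel_in {S : Set W} {t : W →₀ ℕ} (ht : (↑t.support : Set W) ⊆ S) {E : Pt W → Pt W}
    (hE : Sel 0 t E) : In S E := by
  intro x j hj
  have h0 : t j = 0 := by
    by_contra hc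
    exact hj (ht (by simpa using hc))
  funext m
  have h1 := hE.tail x j m
  rw [h0] at h1
  simpa using h1

/-- `x` on `S`, `R x` outside -/
noncomputable def mixS (S : Set W) (R : Pt W → Pt W) : Pt W → Pt W := fun x =>
  open Classical in fun j => if j ∈ S then x j else R x j

omit [LinearOrder W] in
theorem mixS_in {S : Set W} {R : Pt W → Pt W} {x : Pt W} {j : W} (h : j ∈ S) :
    mixS S R x j = x j := by simp [mixS, h]

omit [LinearOrder W] in
theorem mixS_out {S : Set W} {R : Pt W → Pt W} {x : Pt W} {j : W} (h : j ∉ S) :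
    mixS S R x j = R x j := by simp [mixS, h]

/-- the property used in the first step -/
def Gam (S S' : Set W) (u : RO (CondI S')) (X : Pt W → Pt W) : Prop :=
  PK X ∧ In S X ∧ ∃ L, PK L ∧ In S' L ∧ (∀ x, ∀ i ∈ S, L x i = x i) ∧ Bm S' u (X ∘ L)

theorem gam_comp [WellFoundedLT W] {S S' : Set W} (hS : IsLowerSet S) (hSS : S ⊆ S')
    {u : RO (CondI S')} {A K : Pt W → Pt W} (h : Gam S S' u A) (hK : PK K) (hKS : In S K) :
    Gam S S' u (A ∘ K) := by
  obtain ⟨hA, hAS, L, hL, hLS, hLi, hB⟩ := h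
  have e : K ∘ mixS S (L ∘ K) = L ∘ K := by
    funext x i
    by_cases hi : i ∈ S
    · have h1 : K (mixS S (L ∘ K) x) i = K x i :=
        hK.dep fun j hj => mixS_in (hS hj hi)
      show K (mixS S (L ∘ K) x) i = L (K x) i
      rw [h1, hLi (K x) i hi]
    · show K (mixS S (L ∘ K) x) i = L (K x) i
      rw [hKS _ i hi, mixS_out hi]
      rfl
  have hpk : PK (mixS S (L ∘ K)) := by
    refine hK.of_comp ?_
    rw [e]
    exact hL.comp hK
  have hin : In S' (mixS S (L ∘ K)) := by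
    intro x j hj
    have hj' : j ∉ S := fun h => hj (hSS h)
    rw [mixS_out hj']
    show L (K x) j = x j
    rw [hLS _ j hj, hKS x j hj']
  refine ⟨hA.comp hK, rstS_comp_of_In hAS hKS, mixS S (L ∘ K), hpk, hin,
    fun x i hi => mixS_in hi, ?_⟩
  have e2 : (A ∘ K) ∘ mixS S (L ∘ K) = (A ∘ L) ∘ K := by
    rw [Function.comp_assoc, e]
    rfl
  rw [e2]
  exact hB.mono ((hA.comp hL).comp hK)
    (rstS_comp_of_In (rstS_comp_of_In (In.mono hSS hAS) hLS) (In.mono hSS hKS))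
    (Set.range_comp_subset_range _ _)

theorem gam_ex [WellFoundedLT W] {S S' : Set W} (hS : IsLowerSet S) (hSS : S ⊆ S')
    {u : RO (CondI S)} {u' : RO (CondI S')} (hb : ∀ p ∈ u, ∃ q ∈ u', q.1 ≤ p.1)
    {X : Pt W → Pt W} (hX : Bm S u X) : ∃ L, PK L ∧ In S L ∧ Gam S S' u' (X ∘ L) := by
  obtain ⟨hX1, hX2, hX3⟩ := hX
  obtain ⟨q, hq, hqX⟩ := hb _ hX3
  obtain ⟨R, hR, hqR⟩ := hX1.factor q.1.pk hqX
  have hRS : In S' R := by
    intro x j hj
    have h1 := q.2 x j hj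
    rw [hqR] at h1
    have h2 : X (R x) j = x j := h1
    rw [hX2 _ j fun h => hj (hSS h)] at h2
    exact h2
  have e : rstS S R ∘ mixS S R = R := by
    funext x i
    by_cases hi : i ∈ S
    · show rstS S R (mixS S R x) i = R x i
      rw [rstS_in hi]
      exact hR.dep fun j hj => mixS_in (hS hj hi)
    · show rstS S R (mixS S R x) i = R x i
      rw [rstS_out hi, mixS_out hi]
  have hpk : PK (mixS S R) := by
    refine (rstS_pk hS hR).of_comp ?_
    rw [e]
    exact hR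
  refine ⟨rstS S R, rstS_pk hS hR, rstS_In S R, hX1.comp (rstS_pk hS hR),
    rstS_comp_of_In hX2 (rstS_In S R), mixS S R, hpk, ?_, fun x i hi => mixS_in hi, ?_⟩
  · intro x j hj
    rw [mixS_out fun h => hj (hSS h)]
    exact hRS x j hj
  · rw [Function.comp_assoc, e, ← hqR]
    exact ⟨q.1.pk, q.2, hq⟩

end LC_

open LC_ in
theorem p_LC (h_FU2 : T_FU2) (h_AL2 : T_AL2) (h_GLU : T_GLU) (h_CMP : T_CMP) : T_LC := by
  intro W _ _ S hS hmono b hb p hp
  obtain ⟨N, hN, hNS, hNb⟩ := h_FU2 W S hS hmono (fun k => Bm (S k) (b k)) p.1.f p.1.pk p.2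
    ⟨p.1.pk, p.2, hp⟩
    (fun k G K hG hGS hB hK hKS => hB.mono (hG.comp hK) (rstS_comp_of_In hGS hKS)
      (Set.range_comp_subset_range _ _))
    (by
      intro k G t hG hGS hB ht
      have hSS : S k ⊆ S (k + 1) := hmono (Nat.le_succ k)
      -- first step
      obtain ⟨K, hK, hKS, hKE⟩ := h_AL2 W (S k) (hS k) t ht G (Gam (S k) (S (k + 1)) (b (k + 1)))
        (fun A K hA hK hKS => gam_comp (hS k) hSS hA hK hKS)
        (by
          intro K E hK hKS hE
          have hES := sel_in ht hE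
          have hX : Bm (S k) (b k) (G ∘ K ∘ E) :=
            hB.mono (hG.comp (hK.1.comp hE.pk))
              (rstS_comp_of_In hGS (rstS_comp_of_In hKS hES))
              (Set.range_comp_subset_range _ _)
          obtain ⟨L, hL, hLS, hL'⟩ := gam_ex (hS k) hSS (hb k) hX
          exact ⟨L, hL, hLS, hL'⟩)
      -- second step
      have h1 : ∀ E : Pt W → Pt W, ∃ L : Pt W → Pt W, Sel 0 t E → PK L ∧ In (S (k + 1)) L ∧
          (∀ x, ∀ i ∈ S k, L x i = x i) ∧ Bm (S (k + 1)) (b (k + 1)) ((G ∘ K ∘ E) ∘ L) := by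
        intro E
        by_cases hE : Sel 0 t E
        · obtain ⟨-, -, L, hL⟩ := hKE E hE
          exact ⟨L, fun _ => hL⟩
        · exact ⟨E, fun h => absurd h hE⟩
      choose ℒ hℒ using h1
      obtain ⟨L, hL, hLS, hLi, hLE⟩ := h_GLU W (S k) (S (k + 1)) (hS k) (hS (k + 1)) hSS t ht ℒ
        (fun E hE => ⟨(hℒ E hE).1, (hℒ E hE).2.1, (hℒ E hE).2.2.1⟩)
      have hGK : In (S (k + 1)) (G ∘ K ∘ L) :=
        rstS_comp_of_In (In.mono hSS hGS) (rstS_comp_of_In (In.mono hSS hKS) hLS)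
      have hpk : PK (G ∘ K ∘ L) := hG.comp (hK.1.comp hL.1)
      refine ⟨K ∘ L, hK.comp hL, rstS_comp_of_In (In.mono hSS hKS) hLS, hpk, hGK, ?_⟩
      -- third step
      refine RO.mem_reg fun q hq => ?_
      obtain ⟨E, A, A', hE, hA, hA', hEA⟩ := h_CMP W (G ∘ K ∘ L) q.1.f t hpk q.1.pk hq
      have hA1 := rstS_pk (hS (k + 1)) hA
      have hA1' := rstS_pk (hS (k + 1)) hA'
      have hB1 := (hℒ E hE).2.2.2
      obtain ⟨b1, b2, b3⟩ := hB1
      have e1 : (G ∘ K ∘ L) ∘ E ∘ A = ((G ∘ K ∘ E) ∘ ℒ E) ∘ A := by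
        have h2 : (G ∘ K ∘ L) ∘ E ∘ A = G ∘ K ∘ (L ∘ E) ∘ A := rfl
        rw [h2, hLE E hE]
        rfl
      have e2 : q.1.f ∘ rstS (S (k + 1)) A' = ((G ∘ K ∘ E) ∘ ℒ E) ∘ rstS (S (k + 1)) A := by
        have h2 := rstS_comp (hS (k + 1)) q.1.pk A'
        rw [rstS_of_In q.2] at h2
        have h3 := rstS_comp (hS (k + 1)) b1 A
        rw [rstS_of_In b2] at h3
        rw [← h2, ← h3, hEA, e1]
      have hI : In (S (k + 1)) (q.1.f ∘ rstS (S (k + 1)) A') :=
        rstS_comp_of_In q.2 (rstS_In _ _)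
      refine ⟨⟨⟨q.1.f ∘ rstS (S (k + 1)) A', q.1.pk.comp hA1'⟩, hI⟩, ?_, ?_⟩
      · show Set.range (q.1.f ∘ rstS (S (k + 1)) A') ⊆ Set.range q.1.f
        exact Set.range_comp_subset_range _ _
      · refine RO.mem_down b3 ?_
        show Set.range (q.1.f ∘ rstS (S (k + 1)) A') ⊆ Set.range ((G ∘ K ∘ E) ∘ ℒ E)
        rw [e2]
        exact Set.range_comp_subset_range _ _)
  refine ⟨⟨⟨p.1.f ∘ N, p.1.pk.comp hN⟩, ?_⟩, ?_, ?_⟩
  · intro x j hj
    have h0 : j ∉ S 0 := fun h => hj (Set.mem_iUnion.2 ⟨0, h⟩)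
    show p.1.f (N x) j = x j
    rw [p.2 _ j h0, hNS x j hj]
  · show Set.range (p.1.f ∘ N) ⊆ Set.range p.1.f
    exact Set.range_comp_subset_range _ _
  · intro n
    obtain ⟨h1, h2, h3⟩ := hNb n
    exact h3

end SKS
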