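import Pool.Agent.SKS.Targets2

/-!
# MP_504954_lc (project SKS): density in the two step iteration (helper8)
-/

set_option autoImplicit false

namespace SKS

open CofSN CpB Cardinal

namespace SD_

theorem pre_length (n : ℕ) (v : ℕ → Bool) : (pre n v).length = n := by simp [pre]

theorem pre_succ (n : ℕ) (v : ℕ → Bool) : pre (n + 1) v = pre n v ++ [v n] := by
  unfold pre
  rw [List.ofFn_succ_last]
  rfl

section

variable {P : Type} [Preorder P] {T : List Bool → RO P} {A : P}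

theorem sys_len {n : ℕ} {ψ : List Bool → List Bool} (h : Sys T A n ψ) :
    ∀ ρ : List Bool, ρ.length ≤ n → ρ.length ≤ (ψ ρ).length := by
  intro ρ
  induction ρ using List.reverseRecOn with
  | nil => intro _; simp
  | append_singleton ρ b ih =>
    intro hn
    rw [List.length_append, List.length_singleton] at hn
    obtain ⟨τ, h1, -, -⟩ := h.2 ρ (by omega)
    rw [h1]
    have := ih (by omega)
    simp only [List.length_append, List.length_singleton]
    omega

theorem perfect_nil (h : A ∈ perfect T) : A ∈ T [] := h.1.1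

theorem perfect_last (h : A ∈ perfect T) {σ : List Bool} {b : Bool} (hb : A ∈ T (σ ++ [b])) :
    A ∈ T σ := by
  have h1 := h.1.2
  have h2 := (RO.mem_iInf.1 ((RO.mem_iInf.1 h1) σ)) b
  exact (RO.mem_himp.1 h2) A le_rfl hb

theorem perfect_app (h : A ∈ perfect T) {σ : List Bool} (τ : List Bool)
    (hb : A ∈ T (σ ++ τ)) : A ∈ T σ := by
  induction τ using List.reverseRecOn with
  | nil => simpa using hb
  | append_singleton τ b ih =>
    refine ih (perfect_last (b := b) h ?_)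
    rw [List.append_assoc]
    exact hb

theorem sys_mem (hp : A ∈ perfect T) {n : ℕ} {ψ : List Bool → List Bool} (h : Sys T A n ψ) :
    ∀ ρ : List Bool, ρ.length ≤ n → A ∈ T (ψ ρ) := by
  intro ρ
  induction ρ using List.reverseRecOn with
  | nil =>
    intro _
    rw [h.1]
    exact perfect_nil hp
  | append_singleton ρ b ih =>
    intro hn
    rw [List.length_append, List.length_singleton] at hn
    obtain ⟨τ, h1, h2, -⟩ := h.2 ρ (by omega)
    rw [h1]
    exact h2 b

end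

theorem ini_app {σ ρ : List Bool} {v : ℕ → Bool} (h1 : Ini σ v) (h2 : Ini ρ v)
    (hl : σ.length ≤ ρ.length) : ∃ τ, ρ = σ ++ τ := by
  refine ⟨ρ.drop σ.length, ?_⟩
  have h3 : ρ.take σ.length = σ := by
    apply List.ext_getElem
    · simp [hl]
    · intro i hi1 hi2
      rw [List.getElem_take, ← h1 i hi2, ← h2 i (by omega)]
  conv_lhs => rw [← List.take_append_drop σ.length ρ, h3]

theorem main (hSDH : T_SDH) (hSYS : T_SYS) (hSEC : T_SEC) (hREF : T_REF) (hRNG : T_RNG)
    (hCEL : T_CEL) : T_SD := by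
  intro W _ _ β p T hp
  obtain ⟨H, hH, t, Ψ, hIn, hle, h2, h3⟩ := hSDH W β p T hp
  refine ⟨⟨⟨H, hH⟩, hIn⟩, hle, ?_⟩
  show rs (Set.Iio β) (isLowerSet_Iio β) (⟨H, hH⟩ : Cond W) ∈ subTree (sec β H) T
  unfold subTree
  rw [RO.mem_iInf]
  intro σ
  rw [RO.mem_himp]
  intro r hr hrσ
  apply RO.mem_reg
  intro r1 hr1
  have hr1σ := RO.mem_down hrσ hr1
  have hr1le := hr1.trans hr
  obtain ⟨x₀, hx₀, hx₀σ⟩ := (hSEC W β H hH σ r1).1 hr1σ (fun _ _ => false)
  have hsub : Set.range r1.1.f ⊆ Set.range (rstS (Set.Iio β) H) := hr1le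
  obtain ⟨R, hR, hRe⟩ := (rstS_pk (isLowerSet_Iio β) hH).factor r1.1.pk hsub
  obtain ⟨E, hE, hE'⟩ := hREF W R (fun _ _ => false) (t σ.length) hR
  set z₀ : Pt W := R (fun _ _ => false) with hz₀
  have hz : ∀ i < β, z₀ i = x₀ i := hH.inj_lt fun i hi => by
    rw [← hx₀ i hi, hRe]
    exact (rstS_in (S := Set.Iio β) (H := H) (x := z₀) hi).symm
  have hsel : Sel 0 (t σ.length) (cel (t σ.length) z₀) := hCEL W (t σ.length) z₀
  have hcel : ∀ y : Pt W, ∃ z, cel (t σ.length) z₀ z = R (E y) := by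
    intro y
    have h4 : Eqv (t σ.length) (R (E y)) (cel (t σ.length) z₀ z₀) := by
      refine (hE' y).trans ?_
      intro j m hm
      show z₀ j m = if m < t σ.length j then z₀ j m else z₀ j (m - t σ.length j)
      rw [if_pos hm]
    exact ⟨_, (hRNG W 0 (t σ.length) (cel (t σ.length) z₀) hsel z₀ (R (E y)) h4).2⟩
  choose A hA using hcel
  have hAe : R ∘ E = cel (t σ.length) z₀ ∘ A := by
    funext y
    exact (hA y).symm
  have hApk : PK A := hsel.pk.of_comp (by rw [← hAe]; exact hR.comp hE)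
  -- the condition r'
  have hr1In : In (Set.Iio β) r1.1.f := r1.2
  let r' : CondI (Set.Iio β) := rs (Set.Iio β) (isLowerSet_Iio β) ⟨r1.1.f ∘ E, r1.1.pk.comp hE⟩
  have hr'f : r'.1.f = r1.1.f ∘ rstS (Set.Iio β) E := by
    show rstS (Set.Iio β) (r1.1.f ∘ E) = _
    rw [rstS_comp (isLowerSet_Iio β) r1.1.pk, rstS_of_In hr1In]
  have hr'le : r' ≤ r1 := by
    show Set.range r'.1.f ⊆ Set.range r1.1.f
    rw [hr'f]
    exact Set.range_comp_subset_range _ _
  refine ⟨r', hr'le, ?_⟩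
  obtain ⟨hc, hsys⟩ := h2 σ.length z₀
  have hr'le2 : r' ≤ rs (Set.Iio β) (isLowerSet_Iio β) ⟨H ∘ cel (t σ.length) z₀, hc⟩ := by
    show Set.range (rstS (Set.Iio β) (r1.1.f ∘ E)) ⊆
      Set.range (rstS (Set.Iio β) (H ∘ cel (t σ.length) z₀))
    have h5 : r1.1.f ∘ E = rstS (Set.Iio β) H ∘ (cel (t σ.length) z₀ ∘ A) := by
      rw [hRe, Function.comp_assoc, hAe]
    rw [h5, rstS_comp (isLowerSet_Iio β) (rstS_pk (isLowerSet_Iio β) hH),
      rstS_of_In (rstS_In (Set.Iio β) H), rstS_comp (isLowerSet_Iio β) hsel.pk,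
      rstS_comp (isLowerSet_Iio β) hH, ← Function.comp_assoc]
    exact Set.range_comp_subset_range _ _
  have hsys' := (hSYS (CondI (Set.Iio β)) T).1 _ r' _ _ hr'le2 hsys
  have hr'p : r' ≤ p := (hr'le.trans hr1le).trans hle
  have hperf : r' ∈ perfect T := RO.mem_down hp hr'p
  have hmem := sys_mem hperf hsys' (pre σ.length (x₀ β)) (by rw [pre_length])
  have hini := h3 σ.length z₀ x₀ hz
  have hlen := sys_len hsys' (pre σ.length (x₀ β)) (by rw [pre_length])
  rw [pre_length] at hlen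
  obtain ⟨τ, hτ⟩ := ini_app hx₀σ hini hlen
  rw [hτ] at hmem
  exact perfect_app hperf τ hmem

end SD_

/-- `SKS-SD`. -/
theorem p_SD (hSDH : T_SDH) (hSYS : T_SYS) (hSEC : T_SEC) (hREF : T_REF) (hRNG : T_RNG)
    (hCEL : T_CEL) : T_SD := SD_.main hSDH hSYS hSEC hREF hRNG hCEL

end SKS
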