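import Pool.Agent.SKS.Targets2

/-!
# MP_504954_lc (project SKS): the map `H` for a name of a perfect tree
-/

set_option autoImplicit false

namespace SKS

open CofSN CpB Cardinal

namespace SDH_

/-! ### lists -/

theorem pre_length (n : ℕ) (v : ℕ → Bool) : (pre n v).length = n := by
  unfold pre
  exact List.length_ofFn

theorem pre_succ (n : ℕ) (v : ℕ → Bool) : pre (n + 1) v = pre n v ++ [v n] := by
  unfold pre
  rw [List.ofFn_succ']
  simp [List.concat_eq_append]

theorem pre_congr {n : ℕ} {v w : ℕ → Bool} (h : ∀ k < n, v k = w k) : pre n v = pre n w := by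
  unfold pre
  congr 1
  funext k
  exact h k k.2

/-- systems of nodes without the name of the tree -/
def Nod (ψ : List Bool → List Bool) : Prop :=
  ψ [] = [] ∧ ∀ ρ : List Bool, ∃ τ : List Bool, ∀ b, ψ (ρ ++ [b]) = ψ ρ ++ τ ++ [b]

/-- the real which extends all nodes along `v` -/
def lim (ψ : List Bool → List Bool) (v : ℕ → Bool) : ℕ → Bool :=
  fun m => (ψ (pre (m + 1) v)).getD m false

theorem nod_ext {ψ : List Bool → List Bool} (h : Nod ψ) (v : ℕ → Bool) (n k : ℕ) :
    ∃ r, ψ (pre (n + k) v) = ψ (pre n v) ++ r := by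
  induction k with
  | zero => exact ⟨[], by simp⟩
  | succ k ih =>
    obtain ⟨r, hr⟩ := ih
    obtain ⟨τ, hτ⟩ := h.2 (pre (n + k) v)
    refine ⟨r ++ τ ++ [v (n + k)], ?_⟩
    rw [← Nat.add_assoc, pre_succ, hτ, hr]
    simp [List.append_assoc]

theorem nod_len {ψ : List Bool → List Bool} (h : Nod ψ) (v : ℕ → Bool) (n : ℕ) :
    n ≤ (ψ (pre n v)).length := by
  induction n with
  | zero => exact Nat.zero_le _
  | succ n ih =>
    obtain ⟨τ, hτ⟩ := h.2 (pre n v)
    rw [pre_succ, hτ]
    simp only [List.length_append, List.length_singleton]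
    omega

theorem getD_app {l r : List Bool} {m : ℕ} (h : m < l.length) :
    (l ++ r).getD m false = l.getD m false := by
  simp [List.getD_eq_getElem?_getD, List.getElem?_append_left h]

theorem nod_lim {ψ : List Bool → List Bool} (h : Nod ψ) (v : ℕ → Bool) (n m : ℕ)
    (hm : m < (ψ (pre n v)).length) : lim ψ v m = (ψ (pre n v)).getD m false := by
  unfold lim
  rcases le_total n (m + 1) with h1 | h1
  · obtain ⟨k, hk⟩ := Nat.exists_eq_add_of_le h1
    obtain ⟨r, hr⟩ := nod_ext h v n k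
    rw [hk, hr, getD_app hm]
  · obtain ⟨k, hk⟩ := Nat.exists_eq_add_of_le h1
    obtain ⟨r, hr⟩ := nod_ext h v (m + 1) k
    have h2 : m < (ψ (pre (m + 1) v)).length := nod_len h v (m + 1)
    rw [hk, hr, getD_app h2]

theorem nod_ini {ψ : List Bool → List Bool} (h : Nod ψ) (v : ℕ → Bool) (n : ℕ) :
    Ini (ψ (pre n v)) (lim ψ v) := by
  intro m hm
  rw [nod_lim h v n m hm, List.getD_eq_getElem _ _ hm]

theorem nod_inj {ψ : List Bool → List Bool} (h : Nod ψ) {v w : ℕ → Bool}
    (hvw : lim ψ v = lim ψ w) : v = w := by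
  funext m
  induction m using Nat.strong_induction_on with
  | _ m ih =>
    have h1 : pre m v = pre m w := pre_congr ih
    obtain ⟨τ, hτ⟩ := h.2 (pre m v)
    have key : ∀ u : ℕ → Bool, pre m u = pre m v →
        lim ψ u (ψ (pre m v) ++ τ).length = u m := by
      intro u hu
      have h2 : ψ (pre (m + 1) u) = ψ (pre m v) ++ τ ++ [u m] := by
        rw [pre_succ, hu]
        exact hτ (u m)
      rw [nod_lim h u (m + 1) _ (by rw [h2]; simp), h2]
      simp [List.getD_eq_getElem?_getD]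
    rw [← key v rfl, ← key w h1.symm, hvw]

theorem lim_congr {ψ ψ' : List Bool → List Bool} {v : ℕ → Bool} (h : ∀ ρ, ψ ρ = ψ' ρ) :
    lim ψ v = lim ψ' v := by
  have : ψ = ψ' := funext h
  rw [this]

/-! ### cells -/

variable {W : Type}

theorem cel_range (s t : W →₀ ℕ) (x : Pt W) :
    Set.range (cel (s + t) x) ⊆ Set.range (cel s x) := by
  rintro _ ⟨y, rfl⟩
  refine ⟨fun j m => cel (s + t) x y j (s j + m), ?_⟩
  funext j m
  unfold cel
  by_cases h : m < s j
  · have h' : m < (s + t) j := by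
      rw [Finsupp.add_apply]; omega
    rw [if_pos h, if_pos h']
  · rw [if_neg h]
    have h' : s j + (m - s j) = m := by omega
    dsimp only
    rw [h']

theorem cel_congr {t : W →₀ ℕ} {x y : Pt W} (h : Eqv t x y) : cel t x = cel t y := by
  funext z j m
  unfold cel
  by_cases hm : m < t j
  · rw [if_pos hm, if_pos hm, h j m hm]
  · rw [if_neg hm, if_neg hm]

theorem cont_bool {f : Pt W → Bool} (h : ∀ x, ∃ u : W →₀ ℕ, ∀ y, Eqv u y x → f y = f x) :
    Continuous f := by
  rw [continuous_iff_continuousAt]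
  intro x
  obtain ⟨u, hu⟩ := h x
  refine (continuousAt_const (y := f x)).congr ?_
  filter_upwards [(isClopen_cell u x).isOpen.mem_nhds (Eqv.refl u x)] with y hy
  exact (hu y hy).symm

end SDH_

open SDH_ in
theorem p_SDH (h_SYS : T_SYS) (h_OM : T_OM) (h_CEL : T_CEL) : T_SDH := by
  classical
  intro W _ _ β p T hpT
  have hS : IsLowerSet (Set.Iio β) := isLowerSet_Iio β
  obtain ⟨hmono, huniq, hdec⟩ := h_SYS (CondI (Set.Iio β)) T
  have hcel : ∀ (t : W →₀ ℕ) (x : Pt W), Sel 0 t (cel t x) := fun t x => h_CEL W t x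
  -- conditions below `p`
  have hbelow : ∀ G : Pt W → Pt W, PK G →
      Set.range (rstS (Set.Iio β) (p.1.f ∘ G)) ⊆ Set.range p.1.f := by
    intro G hG
    rw [rstS_comp hS p.1.pk, rstS_of_In p.2]
    exact Set.range_comp_subset_range _ _
  -- the decision predicate
  let D : ℕ → (Pt W → Pt W) → Prop := fun n G =>
    ∃ (hG : PK (p.1.f ∘ G)) (ψ : List Bool → List Bool),
      Sys T (rs (Set.Iio β) hS ⟨p.1.f ∘ G, hG⟩) n ψ
  have hD : ∀ n, Dec (D n) := by
    intro n
    constructor
    · intro G G' hG hG' hr hd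
      obtain ⟨hc, ψ, hψ⟩ := hd
      refine ⟨p.1.pk.comp hG', ψ, hmono _ _ n ψ ?_ hψ⟩
      have h1 : Set.range (p.1.f ∘ G') ⊆ Set.range (p.1.f ∘ G) := by
        rw [Set.range_comp, Set.range_comp]
        exact Set.image_mono hr
      exact rstS_mono hS hc (p.1.pk.comp hG') h1
    · intro G hG
      have hA : rs (Set.Iio β) hS ⟨p.1.f ∘ G, p.1.pk.comp hG⟩ ≤ p := hbelow G hG
      obtain ⟨A', hA', ψ, hψ⟩ := hdec _ n (RO.mem_down hpT hA)
      obtain ⟨R, hR, hAR⟩ := PK.factor (rstS_pk hS (p.1.pk.comp hG)) A'.1.pk hA'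
      refine ⟨R, hR, p.1.pk.comp (hG.comp hR), ψ, hmono _ _ n ψ ?_ hψ⟩
      have h1 : rstS (Set.Iio β) (p.1.f ∘ (G ∘ R)) = A'.1.f := by
        rw [← rstS_of_In A'.2, hAR, rstS_comp hS (rstS_pk hS (p.1.pk.comp hG)),
          rstS_of_In (rstS_In (Set.Iio β) (p.1.f ∘ G))]
        exact rstS_comp hS (p.1.pk.comp hG) R
      show Set.range (rstS (Set.Iio β) (p.1.f ∘ (G ∘ R))) ⊆ Set.range A'.1.f
      rw [h1]
  obtain ⟨N, hN, hNt⟩ := h_OM W D hD (fun x => x) PK.id
  choose t ht using hNt
  have hpN : PK (p.1.f ∘ N) := p.1.pk.comp hN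
  have hF : ∀ (n : ℕ) (E : Pt W → Pt W), ∃ ψ : List Bool → List Bool, Sel 0 (t n) E →
      ∃ hG : PK (p.1.f ∘ (N ∘ E)), Sys T (rs (Set.Iio β) hS ⟨p.1.f ∘ (N ∘ E), hG⟩) n ψ := by
    intro n E
    by_cases hE : Sel 0 (t n) E
    · obtain ⟨hG, ψ, hψ⟩ := ht n E hE
      exact ⟨ψ, fun _ => ⟨hG, hψ⟩⟩
    · exact ⟨fun _ => [], fun h => absurd h hE⟩
  choose F hF using hF
  let Ψ : ℕ → Pt W → List Bool → List Bool := fun n x => F n (cel (t n) x)
  have hPK : ∀ (s : W →₀ ℕ) (x : Pt W), PK (p.1.f ∘ (N ∘ cel s x)) := fun s x =>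
    p.1.pk.comp (hN.comp (hcel s x).pk)
  have hΨ : ∀ n x, Sys T (rs (Set.Iio β) hS ⟨p.1.f ∘ (N ∘ cel (t n) x), hPK (t n) x⟩) n
      (Ψ n x) := by
    intro n x
    obtain ⟨hG, h⟩ := hF n (cel (t n) x) (hcel (t n) x)
    exact h
  -- restriction of the cell embedding depends only on the part below `β`
  have hrc : ∀ (s : W →₀ ℕ) (x y : Pt W), (∀ i < β, x i = y i) →
      rstS (Set.Iio β) (p.1.f ∘ (N ∘ cel s x)) = rstS (Set.Iio β) (p.1.f ∘ (N ∘ cel s y)) := by
    intro s x y hxy
    funext z j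
    by_cases hj : j ∈ Set.Iio β
    · rw [rstS_in hj, rstS_in hj]
      refine hpN.dep (x := cel s x z) (y := cel s y z) fun i hi => ?_
      funext m
      unfold cel
      rw [hxy i (lt_of_le_of_lt hi hj)]
    · rw [rstS_out hj, rstS_out hj]
  have hrg : ∀ (s s' : W →₀ ℕ) (x : Pt W),
      Set.range (rstS (Set.Iio β) (p.1.f ∘ (N ∘ cel (s + s') x))) ⊆
        Set.range (rstS (Set.Iio β) (p.1.f ∘ (N ∘ cel s x))) := by
    intro s s' x
    refine rstS_mono hS (hPK s x) (hPK (s + s') x) ?_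
    have h1 : Set.range ((p.1.f ∘ N) ∘ cel (s + s') x) ⊆ Set.range ((p.1.f ∘ N) ∘ cel s x) := by
      rw [Set.range_comp, Set.range_comp _ (cel s x)]
      exact Set.image_mono (cel_range s s' x)
    exact h1
  -- the claim
  have hclaim : ∀ (n n' : ℕ) (x y : Pt W), (∀ i < β, x i = y i) → ∀ ρ : List Bool,
      ρ.length ≤ n → ρ.length ≤ n' → Ψ n x ρ = Ψ n' y ρ := by
    intro n n' x y hxy ρ h1 h2
    have h3 : Sys T (rs (Set.Iio β) hS ⟨p.1.f ∘ (N ∘ cel (t n + t n') x),
        hPK (t n + t n') x⟩) n (Ψ n x) := hmono _ _ n _ (hrg (t n) (t n') x) (hΨ n x)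
    have h4 : Sys T (rs (Set.Iio β) hS ⟨p.1.f ∘ (N ∘ cel (t n + t n') x),
        hPK (t n + t n') x⟩) n' (Ψ n' y) := by
      refine hmono _ _ n' _ ?_ (hΨ n' y)
      show Set.range (rstS (Set.Iio β) (p.1.f ∘ (N ∘ cel (t n + t n') x))) ⊆
        Set.range (rstS (Set.Iio β) (p.1.f ∘ (N ∘ cel (t n') y)))
      rw [hrc (t n + t n') x y hxy, add_comm (t n) (t n')]
      exact hrg (t n') (t n) y
    exact huniq _ n n' _ _ h3 h4 ρ h1 h2
  let ψ : Pt W → List Bool → List Bool := fun x ρ => Ψ ρ.length x ρ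
  have hψΨ : ∀ (n : ℕ) (x : Pt W) (ρ : List Bool), ρ.length ≤ n → Ψ n x ρ = ψ x ρ :=
    fun n x ρ h => hclaim n ρ.length x x (fun _ _ => rfl) ρ h le_rfl
  have hψc : ∀ x y : Pt W, (∀ i < β, x i = y i) → ∀ ρ, ψ x ρ = ψ y ρ :=
    fun x y hxy ρ => hclaim _ _ x y hxy ρ le_rfl le_rfl
  have hnod : ∀ x, Nod (ψ x) := by
    intro x
    refine ⟨(hΨ 0 x).1, fun ρ => ?_⟩
    obtain ⟨τ, hτ, -⟩ := (hΨ (ρ.length + 1) x).2 ρ (Nat.lt_succ_self _)
    refine ⟨τ, fun b => ?_⟩
    have h1 := hτ b
    rw [hψΨ (ρ.length + 1) x (ρ ++ [b]) (by simp), hψΨ (ρ.length + 1) x ρ (by omega)] at h1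
    exact h1
  let Φ : Pt W → ℕ → Bool := fun x => lim (ψ x) (x β)
  have hΦc : ∀ (x y : Pt W) (m : ℕ), cel (t (m + 1)) x = cel (t (m + 1)) y →
      pre (m + 1) (x β) = pre (m + 1) (y β) → Φ x m = Φ y m := by
    intro x y m h1 h2
    show (ψ x (pre (m + 1) (x β))).getD m false = (ψ y (pre (m + 1) (y β))).getD m false
    rw [← hψΨ (m + 1) x _ (by rw [pre_length]), ← hψΨ (m + 1) y _ (by rw [pre_length]), h2]
    show (F (m + 1) (cel (t (m + 1)) x) _).getD m false =
      (F (m + 1) (cel (t (m + 1)) y) _).getD m false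
    rw [h1]
  let H : Pt W → Pt W := fun x j => if j < β then p.1.f (N x) j else if j = β then Φ x else x j
  have H_lt : ∀ x j, j < β → H x j = p.1.f (N x) j := fun x j h => if_pos h
  have H_eq : ∀ x, H x β = Φ x := fun x => by
    show (if β < β then p.1.f (N x) β else if β = β then Φ x else x β) = Φ x
    rw [if_neg (lt_irrefl β), if_pos rfl]
  have H_gt : ∀ x j, β < j → H x j = x j := fun x j h => by
    show (if j < β then p.1.f (N x) j else if j = β then Φ x else x j) = x j
    rw [if_neg (not_lt.2 h.le), if_neg h.ne']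
  have hH : PK H := by
    refine PK.mk' ?_ ?_ ?_ ?_
    · refine continuous_pi fun j => ?_
      rcases lt_trichotomy j β with hj | hj | hj
      · have h1 : (fun x => H x j) = fun x => (p.1.f ∘ N) x j := by
          funext x; exact H_lt x j hj
        rw [h1]
        exact (continuous_apply j).comp hpN.cont
      · subst hj
        have h1 : (fun x => H x j) = Φ := by
          funext x; exact H_eq x
        rw [h1]
        refine continuous_pi fun m => cont_bool fun x => ?_
        refine ⟨t (m + 1) + Finsupp.single j (m + 1), fun y hy => ?_⟩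
        refine hΦc y x m (cel_congr (hy.mono ?_)) (pre_congr fun k hk => hy j k ?_)
        · exact le_self_add
        · rw [Finsupp.add_apply, Finsupp.single_eq_same]
          omega
      · have h1 : (fun x => H x j) = fun x => x j := by
          funext x; exact H_gt x j hj
        rw [h1]
        exact continuous_apply j
    · intro x y j hxy
      rcases lt_trichotomy j β with hj | hj | hj
      · rw [H_lt x j hj, H_lt y j hj]
        exact hpN.dep (x := x) (y := y) hxy
      · subst hj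
        rw [H_eq, H_eq]
        show lim (ψ x) (x j) = lim (ψ y) (y j)
        rw [hxy j le_rfl]
        exact lim_congr (hψc x y fun i hi => hxy i hi.le)
      · rw [H_gt x j hj, H_gt y j hj]
        exact hxy j le_rfl
    · intro x y j hxy hj'
      rcases lt_trichotomy j β with hj | hj | hj
      · rw [H_lt x j hj, H_lt y j hj] at hj'
        refine hpN.inj_le (j := j) (fun i hi => ?_) j le_rfl
        rcases hi.lt_or_eq with hi | hi
        · exact hpN.dep_lt hxy i hi
        · rw [hi]; exact hj'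
      · subst hj
        rw [H_eq, H_eq] at hj'
        have h1 : lim (ψ x) (y j) = lim (ψ y) (y j) := lim_congr (hψc x y hxy)
        exact nod_inj (hnod x) (hj'.trans h1.symm)
      · rwa [H_gt x j hj, H_gt y j hj] at hj'
    · obtain ⟨C, hC, hC'⟩ := hpN.supp
      refine ⟨C ∪ {β} ∪ ⋃ n, ((t n).support : Set W), ?_, ?_, ?_⟩
      · refine (hC.union (Set.countable_singleton β)).union ?_
        exact Set.countable_iUnion fun n => (t n).support.countable_toSet
      · intro x j hj
        have hjC : j ∉ C := fun h => hj (Or.inl (Or.inl h))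
        have hjβ : j ≠ β := fun h => hj (Or.inl (Or.inr h))
        rcases lt_or_gt_of_ne hjβ with h | h
        · rw [H_lt x j h]
          exact hC'.1 x j hjC
        · exact H_gt x j h
      · intro x y hxy j hj
        rcases lt_trichotomy j β with h | h | h
        · rw [H_lt x j h, H_lt y j h]
          exact (hC'.mono (fun i hi => Or.inl (Or.inl hi))).2 x y hxy j hj
        · subst h
          rw [H_eq, H_eq]
          funext m
          refine hΦc x y m ?_ ?_
          · refine cel_congr fun i k hk => ?_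
            have hi : i ∈ (t (m + 1)).support := by
              rw [Finsupp.mem_support_iff]; omega
            rw [hxy i (Or.inr (Set.mem_iUnion.2 ⟨m + 1, hi⟩))]
          · rw [hxy j (Or.inl (Or.inr rfl))]
        · rw [H_gt x j h, H_gt y j h]
          exact hxy j hj
  refine ⟨H, hH, t, Ψ, ?_, ?_, ?_, ?_⟩
  · intro x j hj
    exact H_gt x j (not_le.1 hj)
  · have h1 : rstS (Set.Iio β) H = rstS (Set.Iio β) (p.1.f ∘ N) := by
      funext x j
      by_cases hj : j ∈ Set.Iio β
      · rw [rstS_in hj, rstS_in hj]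
        exact H_lt x j hj
      · rw [rstS_out hj, rstS_out hj]
    show Set.range (rstS (Set.Iio β) H) ⊆ Set.range p.1.f
    rw [h1]
    exact hbelow N hN
  · intro n x
    refine ⟨hH.comp (hcel (t n) x).pk, hmono _ _ n _ ?_ (hΨ n x)⟩
    have h1 : rstS (Set.Iio β) (H ∘ cel (t n) x) =
        rstS (Set.Iio β) (p.1.f ∘ (N ∘ cel (t n) x)) := by
      funext y j
      by_cases hj : j ∈ Set.Iio β
      · rw [rstS_in hj, rstS_in hj]
        exact H_lt _ j hj
      · rw [rstS_out hj, rstS_out hj]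
    show Set.range (rstS (Set.Iio β) (H ∘ cel (t n) x)) ⊆
      Set.range (rstS (Set.Iio β) (p.1.f ∘ (N ∘ cel (t n) x)))
    rw [h1]
  · intro n x y hxy
    rw [H_eq, hψΨ n x _ (by rw [pre_length]), hψc x y hxy]
    exact nod_ini (hnod y) (y β) n

end SKS
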