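import Pool.Agent.SKS.Targets2

/-!
# MP_504954_lc (project SKS): the generating set of the sections is regular
-/

set_option autoImplicit false

namespace SKS

open CofSN CpB Cardinal

namespace SEC_

variable {W : Type}

theorem isClosed_ini (β : W) (σ : List Bool) : IsClosed {x : Pt W | Ini σ (x β)} := by
  have h : {x : Pt W | Ini σ (x β)} =
      ⋂ m : ℕ, ⋂ h : m < σ.length, {x : Pt W | x β m = σ[m]} := by
    ext x
    simp only [Set.mem_setOf_eq, Set.mem_iInter, Ini]
  rw [h]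
  exact isClosed_iInter fun m => isClosed_iInter fun h => (isClopen_bit β m _).isClosed

theorem isClosed_K [LinearOrder W] (β : W) {H : Pt W → Pt W} (hH : Continuous H)
    (σ : List Bool) :
    IsClosed {z : Pt W | ∃ x, (∀ i < β, z i = H x i) ∧ Ini σ (H x β)} := by
  have hA : IsClosed {x : Pt W | Ini σ (H x β)} := (isClosed_ini β σ).preimage hH
  let R : Pt W → (Set.Iio β → ℕ → Bool) := fun z i => z i
  have hR : Continuous R := continuous_pi fun i => continuous_apply _
  have hK : IsClosed ((R ∘ H) '' {x : Pt W | Ini σ (H x β)}) :=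
    (hA.isCompact.image (hR.comp hH)).isClosed
  have h : {z : Pt W | ∃ x, (∀ i < β, z i = H x i) ∧ Ini σ (H x β)} =
      R ⁻¹' ((R ∘ H) '' {x : Pt W | Ini σ (H x β)}) := by
    ext z
    simp only [Set.mem_setOf_eq, Set.mem_preimage, Set.mem_image, Function.comp]
    constructor
    · rintro ⟨x, h1, h2⟩
      exact ⟨x, h2, funext fun i => (h1 i i.2).symm⟩
    · rintro ⟨x, h2, h1⟩
      exact ⟨x, fun i hi => (congrFun h1 ⟨i, hi⟩).symm, h2⟩
  rw [h]
  exact hK.preimage hR

end SEC_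

open SEC_ in
theorem p_SEC (h_CEL : T_CEL) : T_SEC := by
  intro W _ _ β H hH σ G
  constructor
  · intro hG y
    by_contra hy
    have hK := isClosed_K β hH.cont σ
    set K : Set (Pt W) := {z : Pt W | ∃ x, (∀ i < β, z i = H x i) ∧ Ini σ (H x β)} with hKdef
    have hU : IsOpen (G.1.f ⁻¹' Kᶜ) := hK.isOpen_compl.preimage G.1.pk.cont
    have hyU : y ∈ G.1.f ⁻¹' Kᶜ := hy
    obtain ⟨u, hu⟩ := exists_cell_subset hU hyU
    have hE := h_CEL W u y
    set E : Pt W → Pt W := fun v j m => if m < u j then y j m else v j (m - u j) with hEdef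
    have hEv : ∀ v, Eqv u (E v) y := fun v j m hm => by simp [hEdef, hm]
    let G' : CondI (Set.Iio β) :=
      rs (Set.Iio β) (isLowerSet_Iio β) ⟨G.1.f ∘ E, G.1.pk.comp hE.pk⟩
    have hG' : G' ≤ G := by
      show Set.range (rstS (Set.Iio β) (G.1.f ∘ E)) ⊆ Set.range G.1.f
      rw [rstS_comp (isLowerSet_Iio β) G.1.pk, rstS_of_In G.2]
      exact Set.range_comp_subset_range _ _
    obtain ⟨r, hr, s, hs, hrs⟩ := RO.mem_gen.1 hG G' hG'
    obtain ⟨v', hv'⟩ : r.1.f (fun _ _ => false) ∈ Set.range s.1.f :=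
      (show Set.range r.1.f ⊆ Set.range s.1.f from hrs) (Set.mem_range_self _)
    obtain ⟨v'', hv''⟩ : r.1.f (fun _ _ => false) ∈ Set.range G'.1.f :=
      (show Set.range r.1.f ⊆ Set.range G'.1.f from hr) (Set.mem_range_self _)
    obtain ⟨x, hx1, hx2⟩ := hs v'
    refine hu (E v'') (hEv v'') ⟨x, fun i hi => ?_, hx2⟩
    rw [← hx1 i hi, hv', ← hv'']
    exact (rstS_in (S := Set.Iio β) (H := G.1.f ∘ E) (x := v'') hi).symm
  · intro h
    exact RO.mem_gen.2 fun q hq => ⟨q, le_rfl, G, h, hq⟩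

end SKS
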