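import Pool.Agent.SKS.Targets2

/-!
# MP_504954_lc (project SKS): the order of the two step iteration (job SKS-SL)
-/

set_option autoImplicit false

namespace SKS

open CofSN CpB Cardinal

namespace SL_

variable {W : Type} [LinearOrder W] [WellFoundedLT W]

theorem fwd (h : T_SEC) (β : W) (p q : CondI (Set.Iic β)) (hqp : q ≤ p) :
    rs (Set.Iio β) (isLowerSet_Iio β) q.1 ≤ rs (Set.Iio β) (isLowerSet_Iio β) p.1 ∧
    rs (Set.Iio β) (isLowerSet_Iio β) q.1 ∈ subTree (sec β q.1.f) (sec β p.1.f) := by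
  have hr : Set.range q.1.f ⊆ Set.range p.1.f := hqp
  refine ⟨rstS_mono (isLowerSet_Iio β) p.1.pk q.1.pk hr, ?_⟩
  unfold subTree
  rw [RO.mem_iInf]
  intro σ
  rw [RO.mem_himp]
  intro G _ hG
  rw [h W β p.1.f p.1.pk σ G]
  intro y
  obtain ⟨x, hx1, hx2⟩ := (h W β q.1.f q.1.pk σ G).1 hG y
  obtain ⟨x', hx'⟩ := hr (Set.mem_range_self x)
  refine ⟨x', ?_, ?_⟩
  · intro i hi
    rw [hx']
    exact hx1 i hi
  · rw [hx']
    exact hx2

theorem step (h : T_SEC) (hC : T_CEL) (β : W) (p q : CondI (Set.Iic β))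
    (h2 : rs (Set.Iio β) (isLowerSet_Iio β) q.1 ∈ subTree (sec β q.1.f) (sec β p.1.f))
    (x : Pt W) (n : ℕ) : ∃ z, (∀ i < β, p.1.f z i = q.1.f x i) ∧
      ∀ m < n, p.1.f z β m = q.1.f x β m := by
  classical
  obtain ⟨u, hu⟩ := continuous_iff_cells.1 q.1.pk.cont x (Finsupp.single β n)
  have hE := hC W u x
  set E : Pt W → Pt W := fun y j m => if m < u j then x j m else y j (m - u j) with hEdef
  have hEx : ∀ y, Eqv u (E y) x := by
    intro y j m hm
    show (if m < u j then x j m else y j (m - u j)) = x j m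
    rw [if_pos hm]
  let G : CondI (Set.Iio β) := rs (Set.Iio β) (isLowerSet_Iio β) ⟨q.1.f ∘ E, q.1.pk.comp hE.pk⟩
  have hG : G ≤ rs (Set.Iio β) (isLowerSet_Iio β) q.1 :=
    rstS_mono (isLowerSet_Iio β) q.1.pk (q.1.pk.comp hE.pk) (Set.range_comp_subset_range E q.1.f)
  have hGf : ∀ y, ∀ i < β, G.1.f y i = q.1.f (E y) i := by
    intro y i hi
    exact rstS_in (S := Set.Iio β) hi
  let σ : List Bool := List.ofFn (fun m : Fin n => q.1.f x β m)
  have hσ : ∀ w : ℕ → Bool, Ini σ w ↔ ∀ m < n, w m = q.1.f x β m := by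
    intro w
    unfold Ini
    constructor
    · intro h1 m hm
      have := h1 m (by simpa [σ] using hm)
      simpa [σ] using this
    · intro h1 m hm
      have hm' : m < n := by simpa [σ] using hm
      have := h1 m hm'
      simpa [σ] using this
  have hGq : G ∈ sec β q.1.f σ := by
    rw [h W β q.1.f q.1.pk σ G]
    intro y
    refine ⟨E y, hGf y, ?_⟩
    rw [hσ]
    intro m hm
    exact hu (E y) (hEx y) β m (by simpa using hm)
  have hGp : G ∈ sec β p.1.f σ := by
    unfold subTree at h2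
    rw [RO.mem_iInf] at h2
    have h3 := h2 σ
    rw [RO.mem_himp] at h3
    exact h3 G hG hGq
  obtain ⟨z, hz1, hz2⟩ := (h W β p.1.f p.1.pk σ G).1 hGp (fun j m => x j (u j + m))
  have hEy : E (fun j m => x j (u j + m)) = x := by
    funext j m
    show (if m < u j then x j m else x j (u j + (m - u j))) = x j m
    split_ifs with hm
    · rfl
    · congr 1
      omega
  refine ⟨z, fun i hi => ?_, (hσ _).1 hz2⟩
  rw [← hz1 i hi, hGf _ i hi, hEy]

theorem bwd (h : T_SEC) (hC : T_CEL) (β : W) (p q : CondI (Set.Iic β))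
    (h2 : rs (Set.Iio β) (isLowerSet_Iio β) q.1 ∈ subTree (sec β q.1.f) (sec β p.1.f)) :
    q ≤ p := by
  classical
  show Set.range q.1.f ⊆ Set.range p.1.f
  rintro _ ⟨x, rfl⟩
  let Z : ℕ → Set (Pt W) := fun n => {z | (∀ i < β, p.1.f z i = q.1.f x i) ∧
    ∀ m < n, p.1.f z β m = q.1.f x β m}
  have hcl : ∀ n, IsClosed (Z n) := by
    intro n
    have e : Z n = (⋂ i : W, ⋂ (_ : i < β), {z | p.1.f z i = q.1.f x i}) ∩
        ⋂ m : ℕ, ⋂ (_ : m < n), {z | p.1.f z β m = q.1.f x β m} := by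
      ext z
      simp [Z]
    rw [e]
    have hc : ∀ i : W, Continuous fun z => p.1.f z i := fun i =>
      (continuous_apply i).comp p.1.pk.cont
    refine IsClosed.inter ?_ ?_
    · exact isClosed_iInter fun i => isClosed_iInter fun _ =>
        isClosed_eq (hc i) continuous_const
    · exact isClosed_iInter fun m => isClosed_iInter fun _ =>
        isClosed_eq ((continuous_apply m).comp (hc β)) continuous_const
  obtain ⟨z, hz⟩ := IsCompact.nonempty_iInter_of_sequence_nonempty_isCompact_isClosed Z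
    (fun n z hz => ⟨hz.1, fun m hm => hz.2 m (by omega)⟩)
    (fun n => step h hC β p q h2 x n) (hcl 0).isCompact hcl
  rw [Set.mem_iInter] at hz
  have hz1 : ∀ i < β, p.1.f z i = q.1.f x i := (hz 0).1
  have hz2 : p.1.f z β = q.1.f x β := by
    funext m
    exact (hz (m + 1)).2 m (Nat.lt_succ_self m)
  refine ⟨fun j => if j ≤ β then z j else x j, ?_⟩
  funext j
  rcases le_or_gt j β with hj | hj
  · have e1 : p.1.f (fun j => if j ≤ β then z j else x j) j = p.1.f z j := by
      refine p.1.pk.dep fun i hi => ?_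
      show (if i ≤ β then z i else x i) = z i
      rw [if_pos (hi.trans hj)]
    rw [e1]
    rcases hj.lt_or_eq with hj | hj
    · exact hz1 j hj
    · rw [hj]
      exact hz2
  · have hj' : j ∉ Set.Iic β := not_le.2 hj
    rw [p.2 _ j hj', q.2 x j hj']
    show (if j ≤ β then z j else x j) = x j
    rw [if_neg (not_le.2 hj)]

end SL_

open SL_ in
theorem p_SL (h_SEC : T_SEC) (h_CEL : T_CEL) : T_SL := by
  intro W _ _ β p q
  exact ⟨fun hqp => fwd h_SEC β p q hqp, fun hh => bwd h_SEC h_CEL β p q hh.2⟩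

end SKS
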