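import Pool.Agent.SKS.Targets2

/-!
# MP_504954_lc (project SKS): the section tree is perfect (T_SP)
-/

set_option autoImplicit false

namespace SKS

open CofSN CpB Cardinal

namespace SP_

theorem ini_nil (v : ℕ → Bool) : Ini [] v := fun _ h => absurd h (Nat.not_lt_zero _)

theorem ini_left {σ ρ : List Bool} {v : ℕ → Bool} (h : Ini (σ ++ ρ) v) : Ini σ v := by
  intro m hm
  have hm' : m < (σ ++ ρ).length := by
    rw [List.length_append]
    omega
  rw [h m hm', List.getElem_append_left hm]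

theorem ini_congr {L : List Bool} {v v' : ℕ → Bool} (h : Ini L v)
    (hv : ∀ k < L.length, v' k = v k) : Ini L v' := fun m hm => (hv m hm).trans (h m hm)

theorem ini_ext (σ : List Bool) (v v' : ℕ → Bool) (n : ℕ) (hσ : Ini σ v')
    (h : ∀ k < n, v' (σ.length + k) = v (σ.length + k)) :
    Ini (σ ++ List.ofFn (fun k : Fin n => v (σ.length + k)) ++ [v' (σ.length + n)]) v' := by
  intro j hj
  simp only [List.length_append, List.length_ofFn, List.length_cons, List.length_nil] at hj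
  rcases lt_or_ge j σ.length with h1 | h1
  · rw [List.getElem_append_left (by simp only [List.length_append, List.length_ofFn]; omega),
      List.getElem_append_left h1]
    exact hσ j h1
  · rcases lt_or_ge j (σ.length + n) with h2 | h2
    · rw [List.getElem_append_left (by simp only [List.length_append, List.length_ofFn]; omega),
        List.getElem_append_right h1, List.getElem_ofFn]
      obtain ⟨k, rfl⟩ := Nat.exists_eq_add_of_le h1
      simp only [Nat.add_sub_cancel_left]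
      exact h k (by omega)
    · have h3 : j = σ.length + n := by omega
      subst h3
      simp

variable {W : Type} [LinearOrder W] [WellFoundedLT W]

/-- the restriction of `G ∘ E` -/
noncomputable def rc (β : W) (G : CondI (Set.Iio β)) (E : Pt W → Pt W) (hE : PK E) :
    CondI (Set.Iio β) :=
  rs (Set.Iio β) (isLowerSet_Iio β) ⟨G.1.f ∘ E, G.1.pk.comp hE⟩

theorem rc_le (β : W) (G : CondI (Set.Iio β)) (E : Pt W → Pt W) (hE : PK E) :
    rc β G E hE ≤ G := by
  have h1 : rstS (Set.Iio β) (G.1.f ∘ E) = G.1.f ∘ rstS (Set.Iio β) E := by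
    rw [rstS_comp (isLowerSet_Iio β) G.1.pk, rstS_of_In G.2]
  show Set.range (rstS (Set.Iio β) (G.1.f ∘ E)) ⊆ Set.range G.1.f
  rw [h1]
  exact Set.range_comp_subset_range _ _

theorem mem_sec (hSEC : T_SEC) (β : W) (H : Pt W → Pt W) (hH : PK H) (G : CondI (Set.Iio β))
    (R : Pt W → Pt W) (hR : G.1.f = rstS (Set.Iio β) H ∘ R) (E : Pt W → Pt W) (hE : PK E)
    (y₀ z : Pt W) (u : W →₀ ℕ) (hu : ∀ y, Eqv u (R (E y)) (R y₀))
    (hz : ∀ i < β, R y₀ i = z i) (L : List Bool)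
    (hc : ∀ x, Eqv u x z → Ini L (H x β)) : rc β G E hE ∈ sec β H L := by
  classical
  rw [hSEC W β H hH L (rc β G E hE)]
  intro y
  refine ⟨fun j => if j < β then R (E y) j else z j, ?_, ?_⟩
  · intro i hi
    have h1 : (rc β G E hE).1.f y i = G.1.f (E y) i := by
      show rstS (Set.Iio β) (G.1.f ∘ E) y i = _
      rw [rstS_in (Set.mem_Iio.2 hi)]
      rfl
    rw [h1, hR]
    show rstS (Set.Iio β) H (R (E y)) i = _
    rw [rstS_in (Set.mem_Iio.2 hi)]
    refine hH.dep fun j hj => ?_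
    rw [if_pos (hj.trans_lt hi)]
  · refine hc _ fun j m hm => ?_
    by_cases hj : j < β
    · simp only [if_pos hj]
      rw [← hz j hj]
      exact hu y j m hm
    · simp only [if_neg hj]

theorem core (hSEC : T_SEC) (hREF : T_REF) (β : W) (p : Cond W) (σ : List Bool)
    (G : CondI (Set.Iio β)) (hG : G ≤ rs (Set.Iio β) (isLowerSet_Iio β) p)
    (hGs : G ∈ sec β p.f σ) : ∃ G' ≤ G, ∃ τ : List Bool, G' ∈ sec β p.f (σ ++ τ ++ [false]) ∧
      G' ∈ sec β p.f (σ ++ τ ++ [true]) := by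
  classical
  have hH := p.pk
  obtain ⟨R, hRpk, hR⟩ := PK.factor (rs (Set.Iio β) (isLowerSet_Iio β) p).1.pk G.1.pk hG
  have hR' : G.1.f = rstS (Set.Iio β) p.f ∘ R := hR
  let y₀ : Pt W := fun _ _ => false
  obtain ⟨x₀, hx₀, hσ₀⟩ := (hSEC W β p.f hH σ G).1 hGs y₀
  have e1 : ∀ i < β, p.f (R y₀) i = p.f x₀ i := by
    intro i hi
    rw [← hx₀ i hi, hR']
    exact (rstS_in (Set.mem_Iio.2 hi)).symm
  have e2 : ∀ i < β, R y₀ i = x₀ i := hH.inj_lt e1
  obtain ⟨u, hu⟩ := continuous_iff_cells.1 hH.cont x₀ (Finsupp.single β σ.length)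
  let x₁ : Pt W := Function.update x₀ β fun m => if m = u β then !(x₀ β m) else x₀ β m
  have x₁_ne : ∀ j, j ≠ β → x₁ j = x₀ j := fun j hj => Function.update_of_ne hj _ _
  have x₁_eq : ∀ m, x₁ β m = if m = u β then !(x₀ β m) else x₀ β m := by
    intro m
    simp only [x₁, Function.update_self]
  have f1 : Eqv u x₁ x₀ := by
    intro j m hm
    by_cases hj : j = β
    · subst hj
      rw [x₁_eq, if_neg hm.ne]
    · rw [x₁_ne j hj]
  have f2 : Ini σ (p.f x₁ β) := by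
    refine ini_congr hσ₀ fun k hk => ?_
    refine hu x₁ f1 β k ?_
    simpa using hk
  have f3 : p.f x₀ β ≠ p.f x₁ β := by
    intro h
    have h1 : ∀ i ≤ β, p.f x₀ i = p.f x₁ i := by
      intro i hi
      rcases hi.lt_or_eq with hi | rfl
      · exact hH.dep_lt (fun k hk => (x₁_ne k hk.ne).symm) i hi
      · exact h
    have h2 := congrFun (hH.inj_le h1 β le_rfl) (u β)
    rw [x₁_eq, if_pos rfl] at h2
    cases h3 : x₀ β (u β) <;> simp [h3] at h2
  obtain ⟨m₀, hm₀⟩ := Function.ne_iff.1 f3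
  have hex : ∃ m, p.f x₀ β m ≠ p.f x₁ β m := ⟨m₀, hm₀⟩
  obtain ⟨m, hm, hmin⟩ : ∃ m, p.f x₀ β m ≠ p.f x₁ β m ∧
      ∀ k < m, p.f x₀ β k = p.f x₁ β k :=
    ⟨Nat.find hex, Nat.find_spec hex, fun k hk => not_not.1 (Nat.find_min hex hk)⟩
  have hσm : σ.length ≤ m := by
    by_contra hlt
    push Not at hlt
    exact hm ((hσ₀ m hlt).trans (f2 m hlt).symm)
  obtain ⟨n, rfl⟩ := Nat.exists_eq_add_of_le hσm
  let τ : List Bool := List.ofFn fun k : Fin n => p.f x₀ β (σ.length + k)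
  have g₀ : Ini (σ ++ τ ++ [p.f x₀ β (σ.length + n)]) (p.f x₀ β) :=
    ini_ext σ (p.f x₀ β) (p.f x₀ β) n hσ₀ fun _ _ => rfl
  have g₁ : Ini (σ ++ τ ++ [p.f x₁ β (σ.length + n)]) (p.f x₁ β) :=
    ini_ext σ (p.f x₀ β) (p.f x₁ β) n f2 fun k hk => (hmin _ (by omega)).symm
  have hlen : ∀ b : Bool, (σ ++ τ ++ [b]).length = σ.length + n + 1 := by
    intro b
    simp only [τ, List.length_append, List.length_ofFn, List.length_cons, List.length_nil]
  obtain ⟨u₀, hu₀⟩ := continuous_iff_cells.1 hH.cont x₀ (Finsupp.single β (σ.length + n + 1))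
  obtain ⟨u₁, hu₁⟩ := continuous_iff_cells.1 hH.cont x₁ (Finsupp.single β (σ.length + n + 1))
  have l₀ : u₀ ≤ u₀ + u₁ := fun j => by simp
  have l₁ : u₁ ≤ u₀ + u₁ := fun j => by simp
  obtain ⟨E, hE, hEr⟩ := hREF W R y₀ (u₀ + u₁) hRpk
  have c₀ : ∀ x, Eqv (u₀ + u₁) x x₀ →
      Ini (σ ++ τ ++ [p.f x₀ β (σ.length + n)]) (p.f x β) := by
    intro x hx
    refine ini_congr g₀ fun k hk => ?_
    rw [hlen] at hk
    exact hu₀ x (hx.mono l₀) β k (by simpa using hk)
  have c₁ : ∀ x, Eqv (u₀ + u₁) x x₁ →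
      Ini (σ ++ τ ++ [p.f x₁ β (σ.length + n)]) (p.f x β) := by
    intro x hx
    refine ini_congr g₁ fun k hk => ?_
    rw [hlen] at hk
    exact hu₁ x (hx.mono l₁) β k (by simpa using hk)
  have m₀' := mem_sec hSEC β p.f hH G R hR' E hE y₀ x₀ (u₀ + u₁) hEr e2 _ c₀
  have m₁' := mem_sec hSEC β p.f hH G R hR' E hE y₀ x₁ (u₀ + u₁) hEr
    (fun i hi => (e2 i hi).trans (x₁_ne i hi.ne).symm) _ c₁
  refine ⟨rc β G E hE, rc_le β G E hE, τ, ?_⟩
  cases h0 : p.f x₀ β (σ.length + n) with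
  | false =>
    cases h1 : p.f x₁ β (σ.length + n) with
    | false => exact absurd (h0.trans h1.symm) hm
    | true =>
      rw [h0] at m₀'
      rw [h1] at m₁'
      exact ⟨m₀', m₁'⟩
  | true =>
    cases h1 : p.f x₁ β (σ.length + n) with
    | false =>
      rw [h0] at m₀'
      rw [h1] at m₁'
      exact ⟨m₁', m₀'⟩
    | true => exact absurd (h0.trans h1.symm) hm

end SP_

theorem p_SP (hSEC : T_SEC) (hREF : T_REF) : T_SP := by
  intro W _ _ β p
  have hH := p.pk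
  unfold perfect
  rw [RO.mem_inf, RO.mem_inf]
  refine ⟨⟨?_, ?_⟩, ?_⟩
  · rw [hSEC W β p.f hH]
    intro y
    refine ⟨y, fun i hi => ?_, SP_.ini_nil _⟩
    exact rstS_in (Set.mem_Iio.2 hi)
  · rw [RO.mem_iInf]
    intro σ
    rw [RO.mem_iInf]
    intro b
    rw [RO.mem_himp]
    intro G _ hG
    rw [hSEC W β p.f hH] at hG ⊢
    intro y
    obtain ⟨x, hx, hx'⟩ := hG y
    exact ⟨x, hx, SP_.ini_left hx'⟩
  · rw [RO.mem_iInf]
    intro σ
    rw [RO.mem_himp]
    intro G hGr hG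
    rw [RO.mem_iSup]
    intro G₁ hG₁
    obtain ⟨G', hG', τ, h0, h1⟩ :=
      SP_.core hSEC hREF β p σ G₁ (hG₁.trans hGr) (RO.mem_down hG hG₁)
    exact ⟨G', hG', τ, RO.mem_inf.2 ⟨h0, h1⟩⟩

end SKS
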