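import Pool.Agent.SKS.Targets2

/-!
# MP_504954_lc (project SKS): canonical systems of splitting nodes, `T_SYS` (helper93)
-/

set_option autoImplicit false

namespace SKS

open CofSN CpB Cardinal

namespace SYS_

variable {P : Type} [Preorder P] {T : List Bool → RO P}

theorem down {A A' : P} {n : ℕ} {ψ : List Bool → List Bool} (h : A' ≤ A) (hs : Sys T A n ψ) :
    Sys T A' n ψ := by
  refine ⟨hs.1, fun ρ hρ => ?_⟩
  obtain ⟨τ, h1, h2, h3⟩ := hs.2 ρ hρ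
  exact ⟨τ, h1, fun b => RO.mem_down (h2 b) h, fun τ' hτ' => RO.mem_down (h3 τ' hτ') h⟩

theorem tau_eq {A : P} {σ τ τ' : List Bool}
    (h2 : ∀ b, A ∈ T (σ ++ τ ++ [b]))
    (h3 : ∀ τ'' : List Bool, Encodable.encode τ'' < Encodable.encode τ →
      A ∈ (T (σ ++ τ'' ++ [false]) ⊓ T (σ ++ τ'' ++ [true]))ᶜ)
    (h2' : ∀ b, A ∈ T (σ ++ τ' ++ [b]))
    (h3' : ∀ τ'' : List Bool, Encodable.encode τ'' < Encodable.encode τ' →
      A ∈ (T (σ ++ τ'' ++ [false]) ⊓ T (σ ++ τ'' ++ [true]))ᶜ) : τ = τ' := by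
  rcases lt_trichotomy (Encodable.encode τ) (Encodable.encode τ') with h | h | h
  · exact absurd (RO.mem_inf.2 ⟨h2 false, h2 true⟩) (RO.mem_compl.1 (h3' τ h) A le_rfl)
  · exact Encodable.encode_injective h
  · exact absurd (RO.mem_inf.2 ⟨h2' false, h2' true⟩) (RO.mem_compl.1 (h3 τ' h) A le_rfl)

theorem uniq {A : P} {n n' : ℕ} {ψ ψ' : List Bool → List Bool} (h : Sys T A n ψ)
    (h' : Sys T A n' ψ') : ∀ ρ : List Bool, ρ.length ≤ n → ρ.length ≤ n' → ψ ρ = ψ' ρ := by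
  intro ρ
  induction ρ using List.reverseRecOn with
  | nil => intro _ _; rw [h.1, h'.1]
  | append_singleton ρ b ih =>
    intro hn hn'
    rw [List.length_append, List.length_singleton] at hn hn'
    have e := ih (by omega) (by omega)
    obtain ⟨τ, h1, h2, h3⟩ := h.2 ρ (by omega)
    obtain ⟨τ', h1', h2', h3'⟩ := h'.2 ρ (by omega)
    rw [h1, h1', e]
    rw [e] at h2 h3
    rw [tau_eq h2 h3 h2' h3']

/-- One splitting node with the least code. -/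
theorem node {A : P} {σ : List Bool} (hA : A ∈ perfect T) (hσ : A ∈ T σ) :
    ∃ A' ≤ A, ∃ τ : List Bool, (∀ b, A' ∈ T (σ ++ τ ++ [b])) ∧
      ∀ τ' : List Bool, Encodable.encode τ' < Encodable.encode τ →
      A' ∈ (T (σ ++ τ' ++ [false]) ⊓ T (σ ++ τ' ++ [true]))ᶜ := by
  classical
  have hsplit : A ∈ (T σ ⇨ ⨆ τ, T (σ ++ τ ++ [false]) ⊓ T (σ ++ τ ++ [true])) :=
    RO.mem_iInf.1 (RO.mem_inf.1 hA).2 σ
  have h1 := RO.mem_himp.1 hsplit A le_rfl hσ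
  obtain ⟨A₀, hA₀, τ₀, hτ₀⟩ := RO.mem_iSup.1 h1 A le_rfl
  have hQ : ∃ k : ℕ, ∃ τ : List Bool, Encodable.encode τ = k ∧ ∃ A₁ ≤ A,
      A₁ ∈ T (σ ++ τ ++ [false]) ⊓ T (σ ++ τ ++ [true]) :=
    ⟨_, τ₀, rfl, A₀, hA₀, hτ₀⟩
  obtain ⟨τ, hk, A₁, hA₁, hτ⟩ := Nat.find_spec hQ
  refine ⟨A₁, hA₁, τ, fun b => ?_, fun τ' hτ' => ?_⟩
  · cases b
    · exact (RO.mem_inf.1 hτ).1
    · exact (RO.mem_inf.1 hτ).2
  · rw [RO.mem_compl]
    intro q hq hq'
    rw [hk] at hτ'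
    exact Nat.find_min hQ hτ' ⟨τ', rfl, q, hq.trans hA₁, hq'⟩

theorem nodes {A : P} {ψ : List Bool → List Bool} (hA : A ∈ perfect T) (F : List (List Bool))
    (hF : ∀ ρ ∈ F, A ∈ T (ψ ρ)) :
    ∃ A' ≤ A, ∃ τ : List Bool → List Bool, ∀ ρ ∈ F, (∀ b, A' ∈ T (ψ ρ ++ τ ρ ++ [b])) ∧
      ∀ τ' : List Bool, Encodable.encode τ' < Encodable.encode (τ ρ) →
      A' ∈ (T (ψ ρ ++ τ' ++ [false]) ⊓ T (ψ ρ ++ τ' ++ [true]))ᶜ := by
  classical
  induction F with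
  | nil => exact ⟨A, le_rfl, fun _ => [], by simp⟩
  | cons ρ₀ F ih =>
    obtain ⟨A', hA', τ, hτ⟩ := ih (fun ρ hρ => hF ρ (List.mem_cons_of_mem _ hρ))
    obtain ⟨A'', hA'', τ₁, h1, h2⟩ := node (RO.mem_down hA hA')
      (RO.mem_down (hF ρ₀ List.mem_cons_self) hA')
    refine ⟨A'', hA''.trans hA', Function.update τ ρ₀ τ₁, fun ρ hρ => ?_⟩
    by_cases he : ρ = ρ₀
    · subst he
      rw [Function.update_self]
      exact ⟨h1, h2⟩
    · rw [Function.update_of_ne he]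
      obtain ⟨h3, h4⟩ := hτ ρ ((List.mem_cons.1 hρ).resolve_left he)
      exact ⟨fun b => RO.mem_down (h3 b) hA'', fun τ' hτ' => RO.mem_down (h4 τ' hτ') hA''⟩

theorem mem_T {A : P} {n : ℕ} {ψ : List Bool → List Bool} (hA : A ∈ perfect T)
    (h : Sys T A n ψ) : ∀ ρ : List Bool, ρ.length ≤ n → A ∈ T (ψ ρ) := by
  intro ρ
  induction ρ using List.reverseRecOn with
  | nil => intro _; rw [h.1]; exact (RO.mem_inf.1 (RO.mem_inf.1 hA).1).1
  | append_singleton ρ b _ =>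
    intro hn
    rw [List.length_append, List.length_singleton] at hn
    obtain ⟨τ, h1, h2, _⟩ := h.2 ρ (by omega)
    rw [h1]
    exact h2 b

theorem ex {A : P} (hA : A ∈ perfect T) (n : ℕ) : ∃ A' ≤ A, ∃ ψ, Sys T A' n ψ := by
  induction n with
  | zero => exact ⟨A, le_rfl, fun _ => [], rfl, fun ρ hρ => absurd hρ (Nat.not_lt_zero _)⟩
  | succ n ih =>
    obtain ⟨A', hA', ψ, hψ⟩ := ih
    have hA2 : A' ∈ perfect T := RO.mem_down hA hA'
    obtain ⟨F, hF⟩ : ∃ F : List (List Bool), ∀ ρ : List Bool, ρ ∈ F ↔ ρ.length = n :=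
      ⟨(List.finite_length_eq Bool n).toFinset.toList, fun ρ => by simp⟩
    obtain ⟨A'', hA'', τ, hτ⟩ := nodes (ψ := ψ) hA2 F
      (fun ρ hρ => mem_T hA2 hψ ρ ((hF ρ).1 hρ).le)
    have hψ2 := down hA'' hψ
    refine ⟨A'', hA''.trans hA', fun ρ => if ρ.length ≤ n then ψ ρ else
      ψ ρ.dropLast ++ τ ρ.dropLast ++ [ρ.getLast?.getD false], ?_, ?_⟩
    · simp [hψ.1]
    · intro ρ hρ
      have hle : ρ.length ≤ n := Nat.lt_succ_iff.1 hρ
      simp only [hle, if_true]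
      rcases hle.lt_or_eq with h | h
      · obtain ⟨τ₁, h1, h2, h3⟩ := hψ2.2 ρ h
        refine ⟨τ₁, fun b => ?_, h2, h3⟩
        rw [if_pos (by rw [List.length_append, List.length_singleton]; omega), h1]
      · obtain ⟨h2, h3⟩ := hτ ρ ((hF ρ).2 h)
        refine ⟨τ ρ, fun b => ?_, h2, h3⟩
        rw [if_neg (by rw [List.length_append, List.length_singleton]; omega)]
        simp

end SYS_

theorem p_SYS : T_SYS := fun _ _ _ =>
  ⟨fun _ _ _ _ h hs => SYS_.down h hs, fun _ _ _ _ _ h h' => SYS_.uniq h h',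
    fun _ n hA => SYS_.ex hA n⟩

end SKS
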