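import Pool.Agent.SKS.Core
import Pool.Agent.SKS.P_IEZ
import Pool.Agent.SKS.P_SEC
import Pool.Agent.SKS.P_SP
import Pool.Agent.SKS.P_SL
import Pool.Agent.SKS.P_SYS
import Pool.Agent.SKS.P_SDH
import Pool.Agent.SKS.P_SD
import Pool.Agent.SKS.P_AL2
import Pool.Agent.SKS.P_GLU
import Pool.Agent.SKS.P_FU2
import Pool.Agent.SKS.P_LC
import Pool.Agent.H78.SacksLim

/-!
# MP_504954_lc (project SKS): the conditions form an iteration of Sacks forcing (helper22)
-/

set_option autoImplicit false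

namespace SKS

open CofSN CpB Cardinal

theorem t_SEC : T_SEC := p_SEC t_CEL
theorem t_SYS : T_SYS := p_SYS
theorem t_SP : T_SP := p_SP t_SEC t_REF
theorem t_SL : T_SL := p_SL t_SEC t_CEL
theorem t_SDH : T_SDH := p_SDH t_SYS t_OM t_CEL
theorem t_SD : T_SD := p_SD t_SDH t_SYS t_SEC t_REF t_RNG t_CEL
theorem t_AL2 : T_AL2 := p_AL2 t_ALL
theorem t_GLU : T_GLU := p_GLU t_CEL t_FIN
theorem t_FU2 : T_FU2 := p_FU2 t_LIM t_MOD
theorem t_LC : T_LC := p_LC t_FU2 t_AL2 t_GLU t_CMP

theorem isSacksIteration (W : Type) [LinearOrder W] [WellFoundedLT W] : IsSacksIteration W := by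
  obtain ⟨h1, h2, h3, h4, h5⟩ := p_IEZ W
  exact {
    le_rs := h1
    rs_mono := h2
    amalg := h3
    zero := h4
    succ_perfect := fun β p => t_SP W β p.1
    succ_le := fun β p q => t_SL W β p q
    succ_dense := fun β p T h => t_SD W β p T h
    lim_countable := fun S hS hm b hb p hp => t_LC W S hS hm b hb p hp
    lim_le := fun S hS hm p q h => lim_le S hS hm p q h
    lim_uncountable := h5 }

end SKS
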