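import Pool.Agent.SKS.Targets

/-!
# MP_504954_lc (project SKS): all selectors at once (SKS-ALL)
-/

set_option autoImplicit false

namespace SKS

variable {W : Type} [LinearOrder W] [WellFoundedLT W]

theorem ALL_ind (h_AMA : T_AMA) (h_PER : T_PER) (s s' t : W →₀ ℕ) (G : Pt W → Pt W)
    (Γ : (Pt W → Pt W) → Prop) (h1 : ∀ A K, Γ A → HS s' K → Γ (A ∘ K))
    (h2 : ∀ K E, HS t K → Sel s' t E → HS s E → ∃ L, HS s' L ∧ Γ (G ∘ K ∘ E ∘ L))
    (F : Set (Pt W → Pt W)) (hF : F.Finite) :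
    (∀ E ∈ F, Sel s' t E) → ∃ K, HS t K ∧ ∀ E ∈ F, HS s E → Γ (G ∘ K ∘ E) := by
  induction F, hF using Set.Finite.induction_on with
  | empty => exact fun _ => ⟨_, HS.id t, fun E hE => absurd hE (Set.notMem_empty E)⟩
  | insert _ _ ih =>
    rename_i E F _ _
    intro hsub
    obtain ⟨K, hK, hK'⟩ := ih fun E' hE' => hsub E' (Set.mem_insert_of_mem E hE')
    by_cases hE : HS s E
    · have hSE : Sel s' t E := hsub E (Set.mem_insert E F)
      obtain ⟨L, hL, hL'⟩ := h2 K E hK hSE hE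
      obtain ⟨M, hM, hM'⟩ := h_AMA W s' t E L hSE hL
      refine ⟨K ∘ M, hK.comp hM, fun E' hE' hE'' => ?_⟩
      rcases Set.mem_insert_iff.1 hE' with rfl | hE'
      · have h3 : G ∘ (K ∘ M) ∘ E' = G ∘ K ∘ E' ∘ L := by
          rw [Function.comp_assoc, hM']
        rw [h3]
        exact hL'
      · obtain ⟨N', hN', hN''⟩ := h_PER W s' t E' M
          (hsub E' (Set.mem_insert_of_mem E hE')) hM
        have h3 : G ∘ (K ∘ M) ∘ E' = (G ∘ K ∘ E') ∘ N' := by
          rw [Function.comp_assoc, hN'']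
          rfl
        rw [h3]
        exact h1 _ _ (hK' E' hE' hE'') hN'
    · refine ⟨K, hK, fun E' hE' hE'' => ?_⟩
      rcases Set.mem_insert_iff.1 hE' with rfl | hE'
      · exact absurd hE'' hE
      · exact hK' E' hE' hE''

theorem p_ALL (h_FIN : T_FIN) (h_AMA : T_AMA) (h_PER : T_PER) : T_ALL := by
  intro W _ _ s s' t G Γ h1 h2
  obtain ⟨K, hK, hK'⟩ := ALL_ind h_AMA h_PER s s' t G Γ h1 h2 _ (h_FIN W s' t) fun _ hE => hE
  exact ⟨K, hK, fun E hE hE' => hK' E hE hE'⟩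

end SKS
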