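import Pool.Agent.SKS.Targets

/-!
# MP_504954_lc (project SKS): T_LIM, the limit of a fusion sequence (helper50)
-/

set_option autoImplicit false

namespace SKS

open CofSN CpB Cardinal Filter Topology

section

variable {W : Type} [LinearOrder W]

/-- The maps `K k ∘ ⋯ ∘ K (k + n - 1)`. -/
def LIM_cmp (K : ℕ → Pt W → Pt W) (k : ℕ) : ℕ → Pt W → Pt W
  | 0 => fun x => x
  | n + 1 => LIM_cmp K k n ∘ K (k + n)

theorem LIM_hs {K : ℕ → Pt W → Pt W} {t : ℕ → W →₀ ℕ} (hK : ∀ k, HS (t k) (K k))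
    (ht : Monotone t) (k n : ℕ) : HS (t k) (LIM_cmp K k n) := by
  induction n with
  | zero => exact HS.id _
  | succ n ih => exact ih.comp ((hK (k + n)).mono (ht (Nat.le_add_right k n)))

theorem LIM_eq {G K : ℕ → Pt W → Pt W} (hG : ∀ k, G (k + 1) = G k ∘ K k) (k n : ℕ) :
    G (k + n) = G k ∘ LIM_cmp K k n := by
  induction n with
  | zero => rfl
  | succ n ih =>
    show G (k + n + 1) = _
    rw [hG, ih]
    rfl

theorem LIM_pk {G K : ℕ → Pt W → Pt W} {t : ℕ → W →₀ ℕ} (h0 : PK (G 0))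
    (hK : ∀ k, HS (t k) (K k)) (hG : ∀ k, G (k + 1) = G k ∘ K k) (k : ℕ) : PK (G k) := by
  induction k with
  | zero => exact h0
  | succ k ih => rw [hG]; exact ih.comp (hK k).1

/-- The values of `G l` are eventually constant. -/
theorem LIM_const {G K : ℕ → Pt W → Pt W} {t : ℕ → W →₀ ℕ} {C : Set W}
    (hK : ∀ k, HS (t k) (K k)) (hG : ∀ k, G (k + 1) = G k ∘ K k) (ht : Monotone t)
    (hC : ∀ k, SuppIn C (G k))
    (hmod : ∀ j ∈ C, ∀ m, ∃ k₀, ∀ k ≥ k₀, ∀ x y, Eqv (t k) x y → G k x j m = G k y j m)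
    (j : W) (m : ℕ) : ∃ k₀, ∀ l ≥ k₀, ∀ x, G l x j m = G k₀ x j m := by
  by_cases hj : j ∈ C
  · obtain ⟨k₀, hk₀⟩ := hmod j hj m
    refine ⟨k₀, fun l hl x => ?_⟩
    obtain ⟨n, rfl⟩ := Nat.exists_eq_add_of_le hl
    rw [LIM_eq hG k₀ n]
    exact hk₀ k₀ le_rfl _ _ ((LIM_hs hK ht k₀ n).2 x)
  · exact ⟨0, fun l _ x => by rw [(hC l).1 x j hj, (hC 0).1 x j hj]⟩

end

theorem p_LIM : T_LIM := by
  intro W _ _ G K t C hCc h0 hK hG ht hC htop hmod
  have hpk : ∀ k, PK (G k) := LIM_pk h0 hK hG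
  choose κ hκ using LIM_const hK hG ht hC hmod
  let Gw : Pt W → Pt W := fun x j m => G (κ j m) x j m
  have hval : ∀ x j m l, κ j m ≤ l → G l x j m = Gw x j m := fun x j m l hl => hκ j m l hl x
  have htend : ∀ x, Tendsto (fun l => G l x) atTop (𝓝 (Gw x)) := by
    intro x
    rw [tendsto_pi_nhds]
    intro j
    rw [tendsto_pi_nhds]
    intro m
    refine tendsto_const_nhds.congr' ?_
    filter_upwards [eventually_ge_atTop (κ j m)] with l hl
    exact (hval x j m l hl).symm
  have hcont : Continuous Gw := by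
    refine continuous_pi fun j => continuous_pi fun m => ?_
    exact (continuous_apply m).comp ((continuous_apply j).comp (hpk (κ j m)).cont)
  have hsupp : SuppIn C Gw := by
    refine ⟨fun x j hj => ?_, fun x y hxy j hj => ?_⟩
    · funext m
      show G (κ j m) x j m = x j m
      rw [(hC _).1 x j hj]
    · funext m
      show G (κ j m) x j m = G (κ j m) y j m
      rw [(hC _).2 x y hxy j hj]
  have hrange : ∀ k x, ∃ z, G k z = Gw x := by
    intro k x
    have h1 : IsClosed (Set.range (G k)) := (hpk k).isClosedEmbedding.isClosed_range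
    refine h1.mem_of_tendsto (htend x) ?_
    filter_upwards [eventually_ge_atTop k] with l hl
    obtain ⟨n, rfl⟩ := Nat.exists_eq_add_of_le hl
    rw [LIM_eq hG k n]
    exact ⟨_, rfl⟩
  choose N hN using hrange
  have hcell : ∀ k x, Eqv (t k) (N k x) x := by
    intro k x
    have h1 : Tendsto (fun n => LIM_cmp K k n x) atTop (𝓝 (N k x)) := by
      rw [(hpk k).isClosedEmbedding.isEmbedding.tendsto_nhds_iff, hN]
      refine ((htend x).comp (tendsto_add_atTop_nat k)).congr fun n => ?_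
      show G (n + k) x = G k (LIM_cmp K k n x)
      rw [add_comm, LIM_eq hG k n]
      rfl
    exact (isClopen_cell (t k) x).isClosed.mem_of_tendsto h1
      (Eventually.of_forall fun n => (LIM_hs hK ht k n).2 x)
  have hone : ∀ x y j, (∀ i ≤ j, x i = y i) → Gw x j = Gw y j := by
    intro x y j hxy
    funext m
    show G (κ j m) x j m = G (κ j m) y j m
    rw [(hpk _).dep hxy]
  have hpkw : PK Gw := by
    refine PK.mk' hcont hone ?_ ⟨C, hCc, hsupp⟩
    intro x y j hlt hj
    by_cases hjC : j ∈ C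
    · funext m
      obtain ⟨k, hk⟩ := htop j hjC (m + 1)
      have h1 : ∀ i ≤ j, G k (N k x) i = G k (N k y) i := by
        intro i hi
        rw [hN, hN]
        rcases hi.lt_or_eq with h | h
        · exact hone x y i fun i' hi' => hlt i' (hi'.trans_lt h)
        · rw [h]; exact hj
      have h2 := (hpk k).inj_le h1 j le_rfl
      rw [← hcell k x j m hk, ← hcell k y j m hk, h2]
    · rw [hsupp.1 x j hjC, hsupp.1 y j hjC] at hj
      exact hj
  have hGN : ∀ k, G k ∘ N k = Gw := fun k => funext fun x => hN k x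
  refine ⟨N, fun k => ⟨(hpk k).of_comp (by rw [hGN]; exact hpkw), hcell k⟩, fun k => ?_⟩
  rw [hGN, hGN]

end SKS
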