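import Pool.Agent.SKS.Base

/-!
# MP_504954_lc (project SKS): targets (helper22)

The docstring of each target is its complete proof. `Base.lean` has the cells (`Eqv s x y`:
`x`, `y` agree in the first `s j` bits of every coordinate `j`), uniform continuity (`unif`,
`continuous_iff_cells`), and the projection keeping maps (`PK`: `dep`, `dep_lt`, `inj_lt`,
`injective`, `isClosedEmbedding`, `comp`, `mk'`, `of_comp`, `factor`) and `HS s K` (`K` is
projection keeping and maps every `s`-cell to itself: `comp`, `mono`, `zero`, `eqv`).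
In a job `SKS-XXX` prove `theorem SKS.p_XXX : T_XXX` (file `Pool/Agent/SKS/P_XXX.lean`); every
other target may be used as a hypothesis (`theorem p_XXX (h : T_YYY) : T_XXX`).
-/

set_option autoImplicit false

namespace SKS

open CofSN CpB Cardinal

/-! ## Selectors -/

/-- SKS-SLM. MAKING SELECTORS. Let `s, t` be given and `φ : Pt W → Pt W` such that
(a) `x ≈_s y` implies `φ x ≈_t φ y`; (b) if `x i = y i` for all `i ≤ j`, then the first `t j`
bits of `φ x j` and `φ y j` agree; (c) if `x i = y i` for all `i < j`, the first `t j` bits of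
`φ x j` and `φ y j` agree, and `x j (s j + m) = y j (s j + m)` for all `m`, then `x j = y j`.
Then `E x j m := φ x j m` for `m < t j`, `E x j m := x j (s j + (m - t j))` for `m ≥ t j` is an
`(s, t)`-selector.

PROOF. `PK.mk'`: continuity: `E x j m` depends only on the `s`-cell of `x` (clopen, (a)) if
`m < t j`, and is a coordinate of `x` otherwise (`continuous_iff_cells`: given `x` and a precision
`r : W →₀ ℕ` take `u := r + s + t`: for `y ≈_u x` and `m < r j`: if `m < t j` use (a) with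
`y ≈_s x`; otherwise `s j + (m - t j) < u j`). Triangular: (b) and the tail. Injective: (c) and
the tails (`x j (s j + m) = E x j (t j + m)`). Support: `C := s.support ∪ t.support`: for
`j ∉ C` we have `s j = t j = 0`, so `E x j = x j`; if `x = y` on `C` then `x ≈_s y`, so by (a)
`φ x ≈_t φ y`, and the tails agree on `C`. Code: (a). Tail: `t j + m ≥ t j`. -/
def T_SLM : Prop := ∀ (W : Type) [LinearOrder W] [WellFoundedLT W] (s t : W →₀ ℕ)
  (φ : Pt W → Pt W), (∀ x y, Eqv s x y → Eqv t (φ x) (φ y)) →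
  (∀ x y j, (∀ i ≤ j, x i = y i) → ∀ m < t j, φ x j m = φ y j m) →
  (∀ x y j, (∀ i < j, x i = y i) → (∀ m < t j, φ x j m = φ y j m) →
    (∀ m, x j (s j + m) = y j (s j + m)) → x j = y j) →
  Sel s t (fun x j m => if m < t j then φ x j m else x j (s j + (m - t j)))

/-- SKS-CEL. The embedding of the whole space into the `t`-cell of `x`: there is a
`(0, t)`-selector `E` with `E y ≈_t x` for all `y`; more precisely
`E y j m = x j m` for `m < t j` and `E y j m = y j (m - t j)` for `m ≥ t j`.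

PROOF. `T_SLM` with `s = 0` and `φ := fun _ => x` (in (c): the tails are everything as `s = 0`);
the formula of the selector is `E` (`(0 : W →₀ ℕ) j + (m - t j) = m - t j`). -/
def T_CEL : Prop := ∀ (W : Type) [LinearOrder W] [WellFoundedLT W] (t : W →₀ ℕ) (x : Pt W),
  Sel 0 t (fun y j m => if m < t j then x j m else y j (m - t j))

/-- SKS-PAD. PADDING. For `t ≤ u` the map `M x j m := x j m` for `m < t j`, `false` for
`t j ≤ m < u j`, `x j (t j + (m - u j))` for `m ≥ u j` is in `HS t`.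

PROOF. `T_SLM` for `(t, u)` with `φ x j m := if m < t j then x j m else false` (for (c): the
first `t j` bits agree, as `t j ≤ u j`, and the rest too) shows that
`E x j m = if m < u j then φ x j m else x j (t j + (m - u j))` is projection keeping (it is a
`(t, u)`-selector); it preserves the first `t j` bits. -/
def T_PAD : Prop := ∀ (W : Type) [LinearOrder W] [WellFoundedLT W] (t u : W →₀ ℕ), t ≤ u →
  HS t (fun (x : Pt W) j m => if m < u j then (if m < t j then x j m else false)
    else x j (t j + (m - u j)))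

/-- SKS-RNG. Let `E` be an `(s, t)`-selector. If `y ≈_t E x` then `y = E z` where
`z j m := x j m` for `m < s j`, `z j m := y j (t j + (m - s j))` for `m ≥ s j`; and `z ≈_s x`.

PROOF. `z ≈_s x` is clear, so `E z ≈_t E x ≈_t y`: the first `t j` bits of `E z j` and `y j`
agree; for `m ≥ t j`, `m = t j + n`: `E z j m = z j (s j + n) = y j (t j + n) = y j m`. -/
def T_RNG : Prop := ∀ (W : Type) [LinearOrder W] (s t : W →₀ ℕ) (E : Pt W → Pt W),
  Sel s t E → ∀ x y : Pt W, Eqv t y (E x) →
    Eqv s (fun j m => if m < s j then x j m else y j (t j + (m - s j))) x ∧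
    E (fun j m => if m < s j then x j m else y j (t j + (m - s j))) = y

/-- SKS-PER. PERSISTENCE. Let `E` be an `(s, t)`-selector and `N ∈ HS t`. Then there is
`N' ∈ HS s` with `N ∘ E = E ∘ N'`.

PROOF. For every `x`: `N (E x) ≈_t E x`, so by `T_RNG` `N (E x) = E (N' x)` with
`N' x ≈_s x` (choose `N' x`). `E ∘ N' = N ∘ E` is projection keeping, hence `N'` is
(`PK.of_comp`). -/
def T_PER : Prop := ∀ (W : Type) [LinearOrder W] (s t : W →₀ ℕ) (E N : Pt W → Pt W),
  Sel s t E → HS t N → ∃ N', HS s N' ∧ N ∘ E = E ∘ N'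

/-- SKS-AMA. AMALGAMATION. Let `E` be an `(s, t)`-selector and `L ∈ HS s`. Then there is
`M ∈ HS t` with `M ∘ E = E ∘ L`.

PROOF. Say that `y` is selected up to `j` if there is `x` with `E x i = y i` for all `i ≤ j`.
Put `M y j := E (L x) j` for such an `x` if `y` is selected up to `j`, `M y j := y j` otherwise.
(1) Well defined: if `E x`, `E x'` both agree with `y` up to `j`, then `x`, `x'` agree up to `j`
(`E` keeps), hence so do `E (L x)`, `E (L x')`.
(2) Selectedness up to `j` depends only on the first `t i` bits of `y i` for `i ≤ j`: if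
`E x i = y i` (`i ≤ j`) and the first `t i` bits of `y' i` and `y i` agree for all `i ≤ j`, let
`z i := y' i` for `i ≤ j`, `z i := E x i` for `i > j`. Then `z ≈_t E x`, so `z = E x'` by
`T_RNG`, and `E x' i = y' i` for `i ≤ j`.
(3) `M y j` depends only on `y i`, `i ≤ j`: clear.
(4) `M y ≈_t y`: if `y` is selected up to `j` by `x` then `L x ≈_s x` so `E (L x) ≈_t E x`, and
`E x j = y j`; otherwise `M y j = y j`.
(5) Injectivity: let `y i = y' i` for `i < j` and `M y j = M y' j`. By (4) the first `t j` bits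
of `y j` and `y' j` agree, so by (2) `y` is selected up to `j` iff `y'` is. If both are not:
`y j = M y j = M y' j = y' j`. If both are, by `x` and `x'`: `x`, `x'` agree below `j` (as `E x`,
`E x'` do), so `E (L x)`, `E (L x')` agree below `j` and also at `j`; as `E ∘ L` keeps, `x`, `x'`
agree up to `j`, so `y j = E x j = E x' j = y' j`.
(6) Continuity (`continuous_iff_cells`): let `y` and `r` be given (enlarge `r` so that `t ≤ r`).
Only the `j` in the finite set `r.support` matter (for `r j = 0` nothing is to show), so it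
suffices to find for each `j` some `u_j` with: `y' ≈_{u_j} y` implies that the first `r j` bits
of `M y' j` and `M y j` agree (take the supremum of the `u_j`, `j ∈ r.support`). If `y` is not
selected up to `j` take `u_j := r` (`t ≤ r`, then `y'` is not selected by (2)). If `y` is selected
up to `j` by `x`: replacing `y` by `z` (= `y` up to `j`, `E x` above) we have `z = E x`. Put
`D w i m := x i m` for `m < s i`, `w i (t i + (m - s i))` for `m ≥ s i` (a continuous function of
`w ∈ Pt W`); for `y' ≈_t y` let `z' := y'` up to `j`, `E x` above; `z' ≈_t E x` so by `T_RNG`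
`z' = E (D z')`, hence `M y' j = E (L (D z')) j`, and `E (L (D w)) j` depends only on `w i`,
`i ≤ j`: `M y' j = E (L (D y')) j` for all `y' ≈_t y`, also for `y' = y`. As `w ↦ E (L (D w))` is
continuous there is `u_j ≥ t` as needed.
(7) Support: let `C` be countable containing the supports of `E`, `L` (`PK.supp`, `SuppIn.mono`)
and `s.support`, `t.support`. For `j ∉ C`: `M y j = y j` (if selected by `x`:
`E (L x) j = L x j = x j = E x j = y j`). If `y = y'` on `C` and `j ∈ C`: if `y` is selected up to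
`j` by `x` then `y'` is selected by (2) (for `i ∉ C`, `t i = 0`), by `x'` say, and may be chosen
so that `x = x'` on `C`: with `z := y'` up to `j`, `E x` above, and `x'` from `T_RNG`, for
`i ∈ C`, `i ≤ j` `x' i` is computed from `x i` and `y' i = y i = E x i`, and
`x i m = E x i (t i + (m - s i))` for `m ≥ s i` (`Sel.tail`), so `x' i = x i`; for `i > j`
similarly. So `L x = L x'` on `C` and `E (L x) = E (L x')` on `C`.
(8) `M ∘ E = E ∘ L`: `E x` is selected up to `j` by `x`. -/
def T_AMA : Prop := ∀ (W : Type) [LinearOrder W] [WellFoundedLT W] (s t : W →₀ ℕ)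
  (E L : Pt W → Pt W), Sel s t E → HS s L → ∃ M, HS t M ∧ M ∘ E = E ∘ L

/-- SKS-FIN. There are only finitely many `(s, t)`-selectors.

PROOF. Let `Z_s := {x : Pt W | ∀ j m, s j ≤ m → x j m = false}`. It is finite: `x ∈ Z_s` is
determined by the finitely many bits `x j m`, `j ∈ s.support`, `m < s j` (inject `Z_s` into
`(Σ j : s.support, Fin (s j)) → Bool` or `s.support → Fin n → Bool` with `n` the maximum of
`s`). Let `tr_t : Pt W → Z_t` be the truncation (`x j m` for `m < t j`, `false` otherwise). The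
map `E ↦ (z ↦ tr_t (E z))`, from the selectors to the finite type `Z_s → Z_t`, is injective: if
`tr_t (E z) = tr_t (E' z)` for all `z ∈ Z_s` then for every `x` with truncation `z = tr_s x` we
have `x ≈_s z`, so `E x ≈_t E z ≈_t E' z ≈_t E' x`, and the tails of `E x` and `E' x` are those
of `x`: `E x = E' x`. -/
def T_FIN : Prop := ∀ (W : Type) [LinearOrder W] (s t : W →₀ ℕ),
  {E : Pt W → Pt W | Sel s t E}.Finite

/-- SKS-ALL. ALL SELECTORS AT ONCE. Let `s ≤ t`, `s' : W →₀ ℕ`, `G` projection keeping, and let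
`Γ` be a property of maps such that `Γ A` implies `Γ (A ∘ K)` for `K ∈ HS s'`. Suppose that for all
`K ∈ HS t` and all `(s', t)`-selectors `E` with `E ∈ HS s` there is `L ∈ HS s'` with
`Γ (G ∘ K ∘ E ∘ L)`. Then there is `K ∈ HS t` such that `Γ (G ∘ K ∘ E)` for all
`(s', t)`-selectors `E ∈ HS s`.

PROOF. Induction over finite subsets `F` of the finite (`T_FIN`) set of the selectors: there is
`K ∈ HS t` such that `Γ (G ∘ K ∘ E)` for all `E ∈ F`. `F = ∅`: `K = id`. Step `F ∪ {E}`: let `K`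
be as given for `F`, take `L ∈ HS s'` with `Γ (G ∘ K ∘ E ∘ L)` and by `T_AMA` `M ∈ HS t` with
`M ∘ E = E ∘ L`. Then `K ∘ M ∈ HS t` works: `G ∘ K ∘ M ∘ E = G ∘ K ∘ E ∘ L`, and for `E' ∈ F`:
`M ∘ E' = E' ∘ N'` with `N' ∈ HS s'` (`T_PER`), so `G ∘ (K ∘ M) ∘ E' = (G ∘ K ∘ E') ∘ N'`. -/
def T_ALL : Prop := ∀ (W : Type) [LinearOrder W] [WellFoundedLT W] (s s' t : W →₀ ℕ)
  (G : Pt W → Pt W) (Γ : (Pt W → Pt W) → Prop),
  (∀ A K, Γ A → HS s' K → Γ (A ∘ K)) →
  (∀ K E, HS t K → Sel s' t E → HS s E → ∃ L, HS s' L ∧ Γ (G ∘ K ∘ E ∘ L)) →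
  ∃ K, HS t K ∧ ∀ E, Sel s' t E → HS s E → Γ (G ∘ K ∘ E)

/-- SKS-SPL. SPLITTING. Let `L ∈ HS s`, `i ∈ W` and `s' := s + single i 1`. There is `N` such
that for all `t` with `s' ≤ t` and `N ≤ t i` there are an `(s', t)`-selector `E ∈ HS s` and
`L' ∈ HS s'` with `range (E ∘ L') ⊆ range L`.

PROOF. Let `z x j m := x j m` for `m < s' j`, `false` for `m ≥ s' j` (truncation; `z x` depends
only on the `s'`-cell of `x`, and takes only finitely many values, see `T_FIN`; here it is enough
that for the finitely many pairs `z x`, `z y` a bound exists). `N`: for all `x`, `y` with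
`z x k = z y k` for `k < i` and `z x i ≠ z y i` we have `L (z x) k = L (z y) k` for `k < i` and,
since `L` keeps, `L (z x) i ≠ L (z y) i`; let `N` be larger than the first bit where they
differ, for all of the finitely many pairs of values of `z`.
Let `t` be given. The truncation `z` takes finitely many values and `L` is continuous, so
(`unif`) there is `u ≥ s'` with: `y ≈_u y'` implies `L y ≈_t L y'`. Let `M` be the padding map of
`T_PAD` for `(s', u)`: `M ∈ HS s'` and `M x ≈_u z x`, so `L (M x) ≈_t L (z x)`.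
`E`: by `T_SLM` for `(s', t)` and `φ x := L (z x)` the map
`E x j m := L (z x) j m` for `m < t j`, `x j (s' j + (m - t j))` for `m ≥ t j` is an
`(s', t)`-selector: (a) clear, even `φ x = φ y`; (b) if `x`, `y` agree up to `j` then so do
`z x`, `z y` and (as `L` keeps) `L (z x)`, `L (z y)`; (c) let `x`, `y` agree below `j`, let the
first `t j` bits of `L (z x) j`, `L (z y) j` and the tails beyond `s' j` of `x j`, `y j` agree. For
`m < s j` (so `m < t j`): `x j m = z x j m = L (z x) j m` as `L ∈ HS s`, and the same for `y`; so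
the first `s j` bits of `x j`, `y j` agree. If `j ≠ i` then `s' j = s j` and `x j = y j`. If
`j = i` and `x i ≠ y i` then they differ at the bit `s i < s' i`, so `z x i ≠ z y i`, and
`z x`, `z y` agree below `i`; by the choice of `N` `L (z x) i` and `L (z y) i` differ at a bit
`< N ≤ t i`, a contradiction.
`E ∈ HS s`: for `m < s j ≤ t j`: `E x j m = L (z x) j m = z x j m = x j m`.
`L'`: for every `x`, `L (M x) ≈_t L (z x) ≈_t E x` (the first `t j` bits of `E x j` are those of
`L (z x) j`), so by `T_RNG` `L (M x) = E (L' x)` for some `L' x ≈_{s'} x`. `E ∘ L' = L ∘ M` is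
projection keeping, so `L'` is (`PK.of_comp`), `L' ∈ HS s'`, and
`range (E ∘ L') = range (L ∘ M) ⊆ range L`. -/
def T_SPL : Prop := ∀ (W : Type) [LinearOrder W] [WellFoundedLT W] (s : W →₀ ℕ) (i : W)
  (L : Pt W → Pt W), HS s L → ∃ N : ℕ, ∀ t : W →₀ ℕ, s + Finsupp.single i 1 ≤ t → N ≤ t i →
    ∃ E L', Sel (s + Finsupp.single i 1) t E ∧ HS s E ∧ HS (s + Finsupp.single i 1) L' ∧
      Set.range (E ∘ L') ⊆ Set.range L

/-! ## Fusion -/

/-- SKS-MOD. MODULUS BY PADDING. Let `G` be continuous and `t`, `r` given. There is `M ∈ HS t`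
such that `x ≈_t y` implies `G (M x) ≈_r G (M y)`.

PROOF. By `unif` there is `u₀` with `x ≈_{u₀} y → G x ≈_r G y`; let `u := t ⊔ u₀` (or `t + u₀`).
Let `M` be the padding map of `T_PAD` for `(t, u)`. If `x ≈_t y` then `M x ≈_u M y` (the first
`u j` bits of `M x j` are the first `t j` bits of `x j` and then `false`). -/
def T_MOD : Prop := ∀ (W : Type) [LinearOrder W] [WellFoundedLT W] (t r : W →₀ ℕ)
  (G : Pt W → Pt W), Continuous G → ∃ M, HS t M ∧ ∀ x y, Eqv t x y → Eqv r (G (M x)) (G (M y))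

/-- SKS-LIM. LIMIT OF A FUSION SEQUENCE. Let `G k`, `K k` be maps with `G 0` projection keeping,
`K k ∈ HS (t k)`, `G (k+1) = G k ∘ K k`, `t` monotone, `C` a countable set with all `G k` living
on `C`, `t k j → ∞` for all `j ∈ C`, and suppose: (MOD) for every `j ∈ C` and `m` there is `k₀`
such that for all `k ≥ k₀`: `x ≈_{t k} y` implies `G k x j m = G k y j m`. Then there are maps
`N k ∈ HS (t k)` with `G k ∘ N k = G 0 ∘ N 0` for all `k`.

PROOF. All `G k` are projection keeping (`PK.comp`, induction). For `k ≤ l` let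
`N_{k,l} := K k ∘ ⋯ ∘ K (l-1) ∈ HS (t k)`, so `G l = G k ∘ N_{k,l}` (induction on `l`; use
`HS.mono`).
For all `x`, `j ∈ C`, `m` and `k₀` as in (MOD): `G l x j m = G k₀ x j m` for all `l ≥ k₀`, since
`G l x = G k₀ (N_{k₀,l} x)` and `N_{k₀,l} x ≈_{t k₀} x`. Let `G_ω x j m` be this value for `j ∈ C`
and `G_ω x j := x j = G l x j` for `j ∉ C`. So for all `j`, `m` there is `k₀` such that
`G l x j m = G_ω x j m` for all `l ≥ k₀` and ALL `x`; hence `G_ω` is continuous
(`continuous_iff_cells`: for a precision `r` finitely many `(j, m)` matter, take `l` good for all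
of them and use the continuity of `G l`), `G l x → G_ω x`, and `SuppIn C G_ω`.
Range: for each `k`, `G_ω x ∈ range (G k)`: `range (G k)` is closed (`isClosedEmbedding`) and
contains `G l x` for `l ≥ k`. Let `N k x` be the point with `G k (N k x) = G_ω x`. Since `G k` is
an embedding and `G k (N_{k,l} x) = G l x → G_ω x = G k (N k x)` we have `N_{k,l} x → N k x` as
`l → ∞` (`Topology.IsEmbedding.tendsto_nhds_iff`), so `N k x ≈_{t k} x` (the cell is closed).
`G_ω` is projection keeping (`PK.mk'`): if `x`, `y` agree up to `j` then `G l x j = G l y j` for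
all `l`, so `G_ω x j = G_ω y j`. Let `x`, `y` agree below `j` and `G_ω x j = G_ω y j`; we show
`x j m = y j m`. If `j ∉ C` then `x j = G_ω x j`. If `j ∈ C` choose `k` with `m < t k j`.
`G_ω x`, `G_ω y` agree below `j` (first part) and at `j`, so `G k (N k x)`, `G k (N k y)` agree
up to `j`, so `N k x`, `N k y` agree up to `j` (`PK.inj_le`), and
`x j m = N k x j m = N k y j m = y j m` as `N k x ≈_{t k} x`.
Finally `G k ∘ N k = G_ω` is projection keeping, so `N k` is (`PK.of_comp`), `N k ∈ HS (t k)`. -/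
def T_LIM : Prop := ∀ (W : Type) [LinearOrder W] [WellFoundedLT W] (G K : ℕ → Pt W → Pt W)
  (t : ℕ → W →₀ ℕ) (C : Set W), C.Countable → PK (G 0) → (∀ k, HS (t k) (K k)) →
  (∀ k, G (k + 1) = G k ∘ K k) → Monotone t → (∀ k, SuppIn C (G k)) →
  (∀ j ∈ C, ∀ n, ∃ k, n ≤ t k j) →
  (∀ j ∈ C, ∀ m, ∃ k₀, ∀ k ≥ k₀, ∀ x y, Eqv (t k) x y → G k x j m = G k y j m) →
  ∃ N : ℕ → Pt W → Pt W, (∀ k, HS (t k) (N k)) ∧ ∀ k, G k ∘ N k = G 0 ∘ N 0

/-- SKS-FUS. THE FUSION THEOREM. Let `S k G t` be a property of projection keeping maps `G` and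
`t : W →₀ ℕ` such that (i) `S 0 H t₀`; (ii) `S k G t` implies `S k (G ∘ K) t` for `K ∈ HS t`;
(iii) if `S k G t` then for every `j ∈ W` there is `K ∈ HS t` with
`S (k+1) (G ∘ K) (t + single j 1)`. Then for every `i` there are `N ∈ HS t₀` and a monotone
sequence `τ` with `τ 0 = t₀`, `τ k i → ∞` and `S k (H ∘ N) (τ k)` for all `k`.

PROOF. Construct (dependent choice over `k`, the state being `(G k, t k, e)` where
`e : ℕ → ℕ → W` and only `e a`, `a ≤ k`, matter) maps `G k` projection keeping, `t k`, and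
`e k : ℕ → W` with: `G 0 = H`, `t 0 = t₀`, `S k (G k) (t k)`; the range of `e k` contains `i` and
is a set on which `G k` lives (the support `C` of `G k`, `PK.supp`, is countable, so
`C ∪ {i} = range (e k)` for some `e k`). Step: let `(a, b) := Nat.unpair k` (so `a ≤ k`) and
`j := e a b`, `t (k+1) := t k + single j 1`. By (iii) take `K' ∈ HS (t k)` with
`S (k+1) (G k ∘ K') (t (k+1))`. Let `r k : W →₀ ℕ` be the precision
`r k := ∑_{a ≤ k, b ≤ k} single (e a b) k`. By `T_MOD` there is `M ∈ HS (t (k+1))` such that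
`x ≈_{t (k+1)} y` implies `G k (K' (M x)) ≈_{r k} G k (K' (M y))`. Put `K k := K' ∘ M ∈ HS (t k)`
(`HS.mono`) and `G (k+1) := G k ∘ K k`; by (ii) `S (k+1) (G (k+1)) (t (k+1))`.
Let `C := {e a b | a b}`, a countable set. All `G k` live on `C`. For `j = e a b ∈ C` and every
`n`: `t k j → ∞`, as `j` is incremented at every stage `k` with `Nat.unpair k = (a, b')`,
`e a b' = j`; if each `e a` is chosen to take every value infinitely often (replace `e a` by
`e a ∘ Prod.fst ∘ Nat.unpair`) there are infinitely many such `k`. (MOD) of `T_LIM`: for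
`j = e a b` and `m` take `k₀ := max a b + m + 2`: for `k ≥ k₀` the precision `r (k-1)` satisfies
`r (k-1) j ≥ k - 1 > m`.
`T_LIM` gives `N k ∈ HS (t k)` with `G k ∘ N k = H ∘ N 0`. Let `N := N 0`, `τ := t`. By (ii)
`S k (G k) (t k)` implies `S k (G k ∘ N k) (t k)`, which is `S k (H ∘ N) (τ k)`. As `i ∈ C`,
`τ k i → ∞`. -/
def T_FUS : Prop := ∀ (W : Type) [LinearOrder W] [WellFoundedLT W]
  (S : ℕ → (Pt W → Pt W) → (W →₀ ℕ) → Prop) (H : Pt W → Pt W) (t₀ : W →₀ ℕ) (i : W), PK H →
  S 0 H t₀ →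
  (∀ k G t K, PK G → S k G t → HS t K → S k (G ∘ K) t) →
  (∀ k G t j, PK G → S k G t → ∃ K, HS t K ∧ S (k + 1) (G ∘ K) (t + Finsupp.single j 1)) →
  ∃ N, HS t₀ N ∧ ∃ τ : ℕ → W →₀ ℕ, τ 0 = t₀ ∧ Monotone τ ∧ (∀ n, ∃ k, n ≤ τ k i) ∧
    ∀ k, S k (H ∘ N) (τ k)

/-! ## The decision theorem -/

/-- `H` is `s`-good for the predicates `D δ`: after every step in `HS s`, uncountably many `δ`
can be decided by a further step in `HS s`. -/
def Good {W Ω : Type} [LinearOrder W] (D : Ω → (Pt W → Pt W) → Prop) (s : W →₀ ℕ)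
    (H : Pt W → Pt W) : Prop :=
  ∀ K, HS s K → ¬ {δ | ∃ L, HS s L ∧ D δ (H ∘ K ∘ L)}.Countable

/-- SKS-EXT. EXTENSION OF GOODNESS. Let `D δ` (`δ ∈ Ω`) be abstract decision predicates
(`Dec`). If `H` is `s`-good then there is `K ∈ HS s` such that `H ∘ K` is
`(s + single i 1)`-good.

PROOF. Let `s' := s + single i 1` and suppose not. For a map `A` let
`Γ A :⟺ {δ | ∃ L ∈ HS s', D δ (A ∘ L)}` is countable. `Γ A` implies `Γ (A ∘ K)` for `K ∈ HS s'`
(the set gets smaller, `HS.comp`). By assumption (N): for every `K ∈ HS s` there is `K' ∈ HS s'`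
with `Γ (H ∘ K ∘ K')` (`¬ Good` unfolded).
Apply `T_FUS` to the map `id` in place of `H`, `t₀ := s`, the coordinate `i`, and
`S k G t :⟺ s ≤ t ∧ HS s G ∧ (k ≥ 1 → ∀ E, Sel s' t E → HS s E → Γ (H ∘ G ∘ E))`.
(i) clear. (ii) Let `K ∈ HS t`: `G ∘ K ∈ HS s` (`HS.mono`); for a selector `E`,
`K ∘ E = E ∘ K'` with `K' ∈ HS s'` (`T_PER`), so `H ∘ (G ∘ K) ∘ E = (H ∘ G ∘ E) ∘ K'` has `Γ`.
(iii) Let `S k G t`, `t' := t + single j 1`. Apply `T_ALL` with `s, s', t'` and the map
`H ∘ G` in place of `G`: for `K ∈ HS t'` and a selector `E ∈ HS s` we have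
`G ∘ K ∘ E ∈ HS s`, so (N) gives `L ∈ HS s'` with `Γ (H ∘ G ∘ K ∘ E ∘ L)`. So there is
`K ∈ HS t'` (hence in `HS t`) such that `Γ (H ∘ G ∘ K ∘ E)` for all `(s', t')`-selectors
`E ∈ HS s`: `S (k+1) (G ∘ K) t'`.
So there are `N ∈ HS s` and `τ` with `S k (id ∘ N) (τ k)` for all `k`. For each `k ≥ 1` and each
of the finitely many (`T_FIN`) `(s', τ k)`-selectors `E ∈ HS s` the set
`{δ | ∃ L ∈ HS s', D δ (H ∘ N ∘ E ∘ L)}` is countable; let `Γ*` be the (countable) union of all
of these. As `H` is `s`-good (with `K := N`) there are `δ ∉ Γ*` and `L ∈ HS s` with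
`D δ (H ∘ N ∘ L)`. Let `N₀` be the bound of `T_SPL` for `L`; choose `k ≥ 1` with
`τ k i ≥ max N₀ (s i + 1)` (`τ` is monotone); then `s' ≤ τ k` (as `s = τ 0 ≤ τ k`). `T_SPL` gives
a selector `E ∈ HS s` and `L' ∈ HS s'` with `range (E ∘ L') ⊆ range L`. So
`range (H ∘ N ∘ E ∘ L') ⊆ range (H ∘ N ∘ L)` and `D δ (H ∘ N ∘ E ∘ L')` by `Dec.down`: `δ ∈ Γ*`, a
contradiction. (`H` is projection keeping.) -/
def T_EXT : Prop := ∀ (W Ω : Type) [LinearOrder W] [WellFoundedLT W]
  (D : Ω → (Pt W → Pt W) → Prop), (∀ δ, Dec (D δ)) → ∀ (s : W →₀ ℕ) (i : W) (H : Pt W → Pt W),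
  PK H → Good D s H → ∃ K, HS s K ∧ Good D (s + Finsupp.single i 1) (H ∘ K)

/-- SKS-STAR. THE DECISION THEOREM. Let `D δ` (`δ ∈ Ω`, `Ω` uncountable) be abstract decision
predicates. For every `H` there is `K` such that `D δ (H ∘ K)` for infinitely many `δ`.

PROOF. `Good D s G` implies `Good D s (G ∘ K)` for `K ∈ HS s` (`HS.comp`). `H` is `0`-good: for
all `K` and all `δ` there is `L` with `D δ (H ∘ K ∘ L)` (`Dec.dense`), and `Ω` is uncountable.
If `W` is empty, all maps are the identity, and `D δ (H ∘ K)` for one `K` for every `δ`: all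
functions `Pt W → Pt W` are equal; so assume `i ∈ W`.
Apply `T_FUS` with `t₀ := 0`, `i` and
`S k G t :⟺ Good D t G ∧ ∃ F : Finset Ω, F.card = k ∧ ∀ δ ∈ F, D δ G`.
(i) `F = ∅`. (ii) above and `Dec.comp`. (iii) Let `S k G t` with `F`. Goodness (with `K := id`)
gives `δ ∉ F` and `L ∈ HS t` with `D δ (G ∘ L)`. `G ∘ L` is `t`-good; by `T_EXT` there is
`K ∈ HS t` such that `G ∘ L ∘ K` is `(t + single j 1)`-good, and `D δ' (G ∘ L ∘ K)` for
`δ' ∈ F ∪ {δ}` (`Dec.comp`). So `L ∘ K` is as needed.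
`T_FUS` gives `N` such that for every `k` there are at least `k` elements `δ` with
`D δ (H ∘ N)`; so `{δ | D δ (H ∘ N)}` is infinite. -/
def T_STAR : Prop := ∀ (W Ω : Type) [LinearOrder W] [WellFoundedLT W]
  (D : Ω → (Pt W → Pt W) → Prop), (∀ δ, Dec (D δ)) → ¬ Countable Ω → ∀ (H : Pt W → Pt W),
  PK H → ∃ K, PK K ∧ {δ | D δ (H ∘ K)}.Infinite

/-- SKS-OM. FINITELY MANY CELLS. Let `D m` (`m ∈ ℕ`) be abstract decision predicates. For every
`H` there is `N` such that for every `m` there is `t` with `D m (H ∘ N ∘ E)` for all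
`(0, t)`-selectors `E`.

PROOF. If `W` is empty all maps are equal and `t = 0` and `Dec.dense` do it. Let `i ∈ W`. Apply
`T_FUS` with `t₀ := 0`, `i` and
`S k G t :⟺ ∀ m < k, ∃ t' ≤ t, ∀ E, Sel 0 t' E → D m (G ∘ E)`.
(i) clear. (ii) Let `K ∈ HS t`, `m < k`, `t'` as given, `E` a `(0, t')`-selector: `K ∈ HS t'`, so
`K ∘ E = E ∘ K'` (`T_PER`) and `D m (G ∘ E ∘ K')` by `Dec.comp` (`K'` is projection keeping).
(iii) Let `S k G t`. `T_ALL` with `s := 0`, `s' := 0`, `t`, `G`,
`Γ A := PK A ∧ D k A` (for `K ∈ HS t` and a `(0, t)`-selector `E` there is `L` with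
`D k (G ∘ K ∘ E ∘ L)`, `Dec.dense`; `HS 0 L` by `HS.zero`) gives `K ∈ HS t` with
`D k (G ∘ K ∘ E)` for all `(0, t)`-selectors `E` (these are in `HS 0`). For `m < k` use (ii). So
`S (k+1) (G ∘ K) (t + single j 1)`, with `t' := t` for `m = k`.
The `N` from `T_FUS`: for `m` use `S (m+1) (H ∘ N) (τ (m+1))`. -/
def T_OM : Prop := ∀ (W : Type) [LinearOrder W] [WellFoundedLT W]
  (D : ℕ → (Pt W → Pt W) → Prop), (∀ m, Dec (D m)) → ∀ (H : Pt W → Pt W),
  PK H → ∃ N, PK N ∧ ∀ m, ∃ t : W →₀ ℕ, ∀ E, Sel 0 t E → D m (H ∘ N ∘ E)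

/-- SKS-REF. LOCAL REFINEMENT. For projection keeping `R`, `x` and `t` there is `u` such that the
cell embedding `E` of the `u`-cell of `x` (see `T_CEL`) satisfies `R (E y) ≈_t R x` for all `y`;
so there is a projection keeping `E` with `E y ≈_u x` and `R (E y) ≈_t R x` for all `y`.

PROOF. `continuous_iff_cells` gives `u`; `T_CEL`. -/
def T_REF : Prop := ∀ (W : Type) [LinearOrder W] [WellFoundedLT W] (R : Pt W → Pt W) (x : Pt W)
  (t : W →₀ ℕ), PK R → ∃ E, PK E ∧ ∀ y, Eqv t (R (E y)) (R x)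

/-- SKS-CMP. Every extension of `G` is compatible with `G ∘ E` for some `(0, t)`-selector `E`:
for projection keeping `G`, `G'` with `range G' ⊆ range G` and every `t` there are a
`(0, t)`-selector `E` and projection keeping maps `A`, `A'` with
`G' ∘ A' = G ∘ E ∘ A`.

PROOF. `G' = G ∘ R` (`PK.factor`). Take any point `x` (e.g. all `false`), let `E` be the cell
embedding (`T_CEL`) of the `t`-cell of `R x` and `A'` from `T_REF` with `R (A' y) ≈_t R x` for all
`y`. By `T_RNG` (with the selector `E`, as `R (A' y) ≈_t R x ≈_t E y`) every `R (A' y)` is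
`E (A y)` for some `A y`; `E ∘ A = R ∘ A'` is projection keeping, so `A` is (`PK.of_comp`).
`G' ∘ A' = G ∘ R ∘ A' = G ∘ E ∘ A`. -/
def T_CMP : Prop := ∀ (W : Type) [LinearOrder W] [WellFoundedLT W] (G G' : Pt W → Pt W)
  (t : W →₀ ℕ), PK G → PK G' → Set.range G' ⊆ Set.range G →
  ∃ E A A', Sel 0 t E ∧ PK A ∧ PK A' ∧ G' ∘ A' = G ∘ E ∘ A

/-- SKS-HLF. TWO HALVES OF THE COORDINATE `α`. Let `H` be projection keeping and `α ∈ W`. There
are a bit `k` and projection keeping `E₀`, `E₁` with `E₀ y i = E₁ y i` for all `i < α` and all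
`y`, and `H (E₀ y) α k = false`, `H (E₁ y) α k = true` for all `y`.

PROOF. Let `x₀` be the point which is `false` everywhere and `x₁` the point which is `true` in
the coordinate `α` and `false` elsewhere. They agree below `α` but not at `α`, so
`H x₀ α ≠ H x₁ α` (if they were equal then `H x₀`, `H x₁` agree up to `α`, as they agree below
`α`, so `x₀ α = x₁ α` by `PK.inj_le`); let `k` be a bit where they differ, w.l.o.g.
`H x₀ α k = false`, `H x₁ α k = true` (otherwise exchange `x₀` and `x₁`). By continuity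
(`continuous_iff_cells` with the precision `single α (k+1)`) there is `u` such that
`H y α k = H x₀ α k` for `y ≈_u x₀` and `H y α k = H x₁ α k` for `y ≈_u x₁` (take the sum of two
`u`s). Let `E₀`, `E₁` be the cell embeddings of `T_CEL` for the `u`-cells of `x₀`, `x₁`; the
formulas agree in the coordinates `i ≠ α`. -/
def T_HLF : Prop := ∀ (W : Type) [LinearOrder W] [WellFoundedLT W] (H : Pt W → Pt W) (α : W),
  PK H → ∃ k : ℕ, ∃ E₀ E₁, PK E₀ ∧ PK E₁ ∧ (∀ y, ∀ i < α, E₀ y i = E₁ y i) ∧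
    (∀ y, H (E₀ y) α k = false) ∧ ∀ y, H (E₁ y) α k = true

/-! ## Restriction and closing off -/

/-- SKS-RST. THE RESTRICTION. Let `H` be projection keeping. Then `rst α H` (the map `H` below
`α`, the identity from `α` on) is projection keeping and supported below `α`, and
`range H ⊆ range (rst α H)`. Moreover for every projection keeping `R` supported below `α`,
`range (H ∘ R) ⊆ range (rst α H ∘ R)`.

PROOF. `PK.mk'`: continuity is clear coordinatewise (`continuous_pi`, the condition `j < α` does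
not depend on the point). Triangular and injective: clear from those of `H` (`PK.dep`, `PK.inj_le`,
note that for `j < α` all `i < j` are `< α`, and that `rst α H x i = x i` for `i ≥ α`); for
injectivity at `j < α`: `H x`, `H y` agree below `j` (as `x`, `y` do) and at `j`. Support: the same
set `C`: for `j ∉ C` both cases give `x j`; on `C`: if `x`, `y` agree on `C` then for `j ∈ C` both
cases are clear. `Bel`: by definition.
Range: `H x = rst α H z` with `z := glue α x (H x)`: below `α`, `H z = H x` since `z`, `x` agree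
below `α`; from `α` on `z j = H x j`. `range (H ∘ R) ⊆ range (rst α H ∘ R)`: let `x` be given and
`z := glue α x (H (R x))`. As `R` is supported below `α` and keeps, `R z i = R x i` for `i < α` and
`R z j = z j = H (R x) j` for `j ≥ α`; so `rst α H (R z)` is `H (R x)`: below `α`,
`H (R z) j = H (R x) j`; from `α` on `R z j = H (R x) j`. -/
def T_RST : Prop := ∀ (W : Type) [LinearOrder W] [WellFoundedLT W] (α : W) (H : Pt W → Pt W),
  PK H → PK (rst α H) ∧ Bel α (rst α H) ∧ Set.range H ⊆ Set.range (rst α H) ∧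
    ∀ R, PK R → Bel α R → Set.range (H ∘ R) ⊆ Set.range (rst α H ∘ R)

/-- SKS-CNT. COUNTING. If `#(Iio α) ≤ 2^ℵ₀` then there are at most `2^ℵ₀` projection keeping
maps supported below `α`.

PROOF. Let `H` be such a map, living on the countable set `C` (`PK.supp`); it also lives on
`C' := C ∩ Iio α`: for `j ∉ C'` it is the identity; let `x = y` on `C'` and `j ∈ C'`; put
`z := glue α x y`; `z` and `x` agree below `α`, so `H z j = H x j` (`PK.dep`, `j < α`), and
`z = y` on `C` (on `C ∩ Iio α` it is `x = y`), so `H z j = H y j`. Let `e : ℕ → Option (Iio α)` be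
an enumeration of `C'` (range `⊇ some '' C'`, and only elements of `C'`: if `C'` is empty
`e = none`). For `v : ℕ → ℕ → Bool` let `x_v : Pt W` be `x_v j := v n` with `n` the least number
with `e n = some j` if `j ∈ C'` and `x_v j = false` otherwise; `v ↦ x_v` is continuous, it
depends only on `e`. Put `Ĥ v n := H (x_v) j` if `e n = some j` and `false` if `e n = none`. This
is a continuous function `(ℕ → ℕ → Bool) → (ℕ → ℕ → Bool)`. `H` is determined by `(e, Ĥ)`: for
`j ∉ C'` (that is `some j ∉ range e`) `H x j = x j`; for `e n = some j` and any `x` let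
`v n' := x j'` for `e n' = some j'` (`false` for `none`): then `x_v = x` on `C'`, so
`H x j = H x_v j = Ĥ v n`. So the number of these `H` is at most the number of the pairs:
`#(ℕ → Option (Iio α)) ≤ (2^ℵ₀ + 1)^ℵ₀ = 2^ℵ₀`, and the number of continuous self maps `f` of
`X := ℕ → ℕ → Bool` is at most `2^ℵ₀`: `X` has a countable dense set `Q`
(`TopologicalSpace.exists_countable_dense`), `f` is determined by `f|Q` (`Continuous.ext_on`), and
`#(Q → X) ≤ (2^ℵ₀)^ℵ₀ = 2^ℵ₀`. -/
def T_CNT : Prop := ∀ (W : Type) [LinearOrder W] [WellFoundedLT W] (α : W),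
  #(Set.Iio α) ≤ 𝔠 → #{H : Pt W → Pt W // PK H ∧ Bel α H} ≤ 𝔠

/-- SKS-CLO. CLOSING OFF, abstract form. Let `W` be a well-order such that every subset of size
`≤ ℵ₁` is (strictly) bounded, and let `g : W → W` be any function. There is `α ∈ W` such that every
countable subset `C` of `Iio α` is bounded by some `β < α` with `g β < α` (`C ⊆ Iio β`).

PROOF. Let `Ω := (ω₁).ToType` (an uncountable well-order all of whose initial segments are
countable, `#Ω = ℵ₁`, and in which every countable set is bounded). Define `a : Ω → W` by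
well-founded recursion: `a ξ` is a strict upper bound of the countable set
`{a η | η < ξ} ∪ {g (a η) | η < ξ}`. So `a` is strictly monotone and `g (a η) < a ξ` for
`η < ξ`. The set `{a ξ | ξ ∈ Ω}` has size `≤ ℵ₁`, so it has a strict upper bound; let `α` be the
least `α` with `a ξ < α` for all `ξ` (well-foundedness). Let `C ⊆ Iio α` be countable. For
`c ∈ C`, by the minimality of `α` there is `ξ_c` with `c ≤ a ξ_c`. Let `ξ` be a strict upper bound
of the countable set of all `ξ_c` in `Ω`, and `β := a ξ`: `c ≤ a ξ_c < a ξ = β` for all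
`c ∈ C`, `β < α`, and `g β < a ξ' < α` for any `ξ' > ξ` (`Ω` has no maximum). -/
def T_CLO : Prop := ∀ (W : Type) [LinearOrder W] [WellFoundedLT W] [Nonempty W],
  (∀ A : Set W, #A ≤ ℵ₁ → ∃ b, ∀ a ∈ A, a < b) → ∀ g : W → W,
  ∃ α : W, ∀ C : Set W, C.Countable → C ⊆ Set.Iio α → ∃ β < α, g β < α ∧ C ⊆ Set.Iio β

/-- SKS-DEC. DECISIONS BELOW `α`. Assume CH. Let `W` be a well-order such that every subset of
size `≤ ℵ₁` is strictly bounded and all initial segments have size `≤ ℵ₁`. Let `D c` (`c ∈ Θ`,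
`#Θ ≤ ℵ₁`) be abstract decision predicates. Then there is `α ∈ W` such that for all `c ∈ Θ` and
all projection keeping `H` supported below `α` there is a projection keeping `R` supported below
`α` with `D c (H ∘ R)`.

PROOF. For `β ∈ W` the set `Q_β` of the projection keeping `H` supported below `β` has size `≤ ℵ₁`
(`T_CNT` and CH). For `H ∈ Q_β` and `c ∈ Θ` choose (`Dec.dense`) `R` with `D c (H ∘ R)` and let
`C` be a countable set on which `R` lives; `C` is strictly bounded by some `b(β, c, H) ∈ W`, so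
`R` is supported below `b(β, c, H)` (and below every larger element). The set of all `b(β, c, H)`,
`c ∈ Θ`, `H ∈ Q_β` has size `≤ ℵ₁ · ℵ₁ = ℵ₁`, let `g β` be a strict upper bound. So: for all
`H ∈ Q_β`, `c ∈ Θ` there is `R ∈ Q_{g β}` with `D c (H ∘ R)`. Let `α` be as in `T_CLO` for `g`.
Let `H` be supported below `α`, living on the countable set `C`; `H` is the identity outside
`C ∩ Iio α`, and this countable subset of `Iio α` is contained in `Iio β` for some `β < α` with
`g β < α`. So `H ∈ Q_β` and there is `R ∈ Q_{g β}`, in particular supported below `α`, with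
`D c (H ∘ R)`. -/
def T_DEC : Prop := (𝔠 : Cardinal.{0}) = ℵ₁ → ∀ (W Θ : Type) [LinearOrder W] [WellFoundedLT W]
  [Nonempty W], (∀ A : Set W, #A ≤ ℵ₁ → ∃ b, ∀ a ∈ A, a < b) → (∀ α : W, #(Set.Iio α) ≤ ℵ₁) →
  #Θ ≤ ℵ₁ → ∀ D : Θ → (Pt W → Pt W) → Prop, (∀ c, Dec (D c)) →
  ∃ α : W, ∀ c H, PK H → Bel α H → ∃ R, PK R ∧ Bel α R ∧ D c (H ∘ R)

/-- SKS-ENU. THE ENUMERATION. Assume CH and let `Ω` be a linear order of size `ℵ₁` with countable
initial segments. There is a function `n : Ω → Ω → ℕ` such that for every countably infinite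
`I ⊆ Ω` there is `b ∈ Ω` with `a < b` for all `a ∈ I` such that every `k : ℕ` is `n b a` for some
`a ∈ I`.

PROOF. The set `S := ℕ → Ω` of all sequences has size `ℵ₁^ℵ₀ = 𝔠^ℵ₀ = 𝔠 = ℵ₁`, so there is
a bijection `g : Ω → S × Ω` (`#(S × Ω) = ℵ₁`). For every `c ∈ S` the set `{b | (g b).1 = c}` is in
bijection with `Ω`, so it is uncountable and has an element above any given countable set `A`
(the union of the initial segments `Iic a`, `a ∈ A`, is countable). For `b ∈ Ω` let
`c := (g b).1`; if the range of `c` is infinite let `n b : Ω → ℕ` be a function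
which maps `range c` onto `ℕ` (`Infinite.natEmbedding` and `Function.invFun`), arbitrary otherwise.
Given `I` countably infinite let `c : ℕ → Ω` have range `I` and `b` be above `I` with
`(g b).1 = c`. -/
def T_ENU : Prop := (𝔠 : Cardinal.{0}) = ℵ₁ → ∀ (Ω : Type) [LinearOrder Ω],
  #Ω = ℵ₁ → (∀ b : Ω, (Set.Iio b).Countable) →
  ∃ n : Ω → Ω → ℕ, ∀ I : Set Ω, I.Countable → I.Infinite →
    ∃ b : Ω, (∀ a ∈ I, a < b) ∧ ∀ k : ℕ, ∃ a ∈ I, n b a = k

/-! ## The Boolean valued part -/

/-- The condition `H` decides the value of the function `f` at `a`. -/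
def DecF {W A β : Type} [LinearOrder W] (f : Fun (BA W) A β) (a : A) (H : Pt W → Pt W) : Prop :=
  ∃ (hH : PK H) (b : β), (⟨H, hH⟩ : Cond W) ∈ f.v a b

/-- SKS-DFU. `DecF f a` is an abstract decision predicate.

PROOF. Down: `RO.mem_down` (`range H' ⊆ range H` is `⟨H', _⟩ ≤ ⟨H, _⟩`). Dense: `Fun.decide` gives
`q ≤ ⟨H, _⟩` and `b` with `q ∈ f.v a b`; `q.f = H ∘ R` with `R` projection keeping
(`PK.factor`). -/
def T_DFU : Prop := ∀ (W A β : Type) [LinearOrder W] (f : Fun (BA W) A β) (a : A),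
  Dec (DecF f a)

/-- SKS-NOS. `ω₁` IS PRESERVED: if `Ω` is uncountable then the Boolean value of `there is no map
of ℕ onto Ω` is `⊤`.

PROOF. `RO.eq_top_iff'`, `RO.mem_iInf`, `RO.mem_iSup`: let `f : Fun (BA W) ℕ Ω`, `p` be given (and
call `p` also the given extension of it); we need `q ≤ p` and `y ∈ Ω` with `q ∈ (f.v x y)ᶜ` for
all `x : ℕ`. By `T_OM` for `D m := DecF f m` (`T_DFU`) and `H := p.f` there is `N` such that for
every `m` there is `t m` with `DecF f m (p.f ∘ N ∘ E)` for all `(0, t m)`-selectors `E`. For each of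
the finitely many (`T_FIN`) such `E` there is exactly one value `b` with
`⟨p.f ∘ N ∘ E, _⟩ ∈ f.v m b` (`Fun.uniq`); so the set `A` of all of these values (over all `m` and
`E`) is countable; take `y ∉ A` and `q := p.f ∘ N`. Suppose `r ≤ q` and `r ∈ f.v x y`
(`RO.mem_compl`). By `T_CMP` for `G := p.f ∘ N`, `G' := r.f`, `t := t x` there are `E`, `A₀`, `A'`
with `r.f ∘ A' = p.f ∘ N ∘ E ∘ A₀`; this condition is below `r` and below `⟨p.f ∘ N ∘ E, _⟩`, so
`y` is the value for `(x, E)` (`Fun.uniq`): `y ∈ A`, a contradiction. -/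
def T_NOS : Prop := ∀ (W Ω : Type) [LinearOrder W] [WellFoundedLT W], ¬ Countable Ω →
  noSurj (BA W) ℕ Ω = ⊤

/-- SKS-KEY. THE REAL `x_α` IS NEW. Let `f` be a function (name) all of whose values can be
decided below `α`. For every condition `p` there is a bit `k` such that for every argument `c`
there are a value `b` and conditions `q₀, q₁ ≤ p` which both force `f c = b`, while the bit `k` of
the coordinate `α` is `0` for `q₀` and `1` for `q₁`.

PROOF. `T_HLF` for `p.f` gives `k`, `E₀`, `E₁`. The maps `rst α (p.f ∘ E₀)` and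
`rst α (p.f ∘ E₁)` are equal: for `j < α` `p.f (E₀ x) j = p.f (E₁ x) j` by `PK.dep`, as `E₀ x`
and `E₁ x` agree below `α`. Call this map `G`, it is projection keeping and supported below `α`
(`T_RST`). Let `c` be given. By assumption there are `R` projection keeping and supported
below `α` and `b` with `⟨G ∘ R, _⟩ ∈ f.v c b`. Let `q_i := ⟨p.f ∘ E_i ∘ R, _⟩ ≤ p`. By `T_RST`
(for `p.f ∘ E_i`) `q_i ≤ ⟨G ∘ R, _⟩`, so `q_i ∈ f.v c b`, and
`q_i.f y α k = p.f (E_i (R y)) α k`. -/
def T_KEY : Prop := ∀ (W Θ β : Type) [LinearOrder W] [WellFoundedLT W] (f : Fun (BA W) Θ β)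
  (α : W), (∀ c H, PK H → Bel α H → ∃ R, PK R ∧ Bel α R ∧ DecF f c (H ∘ R)) → ∀ p : Cond W,
  ∃ k : ℕ, ∀ c, ∃ b, ∃ q₀ ≤ p, ∃ q₁ ≤ p, q₀ ∈ f.v c b ∧ q₁ ∈ f.v c b ∧
    (∀ y, q₀.f y α k = false) ∧ ∀ y, q₁.f y α k = true

/-- SKS-GEN. THE GENERIC REAL, COMPOSED. For `α ∈ W` and `ι : A → ℕ` there is a name
`g : Fun (BA W) A ℕ` (the function `a ↦ x_α (ι a)`, as a number `0` or `1`) such that a condition `p`
with `p.f y α (ι a) = c` for all `y` forces `g a = c.toNat`.

PROOF. `Fun.mk'` with `R a m := {p | ∀ y, (p.f y α (ι a)).toNat = m}`: inherited by extensions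
(the range gets smaller); unique value (`Pt W` is not empty); every `p` has an extension in some
`R a m`: `T_REF` for `p.f`, any point `x` and `t := single α (ι a + 1)` gives `E` with
`p.f (E y) α (ι a) = p.f x α (ι a)` for all `y`. Membership: `RO.mem_gen` (see `mem_gn` in
`CpB.Names`). -/
def T_GEN : Prop := ∀ (W A : Type) [LinearOrder W] [WellFoundedLT W] (α : W) (ι : A → ℕ),
  ∃ g : Fun (BA W) A ℕ, ∀ (a : A) (c : Bool) (p : Cond W), (∀ y, p.f y α (ι a) = c) →
    p ∈ g.v a c.toNat

/-- SKS-NCH. THE CONTINUUM IS LARGE: assume that for every family `D c` (`c ∈ Θ`, `#Θ ≤ ℵ₁`) of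
decision predicates there is `α` as in `T_DEC` (this is the conclusion of `T_DEC` for `W`), and
`#I ≤ ℵ₁`. Then the Boolean value of `|I| < 2^ℵ₀` is `⊤`.

PROOF. Let `x : I → Fun (BA W) ℕ ℕ`. The hypothesis for `Θ := I × ℕ` and
`D (i, n) := DecF (x i) n` (`T_DFU`) gives `α`. Let `y` be the name of `T_GEN` for `α` and
`ι = id : ℕ → ℕ`. We claim that every `p` is in `(eqv (x i) y)ᶜ` for all `i`. Suppose `r ≤ p` and
`r ∈ eqv (x i) y`. `T_KEY` for `f := x i` and `r` gives `k` and, for the argument `c := k`, `b` and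
`q₀, q₁ ≤ r` with `q₀, q₁ ∈ (x i).v k b`, and `q₀ ∈ y.v k 0`, `q₁ ∈ y.v k 1` (`T_GEN`). By
`mem_eqv` `b = 0` and `b = 1`. -/
def T_NCH : Prop := ∀ (W : Type) [LinearOrder W] [WellFoundedLT W],
  (∀ Θ : Type, #Θ ≤ ℵ₁ → ∀ D : Θ → (Pt W → Pt W) → Prop, (∀ c, Dec (D c)) →
    ∃ α : W, ∀ c H, PK H → Bel α H → ∃ R, PK R ∧ Bel α R ∧ D c (H ∘ R)) →
  ∀ I : Type, #I ≤ ℵ₁ → ltContinuum (BA W) I = ⊤

/-- SKS-MAIN. NO WEAKLY UNIVERSAL FUNCTION. Assume CH, let `Ω` be as in `T_ENU`, and let `W` be
such that the conclusion of `T_DEC` holds. For every name `U` of a function on the pairs of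
elements of `Ω` there is a name `F` such that the Boolean value of: `h` is injective, `e` is
finite-to-one and `F {a, b} = e (U {h a, h b})` for all `a ≠ b`, is `⊥` for all names `h`, `e`.

PROOF. The hypothesis on `W` for `Θ := Sym2 Ω` (`#Θ ≤ ℵ₁`: `Θ` is a quotient of `Ω × Ω`) and
`D c := DecF U c` (`T_DFU`) gives `α`. Let `n` be as in `T_ENU`, let
`ι : Sym2 Ω → ℕ`, `ι {a, b} := n (max a b) (min a b)`, and `F` the name of `T_GEN` for
`α`, `ι`. Let `h`, `e` be names and suppose that `p` belongs to all three Boolean values.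
(1) `T_STAR` for `D a := DecF h a` and `p.f` gives `q₁ ≤ p` which decides `h a` for infinitely many
`a`; let `I` be a countably infinite set of such `a` (`Set.Infinite.natEmbedding` or
`Set.Infinite.exists_subset...`), and `f : Ω → Ω` with `q₁ ∈ h.v a (f a)` for `a ∈ I`.
(2) `T_ENU` gives `b` above `I`. Let `q₂ ≤ q₁` with `q₂ ∈ h.v b η` (`Fun.decide`).
(3) `p ∈ finToOne e`, so there are `q₃ ≤ q₂` and `M` with `q₃ ∈ (e.v m 0)ᶜ` and
`q₃ ∈ (e.v m 1)ᶜ` for all `m ≥ M` (`RO.mem_iSup` twice, the maximum of two bounds), and `q₄ ≤ q₃`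
and `ε : ℕ → ℕ` with `q₄ ∈ e.v m (ε m)` for all `m < M` (induction on `M`).
(4) `T_KEY` for `U`, `α`, `q₄` gives `k`. Let `a ∈ I` with `n b a = k` and `c := s(f a, η)`. We get
`u` and `r₀, r₁ ≤ q₄` with `r₀, r₁ ∈ U.v c u` and `r_i ∈ F.v s(a, b) i` (`i = 0, 1`; `T_GEN`,
`ι s(a, b) = n b a = k` as `a < b`).
(5) For `i = 0, 1`: `r_i ∈ factors F U h e`, `a ≠ b`: there are `r ≤ r_i` and `c', d', u', n'` with
`r` in `h.v a c'`, `h.v b d'`, `U.v s(c', d') u'`, `e.v u' n'`, `F.v s(a, b) n'`. By uniqueness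
(`Fun.uniq`, `RO.mem_down`) `c' = f a`, `d' = η`, `u' = u`, `n' = i`. So `r ∈ e.v u i`. As
`q₃ ∈ (e.v m i)ᶜ` for `m ≥ M`: `u < M`, and `i = ε u` by uniqueness. So `0 = ε u = 1`. -/
def T_MAIN : Prop := (𝔠 : Cardinal.{0}) = ℵ₁ → ∀ (W Ω : Type) [LinearOrder W] [WellFoundedLT W]
  [LinearOrder Ω], #Ω = ℵ₁ → (∀ b : Ω, (Set.Iio b).Countable) →
  (∀ Θ : Type, #Θ ≤ ℵ₁ → ∀ D : Θ → (Pt W → Pt W) → Prop, (∀ c, Dec (D c)) →
    ∃ α : W, ∀ c H, PK H → Bel α H → ∃ R, PK R ∧ Bel α R ∧ D c (H ∘ R)) →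
  ∀ U : Fun (BA W) (Sym2 Ω) ℕ, ∃ F : Fun (BA W) (Sym2 Ω) ℕ, ∀ (h : Fun (BA W) Ω Ω)
    (e : Fun (BA W) ℕ ℕ), inj h ⊓ finToOne e ⊓ factors F U h e = ⊥

/-- SKS-ORD. The type of all ordinals below `ω₂`: every subset of size `≤ ℵ₁` is strictly bounded
and all initial segments have size `≤ ℵ₁`; the type of all countable ordinals has size `ℵ₁`, is
uncountable, and its initial segments are countable.

PROOF. `ω_ 2 = (aleph 2).ord`, `aleph 2 = succ (aleph 1)` is regular (`Cardinal.isRegular_succ`),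
cofinality of `ω₂`; `Cardinal.mk_Iio_lt` or `Ordinal.mk_Iio_ordinal...`; see the lemmas
`mk_Omega1`, `countable_Iic` in `Pool/Agent/Results/MP_504954_lc/StickNotCH.lean`. -/
def T_ORD : Prop :=
  (∀ A : Set (Ordinal.omega.{0} 2).ToType, #A ≤ ℵ₁ → ∃ b, ∀ a ∈ A, a < b) ∧
  (∀ α : (Ordinal.omega.{0} 2).ToType, #(Set.Iio α) ≤ ℵ₁) ∧
  #(Ordinal.omega.{0} 1).ToType = ℵ₁ ∧ ¬ Countable (Ordinal.omega.{0} 1).ToType ∧
  ∀ b : (Ordinal.omega.{0} 1).ToType, (Set.Iio b).Countable

end SKS
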