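import Pool.Agent.SKS.Iter
import Pool.Agent.SKS.Targets

/-!
# MP_504954_lc (project SKS): targets for the iteration structure (helper22)

`Iter.lean` has the restriction `rstS S H` to an initial segment `S` (`rstS_in`, `rstS_out`,
`rstS_In`, `rstS_of_In`, `rstS_comp`, `rstS_pk`, `rstS_range`, `rstS_mono`), `In S H`, the posets
`CondI S`, the restriction `rs S hS p` of a condition, names of perfect trees (`perfect`, `subTree`,
`sec`). The docstrings are complete proofs. In a job `SKS-XXX` prove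
`theorem SKS.p_XXX : T_XXX` (file `Pool/Agent/SKS/P_XXX.lean`, importing
`Pool.Agent.SKS.Targets2`); all other targets may be hypotheses.
-/

set_option autoImplicit false

namespace SKS

open CofSN CpB Cardinal

/-- `SKS-IEZ`. The easy clauses of `IsSacksIteration`: `le_rs`, `rs_mono`, `amalg`, `zero`,
`lim_uncountable`.

PROOF. `le_rs`: `rstS_range`. `rs_mono`: `rstS_mono`. `amalg`: by `PK.factor`
`q.f = rstS S p.f ∘ R` with `R` projection keeping; for `j ∉ S`: `x j = q.f x j = R x j`, so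
`In S R`. Let `r := p.f ∘ R`; `rstS S (p.f ∘ R) = rstS S p.f ∘ rstS S R = rstS S p.f ∘ R = q.f`
(`rstS_comp`, `rstS_of_In`). `zero`: both maps are the identity. `lim_uncountable`: `p.f` lives on
a countable set `C` (`PK.supp`); `C ∩ S` is a countable subset of `S`, so there is `β ∈ S` with
`c < β` for all `c ∈ C ∩ S`; for `j ∉ Iio β`: `j ∉ S` (`In S`) or `j ∉ C`. -/
def T_IEZ : Prop := ∀ (W : Type) [LinearOrder W] [WellFoundedLT W],
  (∀ (S : Set W) (hS : IsLowerSet S) (p : Cond W), p ≤ (rs S hS p).1) ∧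
  (∀ (S : Set W) (hS : IsLowerSet S) (p q : Cond W), q ≤ p → rs S hS q ≤ rs S hS p) ∧
  (∀ (S : Set W) (hS : IsLowerSet S) (p : Cond W) (q : CondI S), q ≤ rs S hS p →
    ∃ r ≤ p, rs S hS r = q) ∧
  (∀ p q : CondI (∅ : Set W), p ≤ q) ∧
  (∀ S : Set W, IsLowerSet S →
    (∀ C : Set W, C.Countable → C ⊆ S → ∃ β ∈ S, ∀ c ∈ C, c < β) →
    ∀ p : Cond W, In S p.f → ∃ β ∈ S, In (Set.Iio β) p.f)

/-- `SKS-SEC`. The set of conditions which generates `sec β H σ` is regular: for projection keeping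
`H` a condition `G ∈ Q_(<β)` is in `sec β H σ` iff for every `y` there is `x` such that `G y` and
`H x` agree below `β` and `H x β` extends `σ`.

PROOF. ⇐ is clear (`RO.mem_gen`: the set is closed under extensions). ⇒: let `G ∈ sec β H σ` and
let `y` be given. Let `A := {x | Ini σ (H x β)}`, a closed (clopen) set, so compact, and
`K := {z | ∃ x ∈ A, ∀ i < β, z i = H x i}`; `K` is closed: it is the preimage under the continuous
restriction map `z ↦ (fun i : Set.Iio β => z i)` of the compact (so closed) image of `A` under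
`x ↦ (fun i : Set.Iio β => H x i)`. Suppose `G.f y ∉ K`. Then there is `u` with `G.f y' ∉ K` for all
`y' ≈_u y` (`exists_cell_subset` for the preimage of `Kᶜ` under `G.f`). Let `E` be the cell
embedding (`T_CEL`) of the `u`-cell of `y`, and `G' := rs (G.f ∘ E) ≤ G`
(`rstS (G.f ∘ E) = G.f ∘ rstS E` as `G.f` is supported below `β`). By `RO.mem_gen` there are `r ≤ G'`
and `s` in the generating set with `r ≤ s`. Take any point `v`: `r.f v = s.f v'` for some `v'`, so
there is `x` with `Ini σ (H x β)` and `r.f v i = H x i` for `i < β`: `r.f v ∈ K`. But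
`r.f v = G'.f v''` for some `v''`, which agrees below `β` with `G.f (E v'')`, and membership in `K`
depends only on the coordinates below `β`, so `G.f (E v'') ∈ K`, although `E v'' ≈_u y`: a
contradiction. -/
def T_SEC : Prop := ∀ (W : Type) [LinearOrder W] [WellFoundedLT W] (β : W) (H : Pt W → Pt W),
  PK H → ∀ (σ : List Bool) (G : CondI (Set.Iio β)), G ∈ sec β H σ ↔
    ∀ y, ∃ x, (∀ i < β, G.1.f y i = H x i) ∧ Ini σ (H x β)

/-- `SKS-SP`. `succ_perfect`, for every condition `p`.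

PROOF. Let `r := rs (Iio β) p`, `H := p.f`. `r ∈ sec β H []`: for every `y`, `r.f y` and `H y` agree
below `β` (`T_SEC`, `Ini []` is trivial). Closure under initial segments (`RO.mem_iInf`,
`RO.mem_himp`, `T_SEC`): if `H x β` extends `σ ++ [b]` it extends `σ`. Splitting: let `G ≤ r` and
`G ∈ sec β H σ`; by `RO.mem_iSup` we have to find, below every `G ≤ r` (rename), a condition `G' ≤ G`
and `τ` with `G' ∈ sec β H (σ ++ τ ++ [b])` for `b = false, true`. `G.f = r.f ∘ R` with `R`
projection keeping (`PK.factor`). Take any point `y₀` and by `T_SEC` `x₀` such that `G.f y₀`, `H x₀`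
agree below `β` and `H x₀ β` extends `σ`. `G.f y₀ = r.f (R y₀)` agrees with `H (R y₀)` below `β`, so
`R y₀` and `x₀` agree below `β` (`PK.inj_lt`). By continuity let `u` be such that for all
`x ≈_u x₀`, `H x β` extends `σ`. Let `x₁` be `x₀` with the bit `u β` of the coordinate `β` changed:
`x₁ ≈_u x₀`, `x₁` and `x₀` agree below `β` and not at `β`. So `H x₁ β ≠ H x₀ β` (`PK.inj_le`) and both
extend `σ`; let `m ≥ |σ|` be the first bit where they differ and `τ` the bits `|σ|, …, m - 1` of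
`H x₀ β` (`List.ofFn`). So for `b = H x₀ β m`, `H x₀ β` extends `σ ++ τ ++ [b]` and `H x₁ β` extends
`σ ++ τ ++ [!b]`. By continuity there is `u'` such that for all `x ≈_{u'} x₀` (`x ≈_{u'} x₁`) also
`H x β` extends this sequence. Let `E` be the cell embedding (`T_REF`) with
`R (E y) ≈_{u'} R y₀` for all `y`, and `G' := rs (G.f ∘ E) = G.f ∘ rstS E ≤ G`. For every `y` let
`x := R (E y)` below `β` and `x₀` (resp. `x₁`) from `β` on. Then `x ≈_{u'} x₀` (resp. `x₁`; recall
that `R y₀`, `x₀`, `x₁` agree below `β`) and below `β` `G'.f y i = G.f (E y) i = H (R (E y)) i = H x i`.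
By `T_SEC` `G'` is in both values. -/
def T_SP : Prop := ∀ (W : Type) [LinearOrder W] [WellFoundedLT W] (β : W) (p : Cond W),
  rs (Set.Iio β) (isLowerSet_Iio β) p ∈ perfect (sec β p.f)

/-- `SKS-SL`. `succ_le`.

PROOF. ⇒: `rstS_mono`, and (`RO.mem_iInf`, `RO.mem_himp`) if `G` is in `sec β q.f σ` then for every
`y` there is `x` with ... `q.f x`; as `q ≤ p`, `q.f x = p.f x'` (`T_SEC` for both).
⇐: let `x` be given; we want `z` with `p.f z = q.f x`. For every `n` let `σ_n` be the first `n` bits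
of `q.f x β`; by continuity there is `u` such that `q.f x' β` extends `σ_n` for all `x' ≈_u x`; let `E`
be the cell embedding of the `u`-cell of `x` (`T_CEL`), and `y` with `E y = x`
(`y j m = x j (u j + m)`). Let `G := rs (q.f ∘ E)`. `G ≤ rs q` (`rstS_mono`), and
`G ∈ sec β q.f σ_n` (`T_SEC`: for every `y'` take `E y'`). By assumption `G ∈ sec β p.f σ_n`, so
(`T_SEC`) there is `z_n` such that `p.f z_n` agrees below `β` with `G.f y`, that is with `q.f x`, and
`p.f z_n β` extends `σ_n`. The set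
`K := {w | ∃ z, (∀ i < β, p.f z i = q.f x i) ∧ p.f z β = w β ∧ …}`; simpler: the set
`Z_n := {z | (∀ i < β, p.f z i = q.f x i) ∧ Ini σ_n (p.f z β)}` is closed, nonempty and decreasing in
`n`, so by compactness (`IsCompact.nonempty_iInter_of_sequence_nonempty_isCompact_isClosed`) there
is `z` in all `Z_n`: `p.f z` and `q.f x` agree up to `β`. Let `z' := z` up to `β` and `z' j := x j`
for `j > β`. `p.f z'` agrees with `p.f z` up to `β`, and for `j > β` `p.f z' j = z' j = x j = q.f x j`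
(both are supported in `Iic β`). So `p.f z' = q.f x`. -/
def T_SL : Prop := ∀ (W : Type) [LinearOrder W] [WellFoundedLT W] (β : W)
  (p q : CondI (Set.Iic β)), q ≤ p ↔
    rs (Set.Iio β) (isLowerSet_Iio β) q.1 ≤ rs (Set.Iio β) (isLowerSet_Iio β) p.1 ∧
    rs (Set.Iio β) (isLowerSet_Iio β) q.1 ∈ subTree (sec β q.1.f) (sec β p.1.f)

/-- The condition `A` forces that `ψ` is, up to level `n`, the canonical system of nodes of the
tree `T`: `ψ [] = []` and `ψ (ρ ++ [b]) = ψ ρ ++ τ ++ [b]` where `τ` is the sequence with the least code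
such that both `ψ ρ ++ τ ++ [b]` are in `T`. -/
def Sys {P : Type} [Preorder P] (T : List Bool → RO P) (A : P) (n : ℕ)
    (ψ : List Bool → List Bool) : Prop :=
  ψ [] = [] ∧ ∀ ρ : List Bool, ρ.length < n → ∃ τ : List Bool,
    (∀ b, ψ (ρ ++ [b]) = ψ ρ ++ τ ++ [b]) ∧ (∀ b, A ∈ T (ψ ρ ++ τ ++ [b])) ∧
    ∀ τ' : List Bool, Encodable.encode τ' < Encodable.encode τ →
      A ∈ (T (ψ ρ ++ τ' ++ [false]) ⊓ T (ψ ρ ++ τ' ++ [true]))ᶜ

/-- `SKS-SYS`. (1) `Sys` is inherited by extensions. (2) The system is unique up to level `n`, even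
for two different levels. (3) If `A` forces `T` to be a perfect tree then some extension of `A`
decides the system up to level `n`.

PROOF. (1) `RO.mem_down`. (2) Induction on `ρ` (from the right, `List.reverseRecOn`), `ρ.length ≤ n`
and `ρ.length ≤ n'`: for `ρ ++ [b]`, `ψ ρ = ψ' ρ`, and the two `τ`, `τ'` are equal: otherwise one of
the codes is smaller, say `encode τ < encode τ'` (`Encodable.encode_injective`), and
`A ∈ T (ψ ρ ++ τ ++ [b])` for both `b` contradicts `A ∈ (…)ᶜ` (`RO.mem_compl`).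
(3) Induction on `n`. `n = 0`: `ψ := fun _ => []`. Step: let `A' ≤ A`, `Sys T A' n ψ` be given;
`A' ∈ perfect T` and `A' ∈ T (ψ ρ)` for all `ρ` of length `≤ n` (for `[]`: `T []`; for `ρ ++ [b]`: `Sys`).
Claim: for every finite set (list) `F` of sequences of length `n` there are `A'' ≤ A'` and a
function `τ : List Bool → List Bool` such that for all `ρ ∈ F`: `A'' ∈ T (ψ ρ ++ τ ρ ++ [b])` for both
`b`, and `A'' ∈ (T (ψ ρ ++ τ' ++ [false]) ⊓ T (ψ ρ ++ τ' ++ [true]))ᶜ` for all `τ'` with a smaller code.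
Induction on `F`: for a further `ρ` there are, since `A'' ∈ T (ψ ρ)` and `A'' ∈ perfect T`
(`RO.mem_himp`, `RO.mem_iSup`), sequences `τ` such that some `A₁ ≤ A''` is in
`T (ψ ρ ++ τ ++ [false]) ⊓ T (ψ ρ ++ τ ++ [true])`; take the one with the least code (well-foundedness);
for smaller codes no extension of `A''` is in the corresponding value, so `A''` and `A₁` are in the
complement. The claim for `F` := all sequences of length `n` (a finite set: `List.finite_length_eq`)
gives `A''`, `τ`; let `ψ' ρ := ψ ρ` if `ρ.length ≤ n`, and for `ρ = ρ' ++ [b]` with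
`ρ'.length = n` let `ψ' ρ := ψ ρ' ++ τ ρ' ++ [b]` (`ρ.dropLast`, `ρ.getLast?`). -/
def T_SYS : Prop := ∀ (P : Type) [Preorder P] (T : List Bool → RO P),
  (∀ (A A' : P) (n : ℕ) (ψ : List Bool → List Bool), A' ≤ A → Sys T A n ψ → Sys T A' n ψ) ∧
  (∀ (A : P) (n n' : ℕ) (ψ ψ' : List Bool → List Bool), Sys T A n ψ → Sys T A n' ψ' →
    ∀ ρ : List Bool, ρ.length ≤ n → ρ.length ≤ n' → ψ ρ = ψ' ρ) ∧
  (∀ (A : P) (n : ℕ), A ∈ perfect T → ∃ A' ≤ A, ∃ ψ, Sys T A' n ψ)

/-- The first `n` bits of `v`. -/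
def pre (n : ℕ) (v : ℕ → Bool) : List Bool := List.ofFn (fun m : Fin n => v m)

/-- The embedding of the space into the `t`-cell of `x` (see `T_CEL`). -/
def cel {W : Type} (t : W →₀ ℕ) (x : Pt W) : Pt W → Pt W :=
  fun y j m => if m < t j then x j m else y j (m - t j)

/-- `SKS-SDH`. Let `p ∈ Q_(<β)` force that `T` is a perfect tree. There are a projection keeping
map `H` supported in `Iic β`, cells `t n` and functions `Ψ n x` (for `x : Pt W`) such that
(1) `rs H ≤ p`; (2) `rs (H ∘ cel (t n) x)` decides the canonical system of `T` up to level `n` to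
be `Ψ n x`; (3) if `x`, `y` agree below `β` then `H y β` extends
`Ψ n x (pre n (y β))`, for all `n`.

PROOF. Let `D n H :⟺ ∃ (hH : PK H) (ψ), Sys T (rs (Iio β) ⟨p.f ∘ H, _⟩) n ψ`. `D n` is a decision
predicate (`Dec`): down: `rstS_mono`, `Sys` is inherited (`T_SYS`). Dense: let `H` be projection
keeping, `A := rs (p.f ∘ H)`; `A ≤ p` (`rstS_mono` and `rstS_of_In`), so `A ∈ perfect T` and
by `T_SYS` some `A' ≤ A` has `Sys T A' n ψ`; `A'.f = A.f ∘ R` with `R` projection keeping, and
supported below `β` since `A'.f` and `A.f` are; then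
`rstS (p.f ∘ H ∘ R) = rstS (p.f ∘ H) ∘ rstS R = A.f ∘ R = A'.f` (`rstS_comp`, `rstS_of_In`).
By `T_OM` for the identity there are `N` and `t n` such that `D n (N ∘ E)` for all
`(0, t n)`-selectors `E`, in particular for `E = cel (t n) x` (`T_CEL`). Choose `Ψ n x` for it, as a
function of the map `cel (t n) x` only (so that `cel (t n) x = cel (t n) y` implies
`Ψ n x = Ψ n y`).
Claim: if `x`, `x'` agree below `β` then `Ψ n x ρ = Ψ n' x' ρ` for `ρ.length ≤ n, n'`. By symmetry of the
argument: let `A := rs (p.f ∘ N ∘ cel (t n) x)`, `A' := rs (p.f ∘ N ∘ cel (t n') x')`. The map `A'.f`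
is also `rstS (p.f ∘ N ∘ cel (t n') x)`: for `j < β` the values depend only on the coordinates below
`β` of `cel (t n') x' y`. Let `A'' := rs (p.f ∘ N ∘ cel (t n + t n') x)`. The range of
`cel (t n + t n') x` is contained in the ranges of `cel (t n) x` and `cel (t n') x` (these are the cells),
so `A'' ≤ A`, `A'' ≤ A'` (`rstS_mono`), and `T_SYS` (1), (2) give the claim.
Let `Φ x : ℕ → Bool`, `Φ x m :=` the `m`-th entry of `Ψ (m+1) x (pre (m+1) (x β))`; here
`ρ.length ≤ (Ψ n x ρ).length` for `ρ.length ≤ n` (`Sys`, induction from the right). As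
`pre (n+1) v = pre n v ++ [v n]` and by `Sys` `Ψ (n+1) x (ρ ++ [b])` extends `Ψ (n+1) x ρ = Ψ n x ρ`
(claim), the sequences `Ψ n x (pre n (x β))` are increasing in `n` and `Φ x` extends all of them.
Let `H x j := p.f (N x) j` for `j < β`, `H x β := Φ x`, `H x j := x j` for `j > β`.
`H` is projection keeping (`PK.mk'`). Continuity: for `j = β`, the bit `m` is constant on the set of
the `x'` with `x' ≈ x` for the precision `t (m+1) + single β (m+1)` (then
`cel (t (m+1)) x' = cel (t (m+1)) x` and `pre (m+1) (x' β) = pre (m+1) (x β)`). Triangular at `β`: if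
`x`, `y` agree up to `β` use the claim. Injective at `β`: let `x`, `y` agree below `β`, `x β ≠ y β`,
`m` the first bit of difference and `ρ := pre m (x β) = pre m (y β)`. By `Sys` at level `m + 1` (and
the claim) `Φ x` extends `Ψ ρ ++ τ ++ [x β m]` and `Φ y` extends `Ψ ρ ++ τ ++ [y β m]`, so they differ at
the bit `(Ψ ρ ++ τ).length`. For `j < β` use that `p.f ∘ N` is projection keeping. Support: the
support of `p.f ∘ N`, `β`, and the supports of all `t n` (if `x`, `y` agree on the support of `t n` then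
`cel (t n) x = cel (t n) y`).
(1) `rstS H = rstS (p.f ∘ N)`, `= p.f ∘ rstS N`. (2) `rstS (H ∘ cel (t n) x)` and
`rstS (p.f ∘ N ∘ cel (t n) x)` are equal. (3) `Φ y` extends `Ψ n y (pre n (y β))`, which is
`Ψ n x (pre n (y β))` by the claim. -/
def T_SDH : Prop := ∀ (W : Type) [LinearOrder W] [WellFoundedLT W] (β : W)
  (p : CondI (Set.Iio β)) (T : List Bool → RO (CondI (Set.Iio β))), p ∈ perfect T →
  ∃ (H : Pt W → Pt W) (hH : PK H) (t : ℕ → W →₀ ℕ) (Ψ : ℕ → Pt W → List Bool → List Bool),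
    In (Set.Iic β) H ∧ rs (Set.Iio β) (isLowerSet_Iio β) ⟨H, hH⟩ ≤ p ∧
    (∀ n x, ∃ hc : PK (H ∘ cel (t n) x),
      Sys T (rs (Set.Iio β) (isLowerSet_Iio β) ⟨H ∘ cel (t n) x, hc⟩) n (Ψ n x)) ∧
    ∀ n x y, (∀ i < β, x i = y i) → Ini (Ψ n x (pre n (y β))) (H y β)

/-- `SKS-SD`. `succ_dense`.

PROOF. Let `H`, `t`, `Ψ` be as in `T_SDH` and `q := ⟨H, _⟩ ∈ Q_(≤β)`. We show that
`rs q ∈ (sec β H σ ⇨ T σ)` for every `σ` (`RO.mem_iInf`, `RO.mem_himp`, `RO.mem_reg`): let
`r ≤ rs q` be in `sec β H σ`; we find an extension of `r` in `T σ`. Take any point `y₀`; by `T_SEC`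
there is `x₀` such that `r.f y₀` and `H x₀` agree below `β` and `H x₀ β` extends `σ`.
`r.f = rstS H ∘ R` with `R` projection keeping (`PK.factor`); with `z₀ := R y₀`: `r.f y₀` agrees with
`H z₀` below `β`, so `z₀` and `x₀` agree below `β` (`PK.inj_lt`). Let `n := σ.length`, `t := t n`. By `T_REF`
there is a projection keeping `E` with `R (E y) ≈_t z₀` for all `y`; by `T_RNG` for the selector
`cel t z₀` (`T_CEL`) `R ∘ E = cel t z₀ ∘ A` for some `A`, projection keeping by `PK.of_comp`. Let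
`r' := rs (r.f ∘ E)`; `r.f` is supported below `β`, so `r'.f = r.f ∘ rstS E` and `r' ≤ r`. Also
`r.f ∘ E = rstS H ∘ cel t z₀ ∘ A`, so
`r'.f = rstS (rstS H) ∘ rstS (cel t z₀) ∘ rstS A = rstS (H ∘ cel t z₀) ∘ rstS A`, so
`r' ≤ rs (H ∘ cel t z₀)` and by `T_SYS` `Sys T r' n (Ψ n z₀)`. Hence `r' ∈ T (Ψ n z₀ (pre n (x₀ β)))`:
for `n = 0` it is `T []` (`r' ∈ perfect T`), for `n = k + 1` `pre n v = pre k v ++ [v k]` and `Sys`. By
(3) of `T_SDH` `H x₀ β` extends `Ψ n z₀ (pre n (x₀ β))`, whose length is at least `n = σ.length`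
(`Sys`, induction), and it extends `σ`; so `σ` is an initial segment of `Ψ n z₀ (pre n (x₀ β))`, and
`r' ∈ T σ` because `r' ∈ perfect T` (`r' ≤ rs q ≤ p`; remove the last entries one by one). -/
def T_SD : Prop := ∀ (W : Type) [LinearOrder W] [WellFoundedLT W] (β : W)
  (p : CondI (Set.Iio β)) (T : List Bool → RO (CondI (Set.Iio β))), p ∈ perfect T →
  ∃ q : CondI (Set.Iic β), rs (Set.Iio β) (isLowerSet_Iio β) q.1 ≤ p ∧
    rs (Set.Iio β) (isLowerSet_Iio β) q.1 ∈ subTree (sec β q.1.f) T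

/-- `SKS-AL2`. `T_ALL` for cells and maps supported in the initial segment `S`. Let
`t.support ⊆ S` and let `Γ` be a property such that `Γ A` implies `Γ (A ∘ K)` for `K` projection
keeping and supported in `S`. If for all `K ∈ HS t` supported in `S` and all `(0, t)`-selectors `E`
there is a projection keeping `L` supported in `S` with `Γ (G ∘ K ∘ E ∘ L)`, then there is `K ∈ HS t`
supported in `S` such that `Γ (G ∘ K ∘ E)` for all `(0, t)`-selectors `E`.

PROOF. Every `(0, t)`-selector `E` is supported in `S` (for `j ∉ S`, `t j = 0` and `Sel.tail` says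
`E x j = x j`), so `rstS S E = E`. Apply `T_ALL` with `s = s' = 0`, `t`, the identity in place of `G`
and `Γ' Y := PK Y ∧ Γ (G ∘ rstS S Y)`. If `Γ' Y` and `K ∈ HS 0` then
`rstS S (Y ∘ K) = rstS S Y ∘ rstS S K` (`rstS_comp`), so `Γ' (Y ∘ K)`. Let `K ∈ HS t` and `E` be a
selector: `rstS S K ∈ HS t` (`rstS_pk`; the first `t j` bits are preserved), so there is `L` supported
in `S` with `Γ (G ∘ rstS S K ∘ E ∘ L)`, and `rstS S (K ∘ E ∘ L) = rstS S K ∘ E ∘ L`. `T_ALL` gives
`K ∈ HS t` with `Γ (G ∘ rstS S (K ∘ E))` for all `E`, and `rstS S (K ∘ E) = rstS S K ∘ E`; take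
`rstS S K`. -/
def T_AL2 : Prop := ∀ (W : Type) [LinearOrder W] [WellFoundedLT W] (S : Set W), IsLowerSet S →
  ∀ (t : W →₀ ℕ), (↑t.support : Set W) ⊆ S → ∀ (G : Pt W → Pt W) (Γ : (Pt W → Pt W) → Prop),
  (∀ A K, Γ A → PK K → In S K → Γ (A ∘ K)) →
  (∀ K E, HS t K → In S K → Sel 0 t E → ∃ L, PK L ∧ In S L ∧ Γ (G ∘ K ∘ E ∘ L)) →
  ∃ K, HS t K ∧ In S K ∧ ∀ E, Sel 0 t E → Γ (G ∘ K ∘ E)

/-- `SKS-GLU`. GLUING OVER THE CELLS. Let `S ⊆ S'` be initial segments and `t.support ⊆ S`. For
every `(0, t)`-selector `E` let `𝓛 E` be a projection keeping map which is the identity on `S` and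
outside of `S'`. Then there is `L ∈ HS t` which is the identity on `S` and outside of `S'` with
`L ∘ E = E ∘ 𝓛 E` for all `(0, t)`-selectors `E`.

PROOF. For `x` let `E_x := cel t x` (a `(0, t)`-selector, `T_CEL`) and `x̂ j m := x j (t j + m)`; so
`x = E_x x̂`. Let `L x := E_x (𝓛 E_x x̂)`. For `j ∈ S`: `𝓛 E_x x̂ j = x̂ j`, so `L x j = x j`. For
`j ∉ S`, `t j = 0` and `L x j = 𝓛 E_x x̂ j`. `E_x` depends only on the `t`-cell of `x`, which
depends only on the coordinates in `S`. Projection keeping (`PK.mk'`): continuity: locally `E_x`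
is constant and `x̂` continuous. Let `x`, `y` agree up to `j`. If `j ∈ S`, `L x j = x j`. If `j ∉ S`
then all elements of `S` are `< j`, so `E_x = E_y =: E` and `x̂`, `ŷ` agree up to `j`, so `𝓛 E x̂ j = 𝓛 E ŷ j`.
Injectivity: similarly (`𝓛 E x̂`, `𝓛 E ŷ` agree below `j`, as `x̂`, `ŷ` do, and at `j`, so `x̂ j = ŷ j`,
and `x j = x̂ j` as `t j = 0`). Support: the union of `t.support` and of countable supports of the
`𝓛 E` for the finitely many (`T_FIN`) `(0, t)`-selectors `E`. `L x ≈_t x` and outside of `S'` it is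
the identity: clear. `L (E y) = E (𝓛 E y)`: `E_{E y} = E`: a `(0, t)`-selector `E` is
`cel t x` for every `x` in its range (`Sel.code`: the first `t j` bits of `E y j` do not depend on
`y`; `Sel.tail`), and `(E y)^ = y` (`Sel.tail`). -/
def T_GLU : Prop := ∀ (W : Type) [LinearOrder W] [WellFoundedLT W] (S S' : Set W),
  IsLowerSet S → IsLowerSet S' → S ⊆ S' → ∀ (t : W →₀ ℕ), (↑t.support : Set W) ⊆ S →
  ∀ 𝓛 : (Pt W → Pt W) → Pt W → Pt W,
  (∀ E, Sel 0 t E → PK (𝓛 E) ∧ In S' (𝓛 E) ∧ ∀ x, ∀ i ∈ S, 𝓛 E x i = x i) →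
  ∃ L, HS t L ∧ In S' L ∧ (∀ x, ∀ i ∈ S, L x i = x i) ∧ ∀ E, Sel 0 t E → L ∘ E = E ∘ 𝓛 E

/-- `SKS-FU2`. FUSION ALONG INITIAL SEGMENTS. Let `S k` be increasing initial segments and `P k G` a
property of projection keeping maps supported in `S k` such that (i) `P 0 H`; (ii) `P k G` implies
`P k (G ∘ K)` for projection keeping `K` supported in `S k`; (iii) if `P k G` then for all `t` with
`t.support ⊆ S k` there is `K ∈ HS t` supported in `S (k+1)` with `P (k+1) (G ∘ K)`. Then there is a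
projection keeping `N` supported in the union of the `S k` with `P k (rstS (S k) (H ∘ N))` for all
`k`.

PROOF. As `T_FUS`. Construct `G k` projection keeping, supported in `S k`, with `P k (G k)`,
`G 0 = H`, `t k` with `t.support ⊆ S k`, `t 0 = 0`, and `e k : ℕ → Option W` (or a countable set
with an enumeration) such that the range of `e k` is (via `some`) a countable subset of `S k` on which
`G k` lives (`C ∩ S k` for a support `C` of `G k`: the map `G k` is the identity outside of it; for the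
second condition of `SuppIn` replace `x` by the sequence which agrees with `x` on `S k` and with `y`
outside, see `T_CNT`). Step: `t (k+1) := t k + ∑_{a ≤ k, b ≤ k} single (e a b) 1` (only the values
`some`), supported in `S k`; by (iii) for `t k` there is `K' ∈ HS (t k)` supported in `S (k+1)` with
`P (k+1) (G k ∘ K')`. Let `r k := ∑_{a ≤ k, b ≤ k} single (e a b) k`, supported in `S k`. By
`T_MOD` for `G k ∘ K'` and `t (k+1)`, `r k` there is `M' ∈ HS (t (k+1))`; let `M := rstS (S (k+1)) M'`: also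
in `HS (t (k+1))`, supported in `S (k+1)`, and still: `x ≈_{t (k+1)} y` implies
`G k (K' (M x)) ≈_{r k} G k (K' (M y))`, as for `j ∈ S k` the value at `j` depends only on the coordinates
`≤ j`, where `M` and `M'` agree. `G (k+1) := G k ∘ K' ∘ M`, `K k := K' ∘ M ∈ HS (t k)`; `P (k+1)` by (ii).
Let `C` be the set of all values of all `e k`; it is countable and all `G k` live on it. Every
`j = e a b ∈ C` is incremented at all stages `k ≥ max a b`, so `t k j → ∞`; (MOD) as in `T_FUS`.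
`T_LIM` gives `N' k` with `G k ∘ N' k = H ∘ N' 0`. Let `N := rstS (⋃ S k) (N' 0)`. Then
`rstS (S k) (H ∘ N) = rstS (S k) (H ∘ N' 0)` (the coordinates in `S k` depend only on those in
`S k`, where `N = N' 0`) `= rstS (S k) (G k ∘ N' k) = G k ∘ rstS (S k) (N' k)` (`rstS_comp`,
`rstS_of_In`), and `P k` holds by (ii). -/
def T_FU2 : Prop := ∀ (W : Type) [LinearOrder W] [WellFoundedLT W] (S : ℕ → Set W),
  (∀ k, IsLowerSet (S k)) → Monotone S → ∀ (P : ℕ → (Pt W → Pt W) → Prop) (H : Pt W → Pt W),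
  PK H → In (S 0) H → P 0 H →
  (∀ k G K, PK G → In (S k) G → P k G → PK K → In (S k) K → P k (G ∘ K)) →
  (∀ k G (t : W →₀ ℕ), PK G → In (S k) G → P k G → (↑t.support : Set W) ⊆ S k →
    ∃ K, HS t K ∧ In (S (k + 1)) K ∧ P (k + 1) (G ∘ K)) →
  ∃ N, PK N ∧ In (⋃ k, S k) N ∧ ∀ k, P k (rstS (S k) (H ∘ N))

/-- `SKS-LC`. `lim_countable`.

PROOF. Apply `T_FU2` with `H := p.1.f` and
`P k G :⟺ ∃ (hG : PK G) (hi : In (S k) G), ⟨⟨G, hG⟩, hi⟩ ∈ b k`. It gives `N`; let `q := p.f ∘ N`,
supported in `⋃ S k`; `q ≤ p`, and `rs (S k) q ∈ b k` for all `k`. (ii): `RO.mem_down`.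
(iii) Let `G ∈ Q_(S k)` be in `b k`, `t.support ⊆ S k`; write `S := S k`, `S' := S (k+1)`.
Step 1. Let `Γ X :⟺ PK X ∧ In S X ∧ ∃ L, PK L ∧ In S' L ∧ (∀ x, ∀ i ∈ S, L x i = x i) ∧` (the
condition `X ∘ L ∈ Q_S'` is in `b (k+1)`). If `Γ X` and `K` is projection keeping, supported in
`S`, then `Γ (X ∘ K)`: let `L' x i := x i` for `i ∈ S`, `L (K x) i` for `i ∉ S`. Then
`K ∘ L' = L ∘ K` (on `S` both are `K x i`, since `L' x`, `x` agree on the initial segment `S`;
outside of `S` both are `L (K x) i`), so `L'` is projection keeping (`PK.of_comp`), it is the identity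
outside of `S'`, and `X ∘ K ∘ L' = (X ∘ L) ∘ K` is in `b (k+1)` (`RO.mem_down`). Let
`K ∈ HS t` be supported in `S` and `E` a `(0, t)`-selector (supported in `S` as in `T_AL2`):
`G ∘ K ∘ E ∈ Q_S` is in `b k` (`RO.mem_down`), so there is `q' ∈ b (k+1)` with `q' ≤ G ∘ K ∘ E`,
`q'.f = G ∘ K ∘ E ∘ R` with `R` projection keeping (`PK.factor`) and supported in `S'`. Let
`L₀ := rstS S R`, and `L x i := x i` for `i ∈ S`, `R x i` for `i ∉ S`. Then `L₀ ∘ L = R`, so `L` is
projection keeping (`PK.of_comp`, `rstS_pk`), and `Γ (G ∘ K ∘ E ∘ L₀)`. So `T_AL2` gives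
`K ∈ HS t` supported in `S` with `Γ (G ∘ K ∘ E)` for all `(0, t)`-selectors `E`.
Step 2. Choose `𝓛 E` with this property for every `E`, and let `L` be as in `T_GLU`. So
`G ∘ K ∘ L ∘ E = G ∘ K ∘ E ∘ 𝓛 E` is in `b (k+1)` for all `E`.
Step 3. `G ∘ K ∘ L ∈ Q_S'` is in `b (k+1)` (`RO.mem_reg`): let `q' ∈ Q_S'` be below it. By `T_CMP`
there are a `(0, t)`-selector `E` and projection keeping `A`, `A'` with
`q'.f ∘ A' = G ∘ K ∘ L ∘ E ∘ A`. Restricting to `S'` (`rstS_comp`, `rstS_of_In`):
`q'.f ∘ rstS S' A' = G ∘ K ∘ L ∘ E ∘ rstS S' A`, which is below `q'` and in `b (k+1)`.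
So `K ∘ L ∈ HS t`, supported in `S'`, is as needed. -/
def T_LC : Prop := ∀ (W : Type) [LinearOrder W] [WellFoundedLT W] (S : ℕ → Set W)
  (hS : ∀ n, IsLowerSet (S n)), Monotone S → ∀ b : (n : ℕ) → RO (CondI (S n)),
  (∀ n, ∀ p ∈ b n, ∃ q ∈ b (n + 1), q.1 ≤ p.1) → ∀ p ∈ b 0,
  ∃ q : CondI (⋃ n, S n), q.1 ≤ p.1 ∧ ∀ n, rs (S n) (hS n) q.1 ∈ b n

end SKS
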